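import Pool.Agent.Q286.EW.EffU
import Pool.Agent.Q164.EW.RotU
import Pool.Agent.Q162.EW.CutU
import Pool.Agent.Q166.EW.CirU
import Pool.Agent.Q149.EW.TstU
import Pool.Agent.Q164.EW.Int
import Pool.Agent.Q164.EW.Ker

/-!
# EWC, any precision: all parts together
-/

namespace Pool.Agent.Q286.EW

theorem effU_all : S_EffU :=
  effU Pool.Agent.Q164.EW.RU.rotU (Pool.Agent.Q166.EW.cirU Pool.Agent.Q164.EW.RU.rotU) Pool.Agent.Q164.EW.int
    (Pool.Agent.Q149.EW.tstU Pool.Agent.Q162.EW.cutU Pool.Agent.Q164.EW.ker)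

end Pool.Agent.Q286.EW
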