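import Pool.Agent.Q286.EW.Stm

set_option autoImplicit false
set_option linter.unusedVariables false

/-!
# Project EWC, second part (any precision): statements of the lemma jobs

THEOREM (`S_EffU`). Let `E = exp (2 a / m)`. For EVERY `Y ≤ E`: if Weil's form is at least `- exp (- Y) ∫ |f|²` on `[-a, a]` then all the zeros with `|Im| ≤ c E` (`c < 2 π N^(-1/m)`) are at distance at most `2 exp (- κ Y / a)` from the critical line.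
(So a precision which is a power of `E` gives a strip.) The rotation is `φ = π / 2 - ψ`, `ψ = ψ0 Y / E`: all constants have to be polynomial in `1 / cos φ`, or exponential in `|k|`, where `k = kp + log cos φ`.
Every statement is the statement of the same name without `U` of `Stm.lean`, with explicit constants; the proofs are the existing ones with small changes: `Pool/Agent/Q285/EW/Rot.lean`, `Cut.lean`, `Pool/Agent/Q166/EW/Min.lean`, `Low.lean`, `Ctr.lean`, `Pool/Agent/Q149/EW/Tst.lean`. Please copy into a NEW file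
(do not change the old ones) and prove `theorem xxx : S_xxx`.
-/

open Filter Topology Finset MeasureTheory

namespace Pool.Agent.Q286.EW

/-- **ROTU** (job EWU-ROT): `S_Rot` with the dependence on `φ`.
Proof. That of `S_Rot` (`Q285/EW/Rot.lean`): the bound of the Gamma factors contains `cos φ ^ (- ((σ + Re a_j) / 2 + C))`: this is `cos φ ^ (- m σ / 2)` (the term `log cos φ` in `k`) times `cos φ ^ (- A)`; all the other constants do not depend on `φ`. In the strip `|Re w| ≤ 2`: Phragmén and Lindelöf with the bound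
`C cos φ ^ (- A)` on the two lines, and `Ek m k A σ ≥ A (1 + log 2) - π m` for `k ≤ 1 + log (2 π)` (as `σ (log σ - k) ≥ - exp (k - 1) ≥ - 2 π`). -/
def S_RotU : Prop := ∀ [L : Y23.G.LFun], ∃ A : ℝ, 0 ≤ A ∧ ∀ φ : ℝ, 0 ≤ φ → φ < Real.pi / 2 → ∀ w : ℂ,
  ‖L.X (1 / 2 + w)‖ * Real.exp (L.m * φ / 2 * |w.im|) ≤
    Real.cos φ ^ (-A) * Real.exp (Ek L.m (Y23.G.kp + Real.log (Real.cos φ)) A |w.re|) / (1 + w.im ^ 2)

/-- **CIRU** (job EWU-CIR; `S_Cir` and `S_Low` together, without loss of `log log`). Uses `S_RotU`.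
Proof. Let `γ = Im w0`, `δ = Re w0 ≤ 1/2`, `z0 = σ + i γ` (`σ` from `Q166.EW.ctr`), `R = σ + 2`. (1) Upper bound: for `|Re w| ≤ 5 R` `S_RotU` with `π / 2 - φ = 1 / (1 + |Im w|)` (`cos φ ≥ 2 / (π (1 + |Im w|))`) gives `‖X (1/2 + w)‖ ≤ C (1 + |Im w|)^C exp (- m π / 4 |Im w|)`.
Lower bound: `‖X (1/2 + σ + i γ)‖ ≥ c exp (- m π / 4 |γ|)` (the proof of `Q166.EW.ctr`, by `gam_low`, gives this without `ε`). So `M = exp (C Lg γ)` in `S_Min`. (2) The proof of `Q166.EW.min_` (with `fac`) gives the product form: there is a list `l` of zeros in the ball of radius `2 R` about `z0`, of length `n ≤ C Lg γ` (`disc_cnt`), containing all the zeros of this ball,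
such that `‖f z0‖ (M ^ 2)⁻¹ ∏_{b ∈ l} (‖z - b‖ / (2 R)) ≤ ‖f z‖` for `‖z - z0‖ ≤ R`. (3) `Pool.Agent.Q240.QS.real_prod` (`Q240/QS/MinMod.lean`) for the multiset of the `2 n` numbers `‖b - w0‖`, `‖b + conj w0‖` and `ρ = δ / 4`: `r ∈ [δ/4, δ/2]` with `∏ |r - ‖b - w0‖| ∏ |r - ‖b + conj w0‖| ≥ (δ / 16)^(2 n)`.
All factors are at most `6 R`, so each of the two products is at least `(δ / 16)^(2 n) (6 R)^(-n)`, and each factor is at least `(δ / 16)^(2 n) (6 R)^(-2 n)`. For `‖z - w0‖ = r`: `‖z - b‖ ≥ |‖b - w0‖ - r|`, similarly for the other circle. A zero `w` with `‖w - w0‖ > 1` has `‖w - w0‖ - r ≥ 1/2`, the others are in `l`. -/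
def S_CirU : Prop := ∀ [L : Y23.G.LFun], ∃ C : ℝ, 1 ≤ C ∧ ∀ w0 : ℂ, L.X (1 / 2 + w0) = 0 → 0 < w0.re → ∃ r : ℝ, w0.re / 4 ≤ r ∧ r ≤ w0.re / 2 ∧
  (∀ w : ℂ, L.X (1 / 2 + w) = 0 → Real.exp (-(C * Y23.G.Lg w0.im * (1 + Real.log (1 / w0.re)))) ≤ |‖w - w0‖ - r|) ∧
  ∀ z : ℂ, (‖z - w0‖ = r ∨ ‖z - -(starRingEnd ℂ) w0‖ = r) →
    Real.exp (-(L.m * Real.pi / 4 * |w0.im|) - C * Y23.G.Lg w0.im * (1 + Real.log (1 / w0.re))) ≤ ‖L.X (1 / 2 + z)‖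

/-- **CUTU** (job EWU-CUT): `S_Cut` uniformly in `k`.
Proof. That of `S_Cut` (`Q285/EW/Cut.lean`). The pointwise bound `‖φ x‖ ≤ K exp (C (1 + |x|) - ck exp (2 |x| / m))` does not depend on `k` (`σ = exp (k - 1) exp (2 |x| / m) ≤ 7 exp (2 |x| / m)`). For the tail, with `B' = C + R`:
`∫_b^∞ exp (B' (1 + x) - ck exp (2 x / m)) dx ≤ exp (B' (1 + b) - ck exp (2 b / m)) ∫_0^∞ exp (B' u - ck (exp (2 u / m) - 1)) du` (as `exp (2 x / m) - exp (2 b / m) ≥ exp (2 (x - b) / m) - 1`), and `exp (- ck exp (2 u / m)) ≤ n! (ck exp (2 u / m))^(-n)`, `2 n / m ≥ B' + 1`,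
`ck = m / 2 exp (k - 1) ≥ exp (- 1 - |k|) / 2`: so the last integral is at most `exp (ck) n! ck^(-n) ≤ exp (B (1 + |k|))`, `ck ≤ π m`. -/
def S_CutU : Prop := ∀ (m A R : ℝ), 1 ≤ m → 0 ≤ A → 0 ≤ R → ∃ B : ℝ, 0 ≤ B ∧ ∀ k : ℝ, k ≤ 1 + Real.log (2 * Real.pi) →
  ∀ (K : ℝ) (H : ℂ → ℂ), 0 < K → Differentiable ℂ H → (∀ w, ‖H w‖ ≤ K * Real.exp (Ek m k A |w.re|) / (1 + w.im ^ 2)) →
    ∀ b : ℝ, 0 ≤ b → ∃ f : ℝ → ℂ, Y23.Fa b f ∧ (∀ x, ‖f x‖ ≤ K * Real.exp (B * (1 + |k|))) ∧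
      ∀ w : ℂ, |w.re| ≤ R → ‖Y23.TT f w - H w‖ ≤ K * Real.exp (B * (1 + |k| + b) - ck m k * Real.exp (2 * b / m))

/-- **TSTU** (job EWU-TST): `S_Tst` uniformly in `k`. Uses `S_CutU`, `S_Ker`.
Proof. That of `S_Tst` (`Q149/EW/Tst.lean`) with `S_CutU`; constants `C` are absorbed by `exp (B (1 + a + |k|))`, `B` large. -/
def S_TstU : Prop := ∀ [L : Y23.G.LFun] (A h : ℝ), 0 ≤ A → 0 < h → ∃ B c0 : ℝ, 0 ≤ B ∧ 0 < c0 ∧
  ∀ (k a γ K τ : ℝ) (ν : ℕ∞) (F : ℂ → ℂ), k ≤ 1 + Real.log (2 * Real.pi) → 1 ≤ a → h ≤ a → 1 ≤ K → Differentiable ℂ F →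
    (∀ w, ‖F w‖ ≤ K * Real.exp (Ek L.m k A |w.re|) / (1 + w.im ^ 2)) →
    K * Real.exp (B * (1 + a + |k|) - ck L.m k * Real.exp (2 * (a - h) / L.m)) ≤ τ → τ ≤ 1 →
    (∀ j : ℤ, ν < (j.natAbs : ℕ∞) → ‖F (Y23.G.F.nd a j)‖ ≤ τ ∧ 2 * |γ| ≤ |(Y23.G.F.nd a j).im|) →
    (∀ w : ℂ, L.X (1 / 2 + w) = 0 → (F w = 0 ∧ F (-(starRingEnd ℂ) w) = 0) ∨
      (‖F w‖ = 1 ∧ F (-(starRingEnd ℂ) w) = -F w ∧ ‖w - γ * Complex.I‖ ≤ 2)) →
    (∃ w : ℂ, L.X (1 / 2 + w) = 0 ∧ F w ≠ 0) →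
      ∃ g : ℝ → ℂ, Y23.G.F.Hn a ν g ∧ Y23.N2 g ≤ Real.exp (B * (1 + a + |k|)) * K ^ 2 ∧
        Y23.G.QQ (D := Y23.G.zd) g ≤ -c0 + Real.exp (B * (1 + a + |k|)) * (1 + |γ|) * τ

/-- **EFFU** (helper286): the theorem. Uses `S_RotU`, `S_CirU`, `S_Int`, `S_TstU`. -/
def S_EffU : Prop := ∀ [L : Y23.G.LFun] (c : ℝ), c < Real.exp (Y23.G.kp (L := L) - 1) → ∃ C κ A : ℝ, 0 < C ∧ 0 < κ ∧
  ∀ (a Y : ℝ) (ν : ℕ∞), A ≤ a → Y ≤ Real.exp (2 * a / L.m) → ((⌈C * a * Real.exp (2 * a / L.m)⌉₊ : ℕ) : ℕ∞) ≤ ν →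
    (∀ f : ℝ → ℂ, Y23.G.F.Hn a ν f → -(Real.exp (-Y) * Y23.N2 f) ≤ Y23.G.QQ (D := Y23.G.zd) f) →
      ∀ w : ℂ, L.X (1 / 2 + w) = 0 → |w.im| ≤ c * Real.exp (2 * a / L.m) → |w.re| ≤ 2 * Real.exp (-(κ * Y / a))

end Pool.Agent.Q286.EW
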