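import Pool.Agent.Q286.PG.All
import Pool.Agent.Q286.PG.Pw
import Pool.Agent.Q286.EW.Stm2

set_option autoImplicit false

/-!
# Project EWC: from the effective criterion to Weil's form with changed weights and conductor
-/

open Filter Topology MeasureTheory Complex
open Pool.Agent.Q240 Pool.Agent.Q240.CD
open Pool.Agent.Q286.TR Pool.Agent.Q286.XG Pool.Agent.Q286.PG

namespace Pool.Agent.Q286.EW

section

variable {L : LFunction}

/-- `2 π Q^(-1/m)` -/
noncomputable def hh (L : LFunction) : ℝ := 2 * Real.pi * L.Q ^ (-(1 / (L.m : ℝ)))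

lemma hh_eq (L : LFunction) : Real.exp (Y23.G.kp (L := toL L) - 1) = hh L := by
  have hQ : 0 < L.Q := lt_of_lt_of_le one_pos L.one_le_Q
  have h1 : Y23.G.kp (L := toL L) = 1 + Real.log (2 * Real.pi) - Real.log L.Q / L.m := rfl
  have hpi := Real.pi_pos
  have h2 : 1 + Real.log (2 * Real.pi) - Real.log L.Q / L.m - 1 = Real.log (2 * Real.pi) + Real.log L.Q * -(1 / (L.m : ℝ)) := by
    ring
  unfold hh
  rw [Real.rpow_def_of_pos hQ, h1, h2, Real.exp_add, Real.exp_log (by positivity)]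

lemma strip {s : ℂ} (hs : L.Λ s = 0) : |s.re - 1 / 2| ≤ 1 := (D1 L).strip s hs

/-- the criterion in terms of the form -/
theorem effW (hE : S_EffU) (P : S_ParC) (c : ℂ) {b : ℝ} (hb : b < hh L) : ∃ C κ A : ℝ, 0 < C ∧ 0 < κ ∧ ∀ (a Y : ℝ) (ν : ℕ∞), A ≤ a →
    Y ≤ EE L a → LgX (C * a * EE L a) ν → (∀ f, Deg c a ν f → -(Real.exp (-Y) * N f) ≤ W L a f) →
      ∀ s, L.Λ s = 0 → |s.im| ≤ b * EE L a → |s.re - 1 / 2| ≤ 2 * Real.exp (-(κ * Y / a)) := by
  obtain ⟨C, κ, A, hC, hκ, h⟩ := hE (L := toL L) b (by rw [hh_eq]; exact hb)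
  refine ⟨C, κ, max A 1, hC, hκ, fun a Y ν ha hY hν hp s hs him => ?_⟩
  have ha0 : 0 < a := lt_of_lt_of_le one_pos ((le_max_right _ _).trans ha)
  have h1 := h a Y ν ((le_max_left _ _).trans ha) hY (lgX_iff.1 hν) (fun f hf => ?_) (s - 1 / 2)
    (by rw [add_sub_cancel]; exact hs) (by
      have e : (s - 1 / 2).im = s.im := by simp
      rw [e]
      exact him)
  · simpa using h1
  · obtain ⟨g, hg, hgf⟩ := hn_deg c ha0 hf
    have hg' := deg_hn ha0 hg
    have h2 := hp g hg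
    rw [W_eq L ha0 hg'.hd, CG.QQG_congr (D := D1 L) hgf] at h2
    have h5 : N g = Y23.N2 f := N2_TT P ha0 hf.1 hg'.1 hgf
    rw [h5] at h2
    exact h2

lemma final_step {κ0 b0 M a Y x : ℝ} (hκ0 : 0 < κ0) (ha0 : 0 < a) (ha : κ0 * M ≤ a * Real.log 2) (hx : |x| ≤ 1)
    (h : |x| ≤ 2 * Real.exp (-(κ0 * (b0 * Y - M) / a))) : |x| ≤ 2 * Real.exp (-(κ0 * b0 / 2 * Y / a)) := by
  by_cases hY : M ≤ b0 * Y / 2
  · refine h.trans (mul_le_mul_of_nonneg_left (Real.exp_le_exp.2 (neg_le_neg ?_)) two_pos.le)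
    refine div_le_div_of_nonneg_right ?_ ha0.le
    have : κ0 * M ≤ κ0 * (b0 * Y / 2) := mul_le_mul_of_nonneg_left hY hκ0.le
    nlinarith
  · rw [not_le] at hY
    refine hx.trans ?_
    have h1 : κ0 * b0 / 2 * Y / a ≤ Real.log 2 := by
      rw [div_le_iff₀ ha0]
      have : κ0 * (b0 * Y / 2) < κ0 * M := mul_lt_mul_of_pos_left hY hκ0
      nlinarith
    have h2 : 2 * Real.exp (-Real.log 2) = 1 := by
      rw [Real.exp_neg, Real.exp_log two_pos]
      norm_num
    rw [← h2]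
    exact mul_le_mul_of_nonneg_left (Real.exp_le_exp.2 (neg_le_neg h1)) two_pos.le

/-- changes of small total size -/
theorem effS (hE : S_EffU) (P : S_ParC) (c : ℂ) {b : ℝ} (hb : b < hh L) : ∃ C κ : ℝ, 0 < C ∧ 0 < κ ∧ ∀ b0 S : ℝ, 0 < b0 → b0 ≤ 1 → 0 ≤ S →
    ∃ A : ℝ, ∀ (a Y : ℝ) (ν : ℕ∞), A ≤ a → Y ≤ EE L a → LgX (C * a * EE L a) ν → ∀ (k0 : ℝ) (x : ℕ → ℂ),
      ∑ n ∈ Finset.Icc 2 ⌊Real.exp (2 * a)⌋₊, ‖x n‖ ≤ S * a * Real.exp (-(b0 * Y)) → -Real.exp (-(b0 * Y)) ≤ k0 →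
      (∀ f, Deg c a ν f → 0 ≤ Vx L k0 x a f) →
        ∀ s, L.Λ s = 0 → |s.im| ≤ b * EE L a → |s.re - 1 / 2| ≤ 2 * Real.exp (-(κ * b0 * Y / a)) := by
  obtain ⟨C, κ, A1, hC, hκ, h⟩ := effW (L := L) hE P c hb
  refine ⟨C, κ / 2, hC, by positivity, fun b0 S hb0 hb1 hS => ?_⟩
  -- the logarithm is small
  have hlog : ∀ᶠ a : ℝ in atTop, κ * Real.log (2 * (S * a) + 1) ≤ a * Real.log 2 := by
    have h1 : Tendsto (fun a : ℝ => Real.log (2 * (S * a) + 1) / a) atTop (𝓝 0) := by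
      have h2 : Tendsto (fun a : ℝ => Real.log ((2 * S + 1) * a) / a) atTop (𝓝 0) := by
        have h3 : Tendsto (fun a : ℝ => Real.log (2 * S + 1) / a + Real.log a / a) atTop (𝓝 (0 + 0)) := by
          refine Tendsto.add (tendsto_const_nhds.div_atTop tendsto_id) ?_
          exact Real.isLittleO_log_id_atTop.tendsto_div_nhds_zero
        rw [add_zero] at h3
        refine h3.congr' ?_
        filter_upwards [eventually_gt_atTop 0] with a ha
        rw [Real.log_mul (by positivity) ha.ne', add_div]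
      refine tendsto_of_tendsto_of_tendsto_of_le_of_le' tendsto_const_nhds h2 ?_ ?_
      · filter_upwards [eventually_gt_atTop 0] with a ha
        exact div_nonneg (Real.log_nonneg (by nlinarith [mul_nonneg hS ha.le])) ha.le
      · filter_upwards [eventually_ge_atTop 1] with a ha
        refine div_le_div_of_nonneg_right (Real.log_le_log (by nlinarith [mul_nonneg hS (by linarith : (0 : ℝ) ≤ a)]) ?_) (by linarith)
        nlinarith
    have h2 : 0 < Real.log 2 / κ := div_pos (Real.log_pos (by norm_num)) hκ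
    filter_upwards [h1.eventually (ge_mem_nhds h2), eventually_gt_atTop 0] with a ha ha0
    rw [div_le_div_iff₀ ha0 hκ] at ha
    linarith
  obtain ⟨A2, hA2⟩ := eventually_atTop.1 hlog
  refine ⟨max (max A1 A2) 1, fun a Y ν ha hY hν k0 x hx hk hp s hs him => ?_⟩
  have ha1 : 1 ≤ a := (le_max_right _ _).trans ha
  have ha0 : 0 < a := by linarith
  have hE0 : 0 < EE L a := Real.exp_pos _
  set M : ℝ := Real.log (2 * (S * a) + 1) with hM
  have hSa : 0 ≤ S * a := by positivity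
  have hM0 : 0 ≤ M := Real.log_nonneg (by linarith)
  have hMe : Real.exp M = 2 * (S * a) + 1 := Real.exp_log (by linarith)
  rcases lt_or_ge Y 0 with hY0 | hY0
  · refine (strip hs).trans ?_
    have : 0 ≤ -(κ / 2 * b0 * Y / a) := by
      rw [← neg_div, ← mul_neg]
      have : 0 < -Y := by linarith
      positivity
    have := Real.one_le_exp this
    linarith
  have h1 := h a (b0 * Y - M) ν ((le_max_left _ _).trans ((le_max_left _ _).trans ha)) (by nlinarith) hν (fun f hf => ?_) s hs him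
  · have h2 := final_step hκ ha0 (hA2 a ((le_max_right _ _).trans ((le_max_left _ _).trans ha))) (strip hs) h1
    have e : κ / 2 * b0 * Y / a = κ * b0 / 2 * Y / a := by ring
    rw [e]
    exact h2
  · have h2 := Vx_le (L := L) (κ := k0) (x := x) (a := a) (f := f) (deg_hn ha0 hf).1.1
    have h3 := hp f hf
    have hN : 0 ≤ N f := integral_nonneg fun y => by positivity
    have h4 : Real.exp (-(b0 * Y - M)) = (2 * (S * a) + 1) * Real.exp (-(b0 * Y)) := by
      rw [← hMe, ← Real.exp_add]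
      congr 1
      ring
    have h5 : 2 * ∑ n ∈ Finset.Icc 2 ⌊Real.exp (2 * a)⌋₊, ‖x n‖ - k0 ≤ Real.exp (-(b0 * Y - M)) := by
      rw [h4]
      nlinarith
    have h6 := mul_le_mul_of_nonneg_right h5 hN
    linarith

end

end Pool.Agent.Q286.EW
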