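import Pool.Agent.Q286.EW.ZeroF

set_option autoImplicit false

/-!
# Project EWC: the theorem
-/

open Filter Topology Metric
open scoped ComplexConjugate

namespace Pool.Agent.Q286.EW

/-- the choice of the rotation -/
lemma choose_psi {m q c ε : ℝ} (hm : 1 ≤ m) (hq : 0 < q) (hc : c < q) (hε : 0 < ε) :
    ∃ c1 ψ D : ℝ, c ≤ c1 ∧ 0 < c1 ∧ 0 < ψ ∧ ψ < 1 ∧ 0 < D ∧ m * ψ * c1 ≤ ε / 8 ∧ m / 2 * (q * Real.sin ψ) = m / 2 * (c1 * ψ) + D := by
  have hc1q : max c (q / 2) < q := max_lt hc (by linarith)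
  have hc10 : 0 < max c (q / 2) := lt_of_lt_of_le (by positivity) (le_max_right _ _)
  obtain ⟨c1, hc1⟩ : ∃ c1 : ℝ, c1 = max c (q / 2) := ⟨_, rfl⟩
  rw [← hc1] at hc1q hc10
  obtain ⟨s, hs⟩ : ∃ s : ℝ, s = (q - c1) / q := ⟨_, rfl⟩
  have hs0 : 0 < s := by rw [hs]; exact div_pos (by linarith) hq
  have hs1 : s < 1 := by rw [hs, div_lt_one hq]; linarith
  have hm0 : 0 < m := by linarith
  obtain ⟨ψ, hψ⟩ : ∃ ψ : ℝ, ψ = min s (ε / (8 * m * c1)) := ⟨_, rfl⟩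
  have hψ0 : 0 < ψ := by rw [hψ]; exact lt_min hs0 (by positivity)
  have hψs : ψ ≤ s := by rw [hψ]; exact min_le_left _ _
  have hψε : m * ψ * c1 ≤ ε / 8 := by
    have h1 : ψ ≤ ε / (8 * m * c1) := by rw [hψ]; exact min_le_right _ _
    rw [le_div_iff₀ (by positivity)] at h1
    linarith
  have hsin : c1 * ψ < q * Real.sin ψ := by
    have h1 := Real.sin_gt_sub_cube hψ0
    have h2 : c1 = q - q * s := by rw [hs]; field_simp; ring
    have h3 : q * (ψ - ψ ^ 3 / 6) < q * Real.sin ψ := mul_lt_mul_of_pos_left h1 hq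
    have h4 : ψ ^ 2 ≤ s ^ 2 := pow_le_pow_left₀ hψ0.le hψs 2
    have h5 : ψ ^ 3 ≤ s * ψ := by
      have : ψ ^ 3 = ψ ^ 2 * ψ := by ring
      rw [this]
      refine mul_le_mul_of_nonneg_right (h4.trans ?_) hψ0.le
      nlinarith
    have h6 : 0 < q * (s * ψ) := by positivity
    have h7 : q * ψ ^ 3 ≤ q * (s * ψ) := mul_le_mul_of_nonneg_left h5 hq.le
    rw [h2]
    nlinarith
  refine ⟨c1, ψ, m / 2 * (q * Real.sin ψ) - m / 2 * (c1 * ψ), ?_, hc10, hψ0, by linarith, ?_, hψε, by ring⟩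
  · rw [hc1]; exact le_max_left _ _
  · rw [← mul_sub]
    exact mul_pos (by positivity) (by linarith)

/-- the size of the constant -/
lemma size_K {m ψ ε2 c1 C2 C3 C4 Q κ G M1 a E ℓ P γ δ lg : ℝ} (hm0 : 0 < m) (hψ : 0 < ψ) (hψ1 : ψ < 1) (hε2 : 0 < ε2)
    (hc1 : 0 < c1) (hC2 : 0 < C2) (hC3 : 1 ≤ C3) (hC4 : 2 ≤ C4) (hQ : 0 ≤ Q) (hκ : 0 < κ) (hG : 0 < G)
    (hε2c : ε2 * c1 = G / 32) (hκG : κ * (1 + 2 * C2 * C4) = G / 32)
    (hM1 : M1 = Real.log 36 + Q + (m * Real.pi + ε2) + 4 * C3 * C4 * (1 + 2 * C2 * C4) + 2 * C2 * C4)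
    (ha : 1 ≤ a) (hE : 1 ≤ E) (hM : M1 * a ^ 2 ≤ G / 32 * E) (hγ : |γ| ≤ c1 * E) (hlg1 : 1 ≤ lg) (hlg : lg ≤ C4 * a)
    (hℓ0 : 0 ≤ ℓ) (hℓ : ℓ = Real.log (4 * C3 * lg) - Real.log δ) (hδ : Real.exp (-(κ * E / a)) < δ)
    (hP : P = (m * Real.pi / 4 + ε2) * (|γ| + 1 / 2) - m * (Real.pi / 2 - ψ) / 2 * (|γ| - 1 / 2) + 2 * C2 * lg * (1 + ℓ)) :
    1 ≤ Real.exp (Real.log 36 + Q + ℓ + P) ∧ Real.exp (Real.log 36 + Q + ℓ + P) ≤ Real.exp ((m / 2 * (ψ * c1) + G / 8) * E) := by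
  have hpi := Real.pi_gt_three
  have hδ0 : 0 < δ := (Real.exp_pos _).trans hδ
  have h36 : 0 ≤ Real.log 36 := Real.log_nonneg (by norm_num)
  have haa : 1 ≤ a ^ 2 := one_le_pow₀ ha
  have haa' : a ≤ a ^ 2 := by nlinarith
  have hℓle : ℓ ≤ 4 * C3 * C4 * a + κ * E / a := by
    have h2 : -Real.log δ ≤ κ * E / a := by
      have := Real.log_le_log (Real.exp_pos _) hδ.le
      rw [Real.log_exp] at this
      linarith
    have h3 : Real.log (4 * C3 * lg) ≤ 4 * C3 * C4 * a := by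
      have h4 : Real.log (4 * C3 * lg) ≤ 4 * C3 * lg - 1 := Real.log_le_sub_one_of_pos (by positivity)
      have h5 : 4 * C3 * lg ≤ 4 * C3 * (C4 * a) := mul_le_mul_of_nonneg_left hlg (by positivity)
      linarith
    rw [hℓ]
    linarith
  have hPeq : P = (m / 2 * ψ + ε2) * |γ| + (m * Real.pi / 4 + ε2 + m * (Real.pi / 2 - ψ) / 2) / 2 + 2 * C2 * lg * (1 + ℓ) := by
    rw [hP]; ring
  have hφ0 : 0 < Real.pi / 2 - ψ := by linarith
  have hP0 : 0 ≤ P := by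
    rw [hPeq]
    positivity
  have hPle : P ≤ (m / 2 * ψ + ε2) * (c1 * E) + (m * Real.pi + ε2) + 2 * C2 * (C4 * a) * (1 + ℓ) := by
    have h2 : (m / 2 * ψ + ε2) * |γ| ≤ (m / 2 * ψ + ε2) * (c1 * E) := mul_le_mul_of_nonneg_left hγ (by positivity)
    have h3 : (m * Real.pi / 4 + ε2 + m * (Real.pi / 2 - ψ) / 2) / 2 ≤ m * Real.pi + ε2 := by
      have : m * (Real.pi / 2 - ψ) ≤ m * (Real.pi / 2) := mul_le_mul_of_nonneg_left (by linarith) hm0.le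
      have : 0 < m * Real.pi := by positivity
      linarith
    have h4 : 2 * C2 * lg * (1 + ℓ) ≤ 2 * C2 * (C4 * a) * (1 + ℓ) := by gcongr
    rw [hPeq]
    linarith
  refine ⟨Real.one_le_exp (by positivity), Real.exp_le_exp.2 ?_⟩
  have h1 : ℓ * (1 + 2 * C2 * (C4 * a)) ≤ 4 * C3 * C4 * (1 + 2 * C2 * C4) * a ^ 2 + G / 32 * E := by
    have h2 : 1 + 2 * C2 * (C4 * a) ≤ (1 + 2 * C2 * C4) * a := by nlinarith
    have h3 : (κ * E / a) * a = κ * E := by field_simp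
    calc ℓ * (1 + 2 * C2 * (C4 * a)) ≤ (4 * C3 * C4 * a + κ * E / a) * ((1 + 2 * C2 * C4) * a) := by
          refine mul_le_mul hℓle h2 (by positivity) (by positivity)
      _ = 4 * C3 * C4 * (1 + 2 * C2 * C4) * a ^ 2 + (1 + 2 * C2 * C4) * ((κ * E / a) * a) := by ring
      _ = _ := by rw [h3, ← hκG]; ring
  have h3 : 2 * C2 * C4 * a ≤ 2 * C2 * C4 * a ^ 2 := mul_le_mul_of_nonneg_left haa' (by positivity)
  have h4 : (Real.log 36 + Q + (m * Real.pi + ε2)) * 1 ≤ (Real.log 36 + Q + (m * Real.pi + ε2)) * a ^ 2 :=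
    mul_le_mul_of_nonneg_left haa (by positivity)
  have h5 : M1 * a ^ 2 = (Real.log 36 + Q + (m * Real.pi + ε2)) * a ^ 2 + 4 * C3 * C4 * (1 + 2 * C2 * C4) * a ^ 2 + 2 * C2 * C4 * a ^ 2 := by
    rw [hM1]; ring
  have h6 : (m / 2 * ψ + ε2) * (c1 * E) = m / 2 * (ψ * c1) * E + G / 32 * E := by
    rw [← hε2c]; ring
  have h7 : 0 ≤ G * E := by positivity
  have h8 : 2 * C2 * (C4 * a) * (1 + ℓ) = ℓ * (1 + 2 * C2 * (C4 * a)) - ℓ + 2 * C2 * C4 * a := by ring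
  linarith

/-- the values at the nodes -/
lemma node_bd {m ψ c1 G C a E A1 K τ : ℝ} {j : ℤ} {ν : ℕ∞} (hm0 : 0 < m) (hψ : 0 < ψ) (hc1 : 0 < c1) (hG : 0 < G)
    (hC : C = 4 / (m * ψ) * (m / 2 * (ψ * c1) + G + 1) + 2 * c1 + 1) (ha : 1 ≤ a) (hE : 1 ≤ E)
    (hν : ((⌈C * a * E⌉₊ : ℕ) : ℕ∞) ≤ ν) (hj : ν < (j.natAbs : ℕ∞)) (hA1 : 0 < A1) (hA1E : A1 ≤ Real.exp E) (hK1 : 0 ≤ K)
    (hK : K ≤ Real.exp ((m / 2 * (ψ * c1) + G / 8) * E)) (hτ : τ = Real.exp (-(G / 4 * E))) :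
    (2 * c1 + 1) * E ≤ |Real.pi * j / a| ∧ K * (A1 * Real.exp (-(m * ψ / 4 * |Real.pi * j / a|))) ≤ τ := by
  have hpi := Real.pi_gt_three
  have hC0 : 0 < C := by rw [hC]; positivity
  have hj1 : C * a * E < (j.natAbs : ℝ) := by
    have h1 : ((⌈C * a * E⌉₊ : ℕ) : ℕ∞) < (j.natAbs : ℕ∞) := lt_of_le_of_lt hν hj
    have h2 : ⌈C * a * E⌉₊ < j.natAbs := by exact_mod_cast h1
    exact (Nat.le_ceil _).trans_lt (by exact_mod_cast h2)
  have hjabs : (j.natAbs : ℝ) = |(j : ℝ)| := by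
    rw [Nat.cast_natAbs]
    push_cast
    rfl
  rw [hjabs] at hj1
  have hvabs : C * E ≤ |Real.pi * j / a| := by
    rw [abs_div, abs_mul, abs_of_pos Real.pi_pos, abs_of_pos (by linarith : (0 : ℝ) < a), le_div_iff₀ (by linarith)]
    nlinarith [abs_nonneg (j : ℝ)]
  have hC1 : 2 * c1 + 1 ≤ C := by
    rw [hC]
    have : 0 ≤ 4 / (m * ψ) * (m / 2 * (ψ * c1) + G + 1) := by positivity
    linarith
  refine ⟨(mul_le_mul_of_nonneg_right hC1 (by linarith)).trans hvabs, ?_⟩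
  calc K * (A1 * Real.exp (-(m * ψ / 4 * |Real.pi * j / a|)))
      ≤ Real.exp ((m / 2 * (ψ * c1) + G / 8) * E) * (Real.exp E * Real.exp (-(m * ψ / 4 * (C * E)))) := by
        gcongr
    _ = Real.exp ((m / 2 * (ψ * c1) + G / 8) * E + (E + -(m * ψ / 4 * (C * E)))) := by
        rw [Real.exp_add, Real.exp_add]
    _ ≤ τ := by
        rw [hτ]
        apply Real.exp_le_exp.2
        have h6 : (m / 2 * (ψ * c1) + G + 1) * E ≤ m * ψ / 4 * (C * E) := by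
          have h7 : m / 2 * (ψ * c1) + G + 1 ≤ m * ψ / 4 * C := by
            rw [hC]
            have h8 : m * ψ / 4 * (4 / (m * ψ) * (m / 2 * (ψ * c1) + G + 1) + 2 * c1 + 1) =
                (m / 2 * (ψ * c1) + G + 1) + m * ψ / 4 * (2 * c1 + 1) := by
              field_simp
              ring
            rw [h8]
            have : 0 ≤ m * ψ / 4 * (2 * c1 + 1) := by positivity
            linarith
          calc (m / 2 * (ψ * c1) + G + 1) * E ≤ (m * ψ / 4 * C) * E := mul_le_mul_of_nonneg_right h7 (by linarith)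
            _ = _ := by ring
        have h7 : 0 ≤ G * E := by positivity
        linarith

/-- the contradiction -/
lemma final_ineq {ε G m ψ c1 CT B a E c0 K γ τ n2 qq : ℝ} (hε : 0 < ε) (hG : 0 < G) (hGε : G ≤ ε) (hψε : m * ψ * c1 ≤ ε / 8)
    (hc1 : 0 < c1) (hCT : 0 < CT) (hE : 1 ≤ E) (hBa : B * a ≤ G / 16 * E) (hK0 : 0 ≤ K)
    (hK : K ≤ Real.exp ((m / 2 * (ψ * c1) + G / 8) * E)) (hγ : |γ| ≤ c1 * E) (hτ : τ = Real.exp (-(G / 4 * E)))
    (h1 : CT * E * Real.exp (-(ε / 2 * E)) < c0 / 2) (h2 : CT * (1 + c1) * E * Real.exp (-(G / 16 * E)) < c0 / 2)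
    (hn : n2 ≤ CT * Real.exp (B * a) * K ^ 2) (hq : qq ≤ -c0 + CT * Real.exp (B * a) * (1 + |γ|) * τ)
    (hp : -(Real.exp (-(ε * E)) * n2) ≤ qq) : False := by
  have hE0 : 0 < E := by linarith
  have f1 : Real.exp (-(ε * E)) * n2 < c0 / 2 := by
    have h1' : Real.exp (-(ε * E)) * n2 ≤ Real.exp (-(ε * E)) * (CT * Real.exp (B * a) * K ^ 2) :=
      mul_le_mul_of_nonneg_left hn (Real.exp_pos _).le
    have h2 : K ^ 2 ≤ Real.exp ((m * ψ * c1 + G / 4) * E) := by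
      calc K ^ 2 ≤ (Real.exp ((m / 2 * (ψ * c1) + G / 8) * E)) ^ 2 := pow_le_pow_left₀ hK0 hK 2
        _ = _ := by rw [← Real.exp_nat_mul]; congr 1; push_cast; ring
    have h3 : Real.exp (-(ε * E)) * (CT * Real.exp (B * a) * K ^ 2) ≤ CT * E * Real.exp (-(ε / 2 * E)) := by
      calc Real.exp (-(ε * E)) * (CT * Real.exp (B * a) * K ^ 2) ≤
          Real.exp (-(ε * E)) * (CT * Real.exp (G / 16 * E) * Real.exp ((m * ψ * c1 + G / 4) * E)) := by gcongr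
        _ = CT * 1 * Real.exp (-(ε * E) + (G / 16 * E + (m * ψ * c1 + G / 4) * E)) := by
            rw [Real.exp_add, Real.exp_add]; ring
        _ ≤ CT * E * Real.exp (-(ε / 2 * E)) := by
            refine mul_le_mul (mul_le_mul_of_nonneg_left hE hCT.le) (Real.exp_le_exp.2 ?_) (Real.exp_pos _).le (by positivity)
            have h4 : G * E ≤ ε * E := mul_le_mul_of_nonneg_right hGε hE0.le
            have h5 : m * ψ * c1 * E ≤ ε / 8 * E := mul_le_mul_of_nonneg_right hψε hE0.le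
            nlinarith
    exact lt_of_le_of_lt (h1'.trans h3) h1
  have f2 : CT * Real.exp (B * a) * (1 + |γ|) * τ < c0 / 2 := by
    have h1' : 1 + |γ| ≤ (1 + c1) * E := by nlinarith
    have h2' : CT * Real.exp (B * a) * (1 + |γ|) * τ ≤ CT * Real.exp (G / 16 * E) * ((1 + c1) * E) * Real.exp (-(G / 4 * E)) := by
      rw [hτ]
      gcongr
    have h3 : CT * Real.exp (G / 16 * E) * ((1 + c1) * E) * Real.exp (-(G / 4 * E)) ≤ CT * (1 + c1) * E * Real.exp (-(G / 16 * E)) := by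
      have h4 : CT * Real.exp (G / 16 * E) * ((1 + c1) * E) * Real.exp (-(G / 4 * E)) =
          CT * (1 + c1) * E * Real.exp (G / 16 * E + -(G / 4 * E)) := by
        rw [Real.exp_add]; ring
      rw [h4]
      refine mul_le_mul_of_nonneg_left (Real.exp_le_exp.2 ?_) (by positivity)
      have : 0 ≤ G * E := by positivity
      linarith
    exact lt_of_le_of_lt (h2'.trans h3) h2
  linarith

lemma lg_le {c1 a m E γ : ℝ} (hc1 : 0 < c1) (hm : 1 ≤ m) (ha : 1 ≤ a) (hE : E = Real.exp (2 * a / m)) (hγ : |γ| ≤ c1 * E) :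
    Y23.G.Lg γ ≤ (Real.log (3 + c1) + 2) * a := by
  have hm0 : 0 < m := by linarith
  have hE1 : 1 ≤ E := by rw [hE]; exact Real.one_le_exp (by positivity)
  have hE0 : 0 < E := by linarith
  unfold Y23.G.Lg
  have h1 : 3 + |γ| ≤ (3 + c1) * E := by nlinarith
  have h2 : Real.log ((3 + c1) * E) = Real.log (3 + c1) + 2 * a / m := by
    rw [Real.log_mul (by positivity) hE0.ne', hE, Real.log_exp]
  have h3 : 2 * a / m ≤ 2 * a := by
    rw [div_le_iff₀ hm0]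
    nlinarith
  have h4 : 0 ≤ Real.log (3 + c1) := Real.log_nonneg (by linarith)
  calc Real.log (3 + |γ|) ≤ Real.log ((3 + c1) * E) := Real.log_le_log (by positivity) h1
    _ = Real.log (3 + c1) + 2 * a / m := h2
    _ ≤ (Real.log (3 + c1) + 2) * a := by nlinarith

lemma tail_le {K m ψ c1 G D B a E k h τ : ℝ} (hm0 : 0 < m) (hG : 0 < G) (hGD : G ≤ D) (hB : 0 ≤ B) (ha : 1 ≤ a) (hE : E = Real.exp (2 * a / m))
    (hK : K ≤ Real.exp ((m / 2 * (ψ * c1) + G / 8) * E)) (hck : ck m k = m / 2 * (c1 * ψ) + D) (hck0 : 0 < ck m k)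
    (hhD : ck m k * (2 * h / m) ≤ D / 8) (hBD : 2 * B * a ^ 2 ≤ D / 2 * E) (hτ : τ = Real.exp (-(G / 4 * E))) :
    K * Real.exp (B * (1 + a) - ck m k * Real.exp (2 * (a - h) / m)) ≤ τ := by
  have hE0 : 0 < E := by rw [hE]; exact Real.exp_pos _
  have hexpa : Real.exp (2 * (a - h) / m) = Real.exp (-(2 * h / m)) * E := by
    rw [hE, ← Real.exp_add]; congr 1; ring
  have hckE : (m / 2 * (c1 * ψ) + 7 * D / 8) * E ≤ ck m k * Real.exp (2 * (a - h) / m) := by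
    rw [hexpa]
    have e : ck m k * (Real.exp (-(2 * h / m)) * E) = ck m k * Real.exp (-(2 * h / m)) * E := by ring
    rw [e]
    refine mul_le_mul_of_nonneg_right ?_ hE0.le
    have h1 := Real.one_sub_le_exp_neg (2 * h / m)
    have h2 : ck m k * (1 - 2 * h / m) ≤ ck m k * Real.exp (-(2 * h / m)) := mul_le_mul_of_nonneg_left h1 hck0.le
    rw [mul_sub, mul_one] at h2
    linarith
  calc K * Real.exp (B * (1 + a) - ck m k * Real.exp (2 * (a - h) / m)) ≤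
      Real.exp ((m / 2 * (ψ * c1) + G / 8) * E) * Real.exp (B * (1 + a) - ck m k * Real.exp (2 * (a - h) / m)) :=
        mul_le_mul_of_nonneg_right hK (Real.exp_pos _).le
    _ = Real.exp ((m / 2 * (ψ * c1) + G / 8) * E + (B * (1 + a) - ck m k * Real.exp (2 * (a - h) / m))) := (Real.exp_add _ _).symm
    _ ≤ τ := by
        rw [hτ]
        apply Real.exp_le_exp.2
        have h1 : B * (1 + a) ≤ 2 * B * a ^ 2 := by
          have h0 : 1 + a ≤ 2 * a ^ 2 := by nlinarith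
          calc B * (1 + a) ≤ B * (2 * a ^ 2) := mul_le_mul_of_nonneg_left h0 hB
            _ = _ := by ring
        have h2 : G * E ≤ D * E := mul_le_mul_of_nonneg_right hGD hE0.le
        have h3 : 0 < D * E := by
          have : 0 < D := by linarith
          positivity
        have h4 : (m / 2 * (ψ * c1) + G / 8) * E = m / 2 * (c1 * ψ) * E + G * E / 8 := by ring
        have h5 : (m / 2 * (c1 * ψ) + 7 * D / 8) * E = m / 2 * (c1 * ψ) * E + 7 / 8 * (D * E) := by ring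
        linarith

/-- **The theorem**. -/
theorem eff (hR : S_Rot) (hL : S_Low) (hCi : S_Cir) (hI : S_Int) (hT : S_Tst) : S_Eff := by
  intro L c ε hc hε
  have hm : (1 : ℝ) ≤ L.m := Y23.G.m_one
  have hm0 : (0 : ℝ) < L.m := by linarith
  have hpi := Real.pi_gt_three
  obtain ⟨c1, ψ, D, hcc1, hc10, hψ0, hψ1, hD0, hψε, hDeq⟩ := choose_psi hm (Real.exp_pos _) hc hε
  obtain ⟨G, hG⟩ : ∃ G : ℝ, G = min D ε := ⟨_, rfl⟩
  have hG0 : 0 < G := by rw [hG]; exact lt_min hD0 hε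
  have hGD : G ≤ D := by rw [hG]; exact min_le_left _ _
  have hGε : G ≤ ε := by rw [hG]; exact min_le_right _ _
  have hφ0 : 0 ≤ Real.pi / 2 - ψ := by linarith
  have hφ1 : Real.pi / 2 - ψ < Real.pi / 2 := by linarith
  have hφ'0 : 0 ≤ Real.pi / 2 - ψ / 2 := by linarith
  have hφ'1 : Real.pi / 2 - ψ / 2 < Real.pi / 2 := by linarith
  have hcos : Real.cos (Real.pi / 2 - ψ) = Real.sin ψ := Real.cos_pi_div_two_sub ψ
  have hcos0 : 0 < Real.cos (Real.pi / 2 - ψ) := Real.cos_pos_of_mem_Ioo ⟨by linarith, hφ1⟩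
  obtain ⟨A0, hA0, hrot⟩ := hR (L := L) _ hφ0 hφ1
  obtain ⟨A1', hA1', hrot'⟩ := hR (L := L) _ hφ'0 hφ'1
  obtain ⟨k, hk⟩ : ∃ k : ℝ, k = Y23.G.kp (L := L) + Real.log (Real.cos (Real.pi / 2 - ψ)) := ⟨_, rfl⟩
  have hN := Real.log_nonneg L.raw.hN
  have hk1 : k ≤ 1 + Real.log (2 * Real.pi) := by
    have h1 : Real.log (Real.cos (Real.pi / 2 - ψ)) ≤ 0 := Real.log_nonpos hcos0.le (Real.cos_le_one _)
    have h2 : 0 ≤ Real.log L.N / L.m := div_nonneg hN (Nat.cast_nonneg _)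
    have h3 : Y23.G.kp (L := L) = 1 + Real.log (2 * Real.pi) - Real.log L.N / L.m := rfl
    rw [hk, h3]
    linarith
  have hckD : ck L.m k = L.m / 2 * (c1 * ψ) + D := by
    rw [← hDeq]
    unfold ck
    rw [hk, show Y23.G.kp (L := L) + Real.log (Real.cos (Real.pi / 2 - ψ)) - 1 =
      (Y23.G.kp (L := L) - 1) + Real.log (Real.cos (Real.pi / 2 - ψ)) by ring, Real.exp_add, Real.exp_log hcos0, hcos]
  have hck0 : 0 < ck L.m k := by rw [hckD]; positivity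
  obtain ⟨A1, hA1⟩ : ∃ A1 : ℝ, A1 = Real.exp (Ek L.m (Y23.G.kp + Real.log (Real.cos (Real.pi / 2 - ψ / 2))) A1' 0) := ⟨_, rfl⟩
  have hA10 : 0 < A1 := by rw [hA1]; exact Real.exp_pos _
  obtain ⟨ε2, hε2⟩ : ∃ ε2 : ℝ, ε2 = G / (32 * c1) := ⟨_, rfl⟩
  have hε20 : 0 < ε2 := by rw [hε2]; positivity
  have hε2c : ε2 * c1 = G / 32 := by rw [hε2]; field_simp
  obtain ⟨C2, hC2, hlow⟩ := hL (L := L) ε2 hε20
  obtain ⟨C3, hC3, hcir⟩ := hCi (D := Y23.G.zd (L := L))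
  obtain ⟨Q, hQ0, hQ⟩ := Ek_ratio L.m (Y23.G.kp + Real.log (Real.cos (Real.pi / 2 - ψ))) A0
  obtain ⟨h, hh⟩ : ∃ h : ℝ, h = min 1 (D * L.m / (16 * ck L.m k)) := ⟨_, rfl⟩
  have hh0 : 0 < h := by rw [hh]; exact lt_min one_pos (by positivity)
  have hh1 : h ≤ 1 := by rw [hh]; exact min_le_left _ _
  have hhD : ck L.m k * (2 * h / L.m) ≤ D / 8 := by
    have h1 : h ≤ D * L.m / (16 * ck L.m k) := by rw [hh]; exact min_le_right _ _
    rw [le_div_iff₀ (by positivity)] at h1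
    rw [mul_div_assoc', div_le_iff₀ hm0]
    linarith
  obtain ⟨B, CT, c0, hB, hCT, hc0, htst⟩ := hT (L := L) k A0 h hk1 hA0 hh0
  obtain ⟨C4, hC4⟩ : ∃ C4 : ℝ, C4 = Real.log (3 + c1) + 2 := ⟨_, rfl⟩
  have hC41 : 2 ≤ C4 := by
    have : 0 ≤ Real.log (3 + c1) := Real.log_nonneg (by linarith)
    linarith
  obtain ⟨M1, hM1⟩ : ∃ M1 : ℝ, M1 = Real.log 36 + Q + (L.m * Real.pi + ε2) + 4 * C3 * C4 * (1 + 2 * C2 * C4) + 2 * C2 * C4 := ⟨_, rfl⟩
  obtain ⟨κ, hκ⟩ : ∃ κ : ℝ, κ = G / (32 * (1 + 2 * C2 * C4)) := ⟨_, rfl⟩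
  have hκ0 : 0 < κ := by rw [hκ]; positivity
  have hκG : κ * (1 + 2 * C2 * C4) = G / 32 := by rw [hκ]; field_simp
  obtain ⟨C, hC⟩ : ∃ C : ℝ, C = 4 / (L.m * ψ) * (L.m / 2 * (ψ * c1) + G + 1) + 2 * c1 + 1 := ⟨_, rfl⟩
  have hC0 : 0 < C := by rw [hC]; positivity
  obtain ⟨a1, ha11, hga1⟩ := grow hm M1 (G / 32) (by positivity)
  obtain ⟨a2, ha21, hga2⟩ := grow hm (2 * B) (D / 2) (by positivity)
  obtain ⟨a3, ha31, hga3⟩ := grow hm |Real.log A1| 1 one_pos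
  obtain ⟨a4, ha41, hga4⟩ := grow hm B (G / 16) (by positivity)
  obtain ⟨E1, hE1⟩ := dec CT (ε / 2) (c0 / 2) hCT.le (by positivity) (by positivity)
  obtain ⟨E2, hE2⟩ := dec (CT * (1 + c1)) (G / 16) (c0 / 2) (by positivity) (by positivity) (by positivity)
  obtain ⟨a5, ha51, hga5⟩ := grow hm |E1| 1 one_pos
  obtain ⟨a6, ha61, hga6⟩ := grow hm |E2| 1 one_pos
  refine ⟨C, κ, a1 + a2 + a3 + a4 + a5 + a6, hC0, hκ0, fun a ν ha hν hpos w hw hwim => ?_⟩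
  have ha1 : 1 ≤ a := by linarith
  obtain ⟨E, hE⟩ : ∃ E : ℝ, E = Real.exp (2 * a / L.m) := ⟨_, rfl⟩
  have hEge1 : 1 ≤ E := by rw [hE]; exact Real.one_le_exp (by positivity)
  have e1 := hga1 a (by linarith)
  have e2 := hga2 a (by linarith)
  have e3 := hga3 a (by linarith)
  have e4 := hga4 a (by linarith)
  have e5 := hga5 a (by linarith)
  have e6 := hga6 a (by linarith)
  rw [← hE] at e1 e2 e3 e4 e5 e6 hν hpos hwim ⊢
  have hE0 : 0 < E := by linarith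
  have haa : 1 ≤ a ^ 2 := one_le_pow₀ ha1
  have haa' : a ≤ a ^ 2 := by nlinarith
  by_contra hcon
  rw [not_le] at hcon
  -- a zero to the right
  obtain ⟨w0, hw0, hw0re, hw0im⟩ : ∃ w0 : ℂ, L.X (1 / 2 + w0) = 0 ∧ Real.exp (-(κ * E / a)) < w0.re ∧ |w0.im| ≤ c1 * E := by
    have h1 : |w.im| ≤ c1 * E := hwim.trans (mul_le_mul_of_nonneg_right hcc1 hE0.le)
    rcases le_total 0 w.re with h | h
    · exact ⟨w, hw, by rwa [abs_of_nonneg h] at hcon, h1⟩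
    · refine ⟨-conj w, X_refl hw, ?_, ?_⟩
      · rw [Complex.neg_re, Complex.conj_re]
        rwa [abs_of_nonpos h] at hcon
      · rw [Complex.neg_im, Complex.conj_im, neg_neg]
        exact h1
  have hδ0 : 0 < w0.re := (Real.exp_pos _).trans hw0re
  obtain ⟨θ, ℓ, P, F, hθ, hℓ0, hℓ, hP, hFd, hFb, hFo, hFv, hF1⟩ := zeroF (L := L) hI hφ0 hrot hQ hε20 hC2 hlow hC3 hcir hw0 hδ0
  obtain ⟨hK1, hKle⟩ := size_K hm0 hψ0 hψ1 hε20 hc10 hC2 hC3 hC41 hQ0 hκ0 hG0 hε2c hκG hM1 ha1 hEge1 e1 hw0im (Y23.G.one_le_Lg w0.im)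
    (by rw [hC4]; exact lg_le hc10 hm ha1 hE hw0im) hℓ0 hℓ hw0re hP
  obtain ⟨K, hK⟩ : ∃ K : ℝ, K = Real.exp (Real.log 36 + Q + ℓ + P) := ⟨_, rfl⟩
  rw [← hK] at hK1 hKle hFo hFb
  rw [← hk] at hFb
  obtain ⟨τ, hτ⟩ : ∃ τ : ℝ, τ = Real.exp (-(G / 4 * E)) := ⟨_, rfl⟩
  have hτ1 : τ ≤ 1 := by
    rw [hτ]
    exact Real.exp_le_one_iff.2 (by
      have : 0 ≤ G / 4 * E := by positivity
      linarith)
  have hA1E : A1 ≤ Real.exp E := by
    rw [← Real.exp_log hA10]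
    apply Real.exp_le_exp.2
    have := le_abs_self (Real.log A1)
    have : |Real.log A1| * 1 ≤ |Real.log A1| * a ^ 2 := mul_le_mul_of_nonneg_left haa (abs_nonneg _)
    linarith
  have hnodes : ∀ j : ℤ, ν < (j.natAbs : ℕ∞) → ‖F (Y23.G.F.nd a j)‖ ≤ τ ∧ 2 * |w0.im| ≤ |(Y23.G.F.nd a j).im| := by
    intro j hj
    obtain ⟨n1, n2⟩ := node_bd (K := K) hm0 hψ0 hc10 hG0 hC ha1 hEge1 hν hj hA10 hA1E (by linarith) hKle hτ
    have hvim : (Y23.G.F.nd a j).im = Real.pi * j / a := by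
      unfold Y23.G.F.nd
      simp
    have hvre : (Y23.G.F.nd a j).re = 0 := Y23.G.F.nd_re a j
    rw [hvim]
    refine ⟨?_, by nlinarith⟩
    have h1 : 1 ≤ |(Y23.G.F.nd a j).im - w0.im| := by
      rw [hvim]
      have h2 := abs_sub_abs_le_abs_sub (Real.pi * j / a) w0.im
      nlinarith
    have h2 := hFo _ h1
    have h3 := hrot' (Y23.G.F.nd a j)
    rw [hvim, hvre, abs_zero] at h3
    have h5 : ‖Yf (L := L) θ (Y23.G.F.nd a j)‖ ≤ A1 * Real.exp (-(L.m * ψ / 4 * |Real.pi * j / a|)) := by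
      rw [norm_Yf, hvim]
      have h6 : ‖L.X (1 / 2 + Y23.G.F.nd a j)‖ * Real.exp (L.m * (Real.pi / 2 - ψ / 2) / 2 * |Real.pi * j / a|) ≤ A1 := by
        refine h3.trans ?_
        rw [hA1]
        exact div_le_self (Real.exp_pos _).le (by nlinarith [sq_nonneg (Real.pi * j / a)])
      have h7 : θ * (Real.pi * j / a) ≤ L.m * (Real.pi / 2 - ψ / 2) / 2 * |Real.pi * j / a| + -(L.m * ψ / 4 * |Real.pi * j / a|) := by
        have h8 := mul_im_le (Real.pi * j / a) hθ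
        have h9 : L.m * (Real.pi / 2 - ψ) / 2 * |Real.pi * j / a| =
            L.m * (Real.pi / 2 - ψ / 2) / 2 * |Real.pi * j / a| + -(L.m * ψ / 4 * |Real.pi * j / a|) := by ring
        linarith
      calc ‖L.X (1 / 2 + Y23.G.F.nd a j)‖ * Real.exp (θ * (Real.pi * j / a)) ≤
          ‖L.X (1 / 2 + Y23.G.F.nd a j)‖ * Real.exp (L.m * (Real.pi / 2 - ψ / 2) / 2 * |Real.pi * j / a| + -(L.m * ψ / 4 * |Real.pi * j / a|)) :=
            mul_le_mul_of_nonneg_left (Real.exp_le_exp.2 h7) (norm_nonneg _)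
        _ = (‖L.X (1 / 2 + Y23.G.F.nd a j)‖ * Real.exp (L.m * (Real.pi / 2 - ψ / 2) / 2 * |Real.pi * j / a|)) *
            Real.exp (-(L.m * ψ / 4 * |Real.pi * j / a|)) := by
            rw [Real.exp_add]; ring
        _ ≤ _ := mul_le_mul_of_nonneg_right h6 (Real.exp_pos _).le
    exact (h2.trans (mul_le_mul_of_nonneg_left h5 (by linarith))).trans n2
  obtain ⟨g, hg, hgN, hgQ⟩ := htst a w0.im K τ ν F ha1 (by linarith) hK1 hFd hFb
    (tail_le hm0 hG0 hGD hB ha1 hE hKle hckD hck0 hhD e2 hτ) hτ1 hnodes hFv ⟨w0, hw0, by rw [hF1]; exact one_ne_zero⟩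
  have hp := hpos g hg
  have hBa : B * a ≤ G / 16 * E := (mul_le_mul_of_nonneg_left haa' hB).trans e4
  have hEE1 : E1 ≤ E := by
    have := le_abs_self E1
    have : |E1| * 1 ≤ |E1| * a ^ 2 := mul_le_mul_of_nonneg_left haa (abs_nonneg _)
    linarith
  have hEE2 : E2 ≤ E := by
    have := le_abs_self E2
    have : |E2| * 1 ≤ |E2| * a ^ 2 := mul_le_mul_of_nonneg_left haa (abs_nonneg _)
    linarith
  exact final_ineq hε hG0 hGε hψε hc10 hCT hEge1 hBa (by linarith) hKle hw0im hτ (hE1 E hEE1 hEge1) (hE2 E hEE2 hEge1) hgN hgQ hp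

end Pool.Agent.Q286.EW
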