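import Pool.Agent.Q286.EW.ZeroU
import Pool.Agent.Q286.EW.Eff

set_option autoImplicit false

/-!
# Project EWC, any precision: the theorem
-/

open Filter Topology Metric
open scoped ComplexConjugate

namespace Pool.Agent.Q286.EW

/-- the choice of the rotation -/
lemma choose_psiU {m q c : ℝ} (hm : 1 ≤ m) (hq : 0 < q) (hc : c < q) :
    ∃ c1 ψ0 d0 : ℝ, c ≤ c1 ∧ 0 < c1 ∧ 0 < ψ0 ∧ ψ0 < 1 ∧ 0 < d0 ∧ m * ψ0 * c1 ≤ 1 / 8 ∧
      ∀ e : ℝ, 0 < e → e ≤ 1 → m / 2 * (c1 * (ψ0 * e)) + d0 * e ≤ m / 2 * (q * Real.sin (ψ0 * e)) := by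
  have hc1q : max c (q / 2) < q := max_lt hc (by linarith)
  have hc10 : 0 < max c (q / 2) := lt_of_lt_of_le (by positivity) (le_max_right _ _)
  obtain ⟨c1, hc1⟩ : ∃ c1 : ℝ, c1 = max c (q / 2) := ⟨_, rfl⟩
  rw [← hc1] at hc1q hc10
  obtain ⟨s, hs⟩ : ∃ s : ℝ, s = (q - c1) / q := ⟨_, rfl⟩
  have hs0 : 0 < s := by rw [hs]; exact div_pos (by linarith) hq
  have hs1 : s < 1 := by rw [hs, div_lt_one hq]; linarith
  have hm0 : 0 < m := by linarith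
  obtain ⟨ψ0, hψ⟩ : ∃ ψ0 : ℝ, ψ0 = min s (1 / (8 * m * c1)) := ⟨_, rfl⟩
  have hψ0 : 0 < ψ0 := by rw [hψ]; exact lt_min hs0 (by positivity)
  have hψs : ψ0 ≤ s := by rw [hψ]; exact min_le_left _ _
  have hψc : m * ψ0 * c1 ≤ 1 / 8 := by
    have h1 : ψ0 ≤ 1 / (8 * m * c1) := by rw [hψ]; exact min_le_right _ _
    rw [le_div_iff₀ (by positivity)] at h1
    linarith
  refine ⟨c1, ψ0, 5 / 12 * (m * q * s * ψ0), ?_, hc10, hψ0, by linarith, by positivity, hψc, fun e he he1 => ?_⟩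
  · rw [hc1]; exact le_max_left _ _
  · have hψe : 0 < ψ0 * e := by positivity
    have hψe1 : ψ0 * e ≤ s := by nlinarith
    have h1 := Real.sin_gt_sub_cube hψe
    have h2 : c1 = q - q * s := by rw [hs]; field_simp; ring
    have h4 : (ψ0 * e) ^ 2 ≤ s ^ 2 := pow_le_pow_left₀ hψe.le hψe1 2
    have h5 : (ψ0 * e) ^ 3 ≤ s * (ψ0 * e) := by
      have h6 : (ψ0 * e) ^ 3 = (ψ0 * e) ^ 2 * (ψ0 * e) := by ring
      rw [h6]
      refine mul_le_mul_of_nonneg_right (h4.trans ?_) hψe.le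
      nlinarith
    have h7 : ψ0 * e - s * (ψ0 * e) / 6 ≤ Real.sin (ψ0 * e) := by linarith
    have h8 : q * (ψ0 * e - s * (ψ0 * e) / 6) ≤ q * Real.sin (ψ0 * e) := mul_le_mul_of_nonneg_left h7 hq.le
    have h9 : c1 * (ψ0 * e) + 5 / 6 * (q * s * ψ0 * e) ≤ q * Real.sin (ψ0 * e) := by
      refine le_trans (le_of_eq ?_) h8
      rw [h2]
      ring
    have h10 := mul_le_mul_of_nonneg_left h9 (by positivity : (0 : ℝ) ≤ m / 2)
    linarith

/-- `- log sin` -/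
lemma neg_log_sin {x : ℝ} (h0 : 0 < x) (h1 : x ≤ 1) : -Real.log (Real.sin x) ≤ Real.log (2 / x) := by
  have hpi := Real.pi_lt_four
  have hpi3 := Real.pi_gt_three
  have h2 := Real.mul_le_sin h0.le (by linarith : x ≤ Real.pi / 2)
  have h3 : x / 2 ≤ Real.sin x := by
    refine le_trans ?_ h2
    rw [div_mul_eq_mul_div, div_le_div_iff₀ two_pos Real.pi_pos]
    nlinarith
  rw [← Real.log_inv]
  refine Real.log_le_log (inv_pos.2 (by linarith)) ?_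
  rw [show 2 / x = (x / 2)⁻¹ by rw [inv_div]]
  exact inv_anti₀ (by positivity) h3

/-- a lower bound of the degree, at the nodes -/
lemma node_bdU {m ψ0 c1 g0 C a E e A1 K τ Y : ℝ} {j : ℤ} {ν : ℕ∞} (hm0 : 0 < m) (hψ0 : 0 < ψ0) (hc1 : 0 < c1) (hg0 : 0 < g0)
    (hC : C = 4 / (m * ψ0) * (m / 2 * (ψ0 * c1) + 2 * g0) + 2 * c1 + 1) (ha : 1 ≤ a) (hE : 1 ≤ E) (hY : 0 < Y) (he : e * E = Y)
    (he0 : 0 < e)
    (hν : ((⌈C * a * E⌉₊ : ℕ) : ℕ∞) ≤ ν) (hj : ν < (j.natAbs : ℕ∞)) (hA1 : 0 < A1) (hA1E : A1 ≤ Real.exp (g0 / 16 * Y)) (hK1 : 0 ≤ K)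
    (hK : K ≤ Real.exp ((m / 2 * (ψ0 * c1) + g0 / 8) * Y)) (hτ : τ = Real.exp (-(g0 / 4 * Y))) :
    (2 * c1 + 1) * E ≤ |Real.pi * j / a| ∧ K * (A1 * Real.exp (-(m * (ψ0 * e) / 4 * |Real.pi * j / a|))) ≤ τ := by
  have hpi := Real.pi_gt_three
  have hC0 : 0 < C := by rw [hC]; positivity
  have hj1 : C * a * E < (j.natAbs : ℝ) := by
    have h1 : ((⌈C * a * E⌉₊ : ℕ) : ℕ∞) < (j.natAbs : ℕ∞) := lt_of_le_of_lt hν hj
    have h2 : ⌈C * a * E⌉₊ < j.natAbs := by exact_mod_cast h1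
    exact (Nat.le_ceil _).trans_lt (by exact_mod_cast h2)
  have hjabs : (j.natAbs : ℝ) = |(j : ℝ)| := by
    rw [Nat.cast_natAbs]
    push_cast
    rfl
  rw [hjabs] at hj1
  have hvabs : C * E ≤ |Real.pi * j / a| := by
    rw [abs_div, abs_mul, abs_of_pos Real.pi_pos, abs_of_pos (by linarith : (0 : ℝ) < a), le_div_iff₀ (by linarith)]
    nlinarith [abs_nonneg (j : ℝ)]
  have hC1 : 2 * c1 + 1 ≤ C := by
    rw [hC]
    have : 0 ≤ 4 / (m * ψ0) * (m / 2 * (ψ0 * c1) + 2 * g0) := by positivity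
    linarith
  refine ⟨(mul_le_mul_of_nonneg_right hC1 (by linarith)).trans hvabs, ?_⟩
  calc K * (A1 * Real.exp (-(m * (ψ0 * e) / 4 * |Real.pi * j / a|)))
      ≤ Real.exp ((m / 2 * (ψ0 * c1) + g0 / 8) * Y) * (Real.exp (g0 / 16 * Y) * Real.exp (-(m * (ψ0 * e) / 4 * (C * E)))) := by
        gcongr
    _ = Real.exp ((m / 2 * (ψ0 * c1) + g0 / 8) * Y + (g0 / 16 * Y + -(m * (ψ0 * e) / 4 * (C * E)))) := by
        rw [Real.exp_add, Real.exp_add]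
    _ ≤ τ := by
        rw [hτ]
        apply Real.exp_le_exp.2
        have h5 : m * (ψ0 * e) / 4 * (C * E) = m * ψ0 / 4 * C * Y := by rw [← he]; ring
        have h6 : (m / 2 * (ψ0 * c1) + 2 * g0) * Y ≤ m * ψ0 / 4 * C * Y := by
          refine mul_le_mul_of_nonneg_right ?_ hY.le
          rw [hC]
          have h8 : m * ψ0 / 4 * (4 / (m * ψ0) * (m / 2 * (ψ0 * c1) + 2 * g0) + 2 * c1 + 1) =
              (m / 2 * (ψ0 * c1) + 2 * g0) + m * ψ0 / 4 * (2 * c1 + 1) := by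
            field_simp
            ring
          rw [h8]
          have : 0 ≤ m * ψ0 / 4 * (2 * c1 + 1) := by positivity
          linarith
        rw [h5]
        have h7 : 0 < g0 * Y := by positivity
        nlinarith

/-- the contradiction -/
lemma final_ineqU {g0 m ψ0 c1 c0 K γ τ n2 qq Y U E a : ℝ} (hg0 : 0 < g0) (hg1 : g0 ≤ 1) (hψc : m * ψ0 * c1 ≤ 1 / 8)
    (hY : 0 < Y) (hU : Real.exp U ≤ Real.exp (g0 / 16 * Y)) (hK0 : 0 ≤ K)
    (hK : K ≤ Real.exp ((m / 2 * (ψ0 * c1) + g0 / 8) * Y)) (hγ : 1 + |γ| ≤ Real.exp (g0 / 16 * Y)) (hτ : τ = Real.exp (-(g0 / 4 * Y)))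
    (h1 : Real.exp (-(Y / 2)) < c0 / 2) (h2 : Real.exp (-(g0 / 8 * Y)) < c0 / 2)
    (hn : n2 ≤ Real.exp U * K ^ 2) (hq : qq ≤ -c0 + Real.exp U * (1 + |γ|) * τ)
    (hp : -(Real.exp (-Y) * n2) ≤ qq) : False := by
  have f1 : Real.exp (-Y) * n2 < c0 / 2 := by
    refine lt_of_le_of_lt ?_ h1
    have h3 : K ^ 2 ≤ Real.exp ((m * ψ0 * c1 + g0 / 4) * Y) := by
      calc K ^ 2 ≤ (Real.exp ((m / 2 * (ψ0 * c1) + g0 / 8) * Y)) ^ 2 := pow_le_pow_left₀ hK0 hK 2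
        _ = _ := by rw [← Real.exp_nat_mul]; congr 1; push_cast; ring
    calc Real.exp (-Y) * n2 ≤ Real.exp (-Y) * (Real.exp U * K ^ 2) := mul_le_mul_of_nonneg_left hn (Real.exp_pos _).le
      _ ≤ Real.exp (-Y) * (Real.exp (g0 / 16 * Y) * Real.exp ((m * ψ0 * c1 + g0 / 4) * Y)) := by gcongr
      _ = Real.exp (-Y + (g0 / 16 * Y + (m * ψ0 * c1 + g0 / 4) * Y)) := by rw [Real.exp_add, Real.exp_add]
      _ ≤ Real.exp (-(Y / 2)) := by
          apply Real.exp_le_exp.2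
          have h4 : m * ψ0 * c1 * Y ≤ 1 / 8 * Y := mul_le_mul_of_nonneg_right hψc hY.le
          have h5 : g0 * Y ≤ 1 * Y := mul_le_mul_of_nonneg_right hg1 hY.le
          nlinarith
  have f2 : Real.exp U * (1 + |γ|) * τ < c0 / 2 := by
    refine lt_of_le_of_lt ?_ h2
    calc Real.exp U * (1 + |γ|) * τ ≤ Real.exp (g0 / 16 * Y) * Real.exp (g0 / 16 * Y) * Real.exp (-(g0 / 4 * Y)) := by
          rw [hτ]
          gcongr
      _ = Real.exp (g0 / 16 * Y + g0 / 16 * Y + -(g0 / 4 * Y)) := by rw [Real.exp_add, Real.exp_add]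
      _ ≤ _ := by
          apply Real.exp_le_exp.2
          nlinarith
  linarith

/-- the tail -/
lemma tail_leU {K m ψ0 c1 g0 d0 a E e h τ ck0 q U Y : ℝ} (hm0 : 0 < m) (hg0 : 0 < g0) (hgd : g0 ≤ d0) (hψ0 : 0 < ψ0) (hc1 : 0 < c1)
    (hE : E = Real.exp (2 * a / m)) (he : e * E = Y) (he0 : 0 < e) (hY : 0 < Y) (hh0 : 0 ≤ h)
    (hK : K ≤ Real.exp ((m / 2 * (ψ0 * c1) + g0 / 8) * Y)) (hck : m / 2 * (c1 * (ψ0 * e)) + d0 * e ≤ ck0)
    (hck2 : ck0 ≤ m / 2 * (q * (ψ0 * e))) (hh : h * (8 * (q * ψ0)) ≤ d0) (hU : U ≤ g0 / 16 * Y) (hτ : τ = Real.exp (-(g0 / 4 * Y))) :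
    K * Real.exp (U - ck0 * Real.exp (2 * (a - h) / m)) ≤ τ := by
  have hE0 : 0 < E := by rw [hE]; exact Real.exp_pos _
  have hck00 : 0 < ck0 := by
    have : 0 < d0 := by linarith
    have : 0 < m / 2 * (c1 * (ψ0 * e)) + d0 * e := by positivity
    linarith
  have hexpa : Real.exp (2 * (a - h) / m) = Real.exp (-(2 * h / m)) * E := by
    rw [hE, ← Real.exp_add]; congr 1; ring
  have hckE : (m / 2 * (c1 * ψ0) + 7 * d0 / 8) * Y ≤ ck0 * Real.exp (2 * (a - h) / m) := by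
    rw [hexpa, ← he]
    have e1 : ck0 * (Real.exp (-(2 * h / m)) * E) = ck0 * Real.exp (-(2 * h / m)) * E := by ring
    have e2 : (m / 2 * (c1 * ψ0) + 7 * d0 / 8) * (e * E) = (m / 2 * (c1 * (ψ0 * e)) + 7 * (d0 * e) / 8) * E := by ring
    rw [e1, e2]
    refine mul_le_mul_of_nonneg_right ?_ hE0.le
    have h1 := Real.one_sub_le_exp_neg (2 * h / m)
    have h2 : ck0 * (1 - 2 * h / m) ≤ ck0 * Real.exp (-(2 * h / m)) := mul_le_mul_of_nonneg_left h1 hck00.le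
    have h3 : ck0 * (2 * h / m) ≤ d0 * e / 8 := by
      calc ck0 * (2 * h / m) ≤ m / 2 * (q * (ψ0 * e)) * (2 * h / m) := mul_le_mul_of_nonneg_right hck2 (by positivity)
        _ = h * (8 * (q * ψ0)) * e / 8 := by field_simp
        _ ≤ d0 * e / 8 := by
            have := mul_le_mul_of_nonneg_right hh he0.le
            linarith
    rw [mul_sub, mul_one] at h2
    linarith
  calc K * Real.exp (U - ck0 * Real.exp (2 * (a - h) / m)) ≤
      Real.exp ((m / 2 * (ψ0 * c1) + g0 / 8) * Y) * Real.exp (U - ck0 * Real.exp (2 * (a - h) / m)) :=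
        mul_le_mul_of_nonneg_right hK (Real.exp_pos _).le
    _ = Real.exp ((m / 2 * (ψ0 * c1) + g0 / 8) * Y + (U - ck0 * Real.exp (2 * (a - h) / m))) := (Real.exp_add _ _).symm
    _ ≤ τ := by
        rw [hτ]
        apply Real.exp_le_exp.2
        have h2 : g0 * Y ≤ d0 * Y := mul_le_mul_of_nonneg_right hgd hY.le
        have h3 : 0 < g0 * Y := by positivity
        nlinarith

/-- the logarithm of the cosine -/
lemma neg_log_le {ψ0 e E Y a m : ℝ} (hψ0 : 0 < ψ0) (hψ1 : ψ0 < 1) (he0 : 0 < e) (he : e * E = Y) (hY : 1 ≤ Y) (ha : 1 ≤ a) (hm : 1 ≤ m)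
    (hE : E = Real.exp (2 * a / m)) : Real.log (4 / (ψ0 * e)) ≤ (Real.log (4 / ψ0) + 2) * a := by
  have hE0 : 0 < E := by rw [hE]; exact Real.exp_pos _
  have hm0 : 0 < m := by linarith
  have h1 : 4 / (ψ0 * e) ≤ 4 / ψ0 * E := by
    rw [div_le_iff₀ (by positivity)]
    have : 4 / ψ0 * E * (ψ0 * e) = 4 * (e * E) := by field_simp
    rw [this, he]
    linarith
  have h2 : Real.log (4 / ψ0 * E) = Real.log (4 / ψ0) + 2 * a / m := by
    rw [Real.log_mul (by positivity) hE0.ne', hE, Real.log_exp]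
  have h3 : 2 * a / m ≤ 2 * a := by
    rw [div_le_iff₀ hm0]
    nlinarith
  have h4 : 0 ≤ Real.log (4 / ψ0) := Real.log_nonneg (by rw [le_div_iff₀ hψ0]; linarith)
  calc Real.log (4 / (ψ0 * e)) ≤ Real.log (4 / ψ0 * E) := Real.log_le_log (by positivity) h1
    _ = Real.log (4 / ψ0) + 2 * a / m := h2
    _ ≤ _ := by nlinarith

/-- the size of the constant -/
lemma size_KU {l36 Q1 m k kq C2 C4 T AΛ γ lg ℓ e E M κ ψ ψ0 c1 g0 a Y P : ℝ} (hm0 : 0 < m) (hpi : 3 < Real.pi) (hψ0 : 0 ≤ ψ)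
    (hφ0 : 0 ≤ Real.pi / 2 - ψ) (hψ : ψ = ψ0 * e) (heE : e * E = Y) (hγ0 : 0 ≤ γ) (hγ : γ ≤ c1 * E) (hC2 : 0 ≤ C2) (hC4 : 0 ≤ C4)
    (hlg0 : 0 ≤ lg) (hlg : lg ≤ C4 * a) (hℓ0 : 0 ≤ ℓ) (hℓ : ℓ ≤ κ * Y / a) (ha1 : 1 ≤ a) (hκ0 : 0 < κ) (hY0 : 0 < Y) (hκM : 2 * κ * M = g0 / 16)
    (hQ1 : 0 ≤ Q1) (hl36 : 0 ≤ l36) (hk : k ≤ kq * a) (hT : T ≤ AΛ * a)
    (hMM : l36 + Q1 + m * kq + m * Real.pi + 2 * (C2 * C4) + AΛ ≤ M ∧ C2 * C4 ≤ M) (hMa : M * a ≤ g0 / 16 * Y)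
    (hP : P = m / 2 * (ψ * γ) + m / 4 * (Real.pi / 2 - ψ) + 2 * (C2 * lg * (1 + ℓ)) + T) :
    l36 + (Q1 + m * k) + P ≤ (m / 2 * (ψ0 * c1) + g0 / 8) * Y := by
  have ha0 : 0 < a := by linarith
  have p3 : 0 < m * Real.pi := by positivity
  have hCC : 0 ≤ C2 * C4 := by positivity
  have h1 : ψ * γ ≤ ψ0 * c1 * Y := by
    calc ψ * γ ≤ ψ * (c1 * E) := mul_le_mul_of_nonneg_left hγ hψ0
      _ = ψ0 * c1 * (e * E) := by rw [hψ]; ring
      _ = _ := by rw [heE]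
  have h2 : m / 2 * (ψ * γ) ≤ m / 2 * (ψ0 * c1 * Y) := mul_le_mul_of_nonneg_left h1 (by positivity)
  have h3 : m / 4 * (Real.pi / 2 - ψ) ≤ m * Real.pi * a := by
    have h31 : m / 4 * (Real.pi / 2 - ψ) ≤ m / 4 * (Real.pi / 2) := mul_le_mul_of_nonneg_left (by linarith) (by positivity)
    have h32 : m * Real.pi * 1 ≤ m * Real.pi * a := mul_le_mul_of_nonneg_left ha1 p3.le
    linarith
  have h4 : C2 * lg * (1 + ℓ) ≤ C2 * C4 * a + C2 * C4 * (κ * Y) := by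
    have h41 : C2 * lg ≤ C2 * (C4 * a) := mul_le_mul_of_nonneg_left hlg hC2
    have h42 : ℓ * a ≤ κ * Y := by rwa [← le_div_iff₀ ha0]
    calc C2 * lg * (1 + ℓ) ≤ C2 * (C4 * a) * (1 + ℓ) := mul_le_mul_of_nonneg_right h41 (by linarith)
      _ = C2 * C4 * a + C2 * C4 * (ℓ * a) := by ring
      _ ≤ _ := by
          have := mul_le_mul_of_nonneg_left h42 hCC
          linarith
  have h5 : C2 * C4 * (κ * Y) * 2 ≤ g0 / 16 * Y := by
    calc C2 * C4 * (κ * Y) * 2 ≤ M * (κ * Y) * 2 := by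
          have : 0 ≤ κ * Y := by positivity
          have := mul_le_mul_of_nonneg_right hMM.2 this
          linarith
      _ = 2 * κ * M * Y := by ring
      _ = _ := by rw [hκM]
  have h6 : m * k ≤ m * kq * a := by
    rw [mul_assoc]
    exact mul_le_mul_of_nonneg_left hk hm0.le
  have h7 : l36 + Q1 ≤ (l36 + Q1) * a := le_mul_of_one_le_right (by linarith) ha1
  have h8 : (l36 + Q1) * a + m * kq * a + m * Real.pi * a + 2 * (C2 * C4 * a) + AΛ * a ≤ M * a := by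
    have h81 : (l36 + Q1) * a + m * kq * a + m * Real.pi * a + 2 * (C2 * C4 * a) + AΛ * a =
        (l36 + Q1 + m * kq + m * Real.pi + 2 * (C2 * C4) + AΛ) * a := by ring
    rw [h81]
    exact mul_le_mul_of_nonneg_right hMM.1 ha0.le
  rw [hP]
  have h9 : (m / 2 * (ψ0 * c1) + g0 / 8) * Y = m / 2 * (ψ0 * c1 * Y) + g0 / 16 * Y + g0 / 16 * Y := by ring
  rw [h9]
  linarith

lemma gam1U {c1 m a E M γ : ℝ} (hc1 : 0 < c1) (hm : 1 ≤ m) (ha1 : 1 ≤ a) (hE : E = Real.exp (2 * a / m)) (hE1 : 1 ≤ E) (hγ : |γ| ≤ c1 * E)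
    (hM : Real.log (1 + c1) + 2 ≤ M) : 1 + |γ| ≤ Real.exp (M * a) := by
  have hm0 : 0 < m := by linarith
  have ha0 : 0 < a := by linarith
  have h1 : 1 + |γ| ≤ (1 + c1) * E := by linarith
  have h2 : (1 + c1) * E = Real.exp (Real.log (1 + c1) + 2 * a / m) := by
    rw [Real.exp_add, Real.exp_log (by linarith), hE]
  have hl1 : 0 ≤ Real.log (1 + c1) := Real.log_nonneg (by linarith)
  have h4 : 2 * a / m ≤ 2 * a := by
    rw [div_le_iff₀ hm0]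
    have : 2 * a * 1 ≤ 2 * a * m := mul_le_mul_of_nonneg_left hm (by positivity)
    linarith
  have h5 : Real.log (1 + c1) ≤ Real.log (1 + c1) * a := le_mul_of_one_le_right hl1 ha1
  have h6 : (Real.log (1 + c1) + 2) * a ≤ M * a := mul_le_mul_of_nonneg_right hM ha0.le
  rw [h2] at h1
  exact h1.trans (Real.exp_le_exp.2 (by linarith))

/-- the values at the nodes -/
lemma nodesU [L : Y23.G.LFun] {A0 A1 K τ a ψ l' θ c1 E : ℝ} {w0 : ℂ} {j : ℤ} {F : ℂ → ℂ} (hA10 : 0 < A1) (hψ0 : 0 ≤ ψ)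
    (hcos'0 : 0 < Real.cos (Real.pi / 2 - ψ / 2)) (hl' : l' = -Real.log (Real.cos (Real.pi / 2 - ψ / 2)))
    (hA1 : A1 = Real.exp (A0 * l') * Real.exp (A0 + A0 * Real.log 2)) (hθ : |θ| ≤ L.m * (Real.pi / 2 - ψ) / 2) (hK1 : 1 ≤ K)
    (hc10 : 0 < c1) (hEge1 : 1 ≤ E) (hw0im : |w0.im| ≤ c1 * E)
    (hFo : ∀ w, 1 ≤ |w.im - w0.im| → ‖F w‖ ≤ K * ‖Yf (L := L) θ w‖)
    (h3 : ‖L.X (1 / 2 + Y23.G.F.nd a j)‖ * Real.exp (L.m * (Real.pi / 2 - ψ / 2) / 2 * |(Y23.G.F.nd a j).im|) ≤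
      Real.cos (Real.pi / 2 - ψ / 2) ^ (-A0) *
        Real.exp (Ek L.m (Y23.G.kp + Real.log (Real.cos (Real.pi / 2 - ψ / 2))) A0 |(Y23.G.F.nd a j).re|) / (1 + (Y23.G.F.nd a j).im ^ 2))
    (n1 : (2 * c1 + 1) * E ≤ |Real.pi * j / a|) (n2 : K * (A1 * Real.exp (-(L.m * ψ / 4 * |Real.pi * j / a|))) ≤ τ) :
    ‖F (Y23.G.F.nd a j)‖ ≤ τ ∧ 2 * |w0.im| ≤ |(Y23.G.F.nd a j).im| := by
  have hvim : (Y23.G.F.nd a j).im = Real.pi * j / a := by
    unfold Y23.G.F.nd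
    simp
  have hvre : (Y23.G.F.nd a j).re = 0 := Y23.G.F.nd_re a j
  have hcE : 0 < c1 * E := by positivity
  have n3 : 2 * (c1 * E) + E ≤ |Real.pi * j / a| := by
    have : (2 * c1 + 1) * E = 2 * (c1 * E) + E := by ring
    linarith
  rw [hvim]
  refine ⟨?_, by linarith⟩
  have h1 : 1 ≤ |(Y23.G.F.nd a j).im - w0.im| := by
    rw [hvim]
    have h2 := abs_sub_abs_le_abs_sub (Real.pi * j / a) w0.im
    linarith
  have h2 := hFo _ h1
  rw [hvim, hvre, abs_zero] at h3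
  have h5 : ‖Yf (L := L) θ (Y23.G.F.nd a j)‖ ≤ A1 * Real.exp (-(L.m * ψ / 4 * |Real.pi * j / a|)) := by
    rw [norm_Yf, hvim]
    have h6 : ‖L.X (1 / 2 + Y23.G.F.nd a j)‖ * Real.exp (L.m * (Real.pi / 2 - ψ / 2) / 2 * |Real.pi * j / a|) ≤ A1 := by
      refine h3.trans ?_
      have e1 : Real.cos (Real.pi / 2 - ψ / 2) ^ (-A0) = Real.exp (A0 * l') := by
        rw [Real.rpow_def_of_pos hcos'0, hl']
        congr 1
        ring
      have e2 : Ek L.m (Y23.G.kp + Real.log (Real.cos (Real.pi / 2 - ψ / 2))) A0 0 = A0 + A0 * Real.log 2 := by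
        unfold Ek
        rw [add_zero]
        ring
      rw [e1, e2, ← hA1]
      exact div_le_self hA10.le (by linarith [sq_nonneg (Real.pi * j / a)])
    have h7 : θ * (Real.pi * j / a) ≤ L.m * (Real.pi / 2 - ψ / 2) / 2 * |Real.pi * j / a| + -(L.m * ψ / 4 * |Real.pi * j / a|) := by
      have h8 := mul_im_le (Real.pi * j / a) hθ
      have h9 : L.m * (Real.pi / 2 - ψ) / 2 * |Real.pi * j / a| =
          L.m * (Real.pi / 2 - ψ / 2) / 2 * |Real.pi * j / a| + -(L.m * ψ / 4 * |Real.pi * j / a|) := by ring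
      linarith
    calc ‖L.X (1 / 2 + Y23.G.F.nd a j)‖ * Real.exp (θ * (Real.pi * j / a)) ≤
        ‖L.X (1 / 2 + Y23.G.F.nd a j)‖ * Real.exp (L.m * (Real.pi / 2 - ψ / 2) / 2 * |Real.pi * j / a| + -(L.m * ψ / 4 * |Real.pi * j / a|)) :=
          mul_le_mul_of_nonneg_left (Real.exp_le_exp.2 h7) (norm_nonneg _)
      _ = (‖L.X (1 / 2 + Y23.G.F.nd a j)‖ * Real.exp (L.m * (Real.pi / 2 - ψ / 2) / 2 * |Real.pi * j / a|)) *
          Real.exp (-(L.m * ψ / 4 * |Real.pi * j / a|)) := by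
          rw [Real.exp_add]; ring
      _ ≤ _ := mul_le_mul_of_nonneg_right h6 (Real.exp_pos _).le
  exact (h2.trans (mul_le_mul_of_nonneg_left h5 (by linarith))).trans n2

/-- **The theorem, any precision**. -/
theorem effU (hR : S_RotU) (hCi : S_CirU) (hI : S_Int) (hT : S_TstU) : S_EffU := by
  intro L c hc
  have hm : (1 : ℝ) ≤ L.m := Y23.G.m_one
  have hm0 : (0 : ℝ) < L.m := by linarith
  have hpi := Real.pi_gt_three
  have hpi4 := Real.pi_lt_four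
  obtain ⟨c1, ψ0, d0, hcc1, hc10, hψ00, hψ01, hd0, hψc, hD⟩ := choose_psiU hm (Real.exp_pos _) hc
  obtain ⟨q, hq⟩ : ∃ q : ℝ, q = Real.exp (Y23.G.kp (L := L) - 1) := ⟨_, rfl⟩
  have hq0 : 0 < q := by rw [hq]; exact Real.exp_pos _
  rw [← hq] at hD
  obtain ⟨g0, hg⟩ : ∃ g0 : ℝ, g0 = min d0 1 := ⟨_, rfl⟩
  have hg0 : 0 < g0 := by rw [hg]; exact lt_min hd0 one_pos
  have hgd : g0 ≤ d0 := by rw [hg]; exact min_le_left _ _
  have hg1 : g0 ≤ 1 := by rw [hg]; exact min_le_right _ _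
  obtain ⟨A0, hA0, hrot⟩ := hR (L := L)
  obtain ⟨C2', hC2', hcir⟩ := hCi (L := L)
  obtain ⟨C2, hC2⟩ : ∃ C2 : ℝ, C2 = C2' + 1 := ⟨_, rfl⟩
  have hC22 : 2 ≤ C2 := by linarith
  obtain ⟨Q1, hQ1, hQ⟩ := Ek_ratioU (A := A0) hm0.le
  obtain ⟨h, hh⟩ : ∃ h : ℝ, h = min 1 (d0 / (8 * (q * ψ0))) := ⟨_, rfl⟩
  have hh0 : 0 < h := by rw [hh]; exact lt_min one_pos (by positivity)
  have hh1 : h ≤ 1 := by rw [hh]; exact min_le_left _ _
  have hhD : h * (8 * (q * ψ0)) ≤ d0 := by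
    have h1 : h ≤ d0 / (8 * (q * ψ0)) := by rw [hh]; exact min_le_right _ _
    rwa [le_div_iff₀ (by positivity)] at h1
  obtain ⟨B, c0, hB, hc0, htst⟩ := hT (L := L) A0 h hA0 hh0
  obtain ⟨C4, hC4⟩ : ∃ C4 : ℝ, C4 = Real.log (3 + c1) + 2 := ⟨_, rfl⟩
  have hC41 : 2 ≤ C4 := by
    have : 0 ≤ Real.log (3 + c1) := Real.log_nonneg (by linarith)
    linarith
  obtain ⟨Λ, hΛ⟩ : ∃ Λ : ℝ, Λ = Real.log (4 / ψ0) + 2 := ⟨_, rfl⟩
  have hΛ0 : 0 ≤ Λ := by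
    have : 0 ≤ Real.log (4 / ψ0) := Real.log_nonneg (by rw [le_div_iff₀ hψ00]; linarith)
    linarith
  obtain ⟨kq, hkq⟩ : ∃ kq : ℝ, kq = |Y23.G.kp (L := L)| + Λ := ⟨_, rfl⟩
  have hkq0 : 0 ≤ kq := by rw [hkq]; positivity
  have hl1 : 0 ≤ Real.log (1 + c1) := Real.log_nonneg (by linarith)
  have hl36 : 1 ≤ Real.log 36 := by
    rw [Real.le_log_iff_exp_le (by norm_num)]
    have := Real.exp_one_lt_d9
    linarith
  obtain ⟨M, hM⟩ : ∃ M : ℝ, M = Real.log 36 + Q1 + L.m * kq + A0 * Λ + L.m * Real.pi + 2 * (C2 * C4) + B * (2 + kq) + 2 * A0 +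
    (Real.log (1 + c1) + 2) := ⟨_, rfl⟩
  have hCC : 0 < C2 * C4 := by positivity
  have p1 : 0 ≤ L.m * kq := by positivity
  have p2 : 0 ≤ A0 * Λ := by positivity
  have p3 : 0 < L.m * Real.pi := by positivity
  have p4 : 0 ≤ B * (2 + kq) := by positivity
  have hM1 : 1 ≤ M := by rw [hM]; linarith
  have hM0 : 0 < M := by linarith
  obtain ⟨κ, hκ⟩ : ∃ κ : ℝ, κ = g0 / (32 * M) := ⟨_, rfl⟩
  have hκ0 : 0 < κ := by rw [hκ]; positivity
  have hκM : 2 * κ * M = g0 / 16 := by rw [hκ]; field_simp; norm_num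
  have hκ1 : 2 * κ ≤ 1 := by nlinarith
  obtain ⟨C, hC⟩ : ∃ C : ℝ, C = 4 / (L.m * ψ0) * (L.m / 2 * (ψ0 * c1) + 2 * g0) + 2 * c1 + 1 := ⟨_, rfl⟩
  have hC0 : 0 < C := by rw [hC]; positivity
  obtain ⟨Y1, hY1⟩ : ∃ Y1 : ℝ, Y1 = 8 / g0 * (|Real.log (c0 / 2)| + 1) := ⟨_, rfl⟩
  have hY10 : 0 < Y1 := by rw [hY1]; positivity
  refine ⟨C, κ, 1 + 2 * κ * Y1, hC0, hκ0, fun a Y ν ha hYE hν hpos w hw hwim => ?_⟩
  have ha1 : 1 ≤ a := by
    have : 0 < 2 * κ * Y1 := by positivity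
    linarith
  have ha0 : 0 < a := by linarith
  obtain ⟨E, hE⟩ : ∃ E : ℝ, E = Real.exp (2 * a / L.m) := ⟨_, rfl⟩
  have hEge1 : 1 ≤ E := by rw [hE]; exact Real.one_le_exp (by positivity)
  have hE0 : 0 < E := by linarith
  rw [← hE] at hYE hν hwim
  by_contra hcon
  rw [not_le] at hcon
  -- a zero to the right
  obtain ⟨w0, hw0, hw0re, hw0im⟩ : ∃ w0 : ℂ, L.X (1 / 2 + w0) = 0 ∧ 2 * Real.exp (-(κ * Y / a)) < w0.re ∧ |w0.im| ≤ c1 * E := by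
    have h1 : |w.im| ≤ c1 * E := hwim.trans (mul_le_mul_of_nonneg_right hcc1 hE0.le)
    rcases le_total 0 w.re with h | h
    · exact ⟨w, hw, by rwa [abs_of_nonneg h] at hcon, h1⟩
    · refine ⟨-conj w, X_refl hw, ?_, ?_⟩
      · rw [Complex.neg_re, Complex.conj_re]
        rwa [abs_of_nonpos h] at hcon
      · rw [Complex.neg_im, Complex.conj_im, neg_neg]
        exact h1
  have hδ0 : 0 < w0.re := lt_trans (by positivity) hw0re
  have hδ1 : w0.re ≤ 1 := by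
    have h1 := (abs_le.1 ((Y23.G.zd (L := L)).strip (1 / 2 + w0) hw0)).2
    have h2 : (1 / 2 + w0).re = 1 / 2 + w0.re := by simp
    rw [h2] at h1
    linarith
  -- the precision is not trivial
  have hYa : a ≤ 2 * κ * Y := by
    by_contra h1
    rw [not_le] at h1
    have h2 : κ * Y / a ≤ 1 / 2 := by
      rw [div_le_iff₀ ha0]
      linarith
    have h3 := Real.one_sub_le_exp_neg (κ * Y / a)
    linarith
  have hY0 : 0 < Y := by
    by_contra h1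
    rw [not_lt] at h1
    have : 2 * κ * Y ≤ 0 := mul_nonpos_of_nonneg_of_nonpos (by positivity) h1
    linarith
  have hYge1 : 1 ≤ Y := by nlinarith
  have hYY1 : Y1 ≤ Y := by
    have h1 : 2 * κ * Y1 ≤ 2 * κ * Y := by linarith
    exact le_of_mul_le_mul_left h1 (by positivity)
  have hMa : M * a ≤ g0 / 16 * Y := by
    calc M * a ≤ M * (2 * κ * Y) := mul_le_mul_of_nonneg_left hYa hM0.le
      _ = 2 * κ * M * Y := by ring
      _ = _ := by rw [hκM]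
  obtain ⟨e, hee⟩ : ∃ e : ℝ, e = Y / E := ⟨_, rfl⟩
  have heE : e * E = Y := by rw [hee]; field_simp
  have he0 : 0 < e := by rw [hee]; positivity
  have he1 : e ≤ 1 := by rw [hee, div_le_one hE0]; exact hYE
  obtain ⟨ψ, hψ⟩ : ∃ ψ : ℝ, ψ = ψ0 * e := ⟨_, rfl⟩
  have hψ0 : 0 < ψ := by rw [hψ]; positivity
  have hψ1 : ψ < 1 := by
    have : ψ0 * e ≤ ψ0 * 1 := mul_le_mul_of_nonneg_left he1 hψ00.le
    linarith
  have hφ0 : 0 ≤ Real.pi / 2 - ψ := by linarith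
  have hφ1 : Real.pi / 2 - ψ < Real.pi / 2 := by linarith
  have hφ'0 : 0 ≤ Real.pi / 2 - ψ / 2 := by linarith
  have hφ'1 : Real.pi / 2 - ψ / 2 < Real.pi / 2 := by linarith
  have hcos : Real.cos (Real.pi / 2 - ψ) = Real.sin ψ := Real.cos_pi_div_two_sub ψ
  have hcos' : Real.cos (Real.pi / 2 - ψ / 2) = Real.sin (ψ / 2) := Real.cos_pi_div_two_sub _
  have hcos0 : 0 < Real.cos (Real.pi / 2 - ψ) := Real.cos_pos_of_mem_Ioo ⟨by linarith, hφ1⟩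
  have hcos'0 : 0 < Real.cos (Real.pi / 2 - ψ / 2) := Real.cos_pos_of_mem_Ioo ⟨by linarith, hφ'1⟩
  obtain ⟨l, hl⟩ : ∃ l : ℝ, l = -Real.log (Real.cos (Real.pi / 2 - ψ)) := ⟨_, rfl⟩
  obtain ⟨l', hl'⟩ : ∃ l' : ℝ, l' = -Real.log (Real.cos (Real.pi / 2 - ψ / 2)) := ⟨_, rfl⟩
  have hlog4 : Real.log (4 / (ψ0 * e)) ≤ Λ * a := by
    rw [hΛ]
    exact neg_log_le hψ00 hψ01 he0 heE hYge1 ha1 hm hE
  have hl0 : 0 ≤ l := by
    rw [hl]
    have := Real.log_nonpos hcos0.le (Real.cos_le_one _)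
    linarith
  have hlΛ : l ≤ Λ * a := by
    rw [hl, hcos]
    refine (neg_log_sin hψ0 hψ1.le).trans (le_trans ?_ hlog4)
    rw [← hψ]
    exact Real.log_le_log (by positivity) (div_le_div_of_nonneg_right (by norm_num) hψ0.le)
  have hl'Λ : l' ≤ Λ * a := by
    rw [hl', hcos']
    refine (neg_log_sin (by positivity) (by linarith)).trans (le_trans (le_of_eq ?_) hlog4)
    rw [← hψ]
    congr 1
    field_simp
    norm_num
  obtain ⟨k, hk⟩ : ∃ k : ℝ, k = Y23.G.kp (L := L) + Real.log (Real.cos (Real.pi / 2 - ψ)) := ⟨_, rfl⟩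
  have hN := Real.log_nonneg L.raw.hN
  have hk1 : k ≤ 1 + Real.log (2 * Real.pi) := by
    have h1 : Real.log (Real.cos (Real.pi / 2 - ψ)) ≤ 0 := Real.log_nonpos hcos0.le (Real.cos_le_one _)
    have h2 : 0 ≤ Real.log L.N / L.m := div_nonneg hN (Nat.cast_nonneg _)
    have h3 : Y23.G.kp (L := L) = 1 + Real.log (2 * Real.pi) - Real.log L.N / L.m := rfl
    rw [hk, h3]
    linarith
  have hkabs : |k| ≤ kq * a := by
    have h1 : k = Y23.G.kp (L := L) + -l := by rw [hk, hl]; ring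
    rw [h1]
    refine (abs_add_le _ _).trans ?_
    rw [abs_neg, abs_of_nonneg hl0, hkq, add_mul]
    have : |Y23.G.kp (L := L)| * 1 ≤ |Y23.G.kp (L := L)| * a := mul_le_mul_of_nonneg_left ha1 (abs_nonneg _)
    linarith
  have hck : ck L.m k = L.m / 2 * (q * Real.sin ψ) := by
    unfold ck
    rw [hk, show Y23.G.kp (L := L) + Real.log (Real.cos (Real.pi / 2 - ψ)) - 1 =
      (Y23.G.kp (L := L) - 1) + Real.log (Real.cos (Real.pi / 2 - ψ)) by ring, Real.exp_add, Real.exp_log hcos0, hcos, hq]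
  obtain ⟨T, hTd⟩ : ∃ T : ℝ, T = A0 * l := ⟨_, rfl⟩
  have hT0 : 0 ≤ T := by rw [hTd]; positivity
  have hTΛ : T ≤ A0 * Λ * a := by
    rw [hTd, mul_assoc]
    exact mul_le_mul_of_nonneg_left hlΛ hA0
  have hrot1 : ∀ w : ℂ, ‖L.X (1 / 2 + w)‖ * Real.exp (L.m * (Real.pi / 2 - ψ) / 2 * |w.im|) ≤
      Real.exp T * Real.exp (Ek L.m (Y23.G.kp + Real.log (Real.cos (Real.pi / 2 - ψ))) A0 |w.re|) / (1 + w.im ^ 2) := by
    intro w
    have h1 := hrot _ hφ0 hφ1 w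
    have h2 : Real.cos (Real.pi / 2 - ψ) ^ (-A0) = Real.exp T := by
      rw [Real.rpow_def_of_pos hcos0, hTd, hl]
      congr 1
      ring
    rwa [h2] at h1
  obtain ⟨r, hr1, hr2, hz, hlow⟩ := hcir w0 hw0 hδ0
  have hLg1 := Y23.G.one_le_Lg w0.im
  obtain ⟨ℓ, hℓ⟩ : ∃ ℓ : ℝ, ℓ = Real.log (1 / w0.re) := ⟨_, rfl⟩
  have hℓ0 : 0 ≤ ℓ := by rw [hℓ]; exact Real.log_nonneg (by rw [le_div_iff₀ hδ0]; linarith)
  have hℓY : ℓ ≤ κ * Y / a := by
    rw [hℓ, one_div, Real.log_inv]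
    have h1 := Real.log_le_log (Real.exp_pos (-(κ * Y / a))) (by
      have := Real.exp_pos (-(κ * Y / a))
      linarith : Real.exp (-(κ * Y / a)) ≤ w0.re)
    rw [Real.log_exp] at h1
    linarith
  have hC2m : C2' * Y23.G.Lg w0.im * (1 + Real.log (1 / w0.re)) ≤ C2 * Y23.G.Lg w0.im * (1 + Real.log (1 / w0.re)) := by
    rw [← hℓ, hC2]
    have : 0 ≤ Y23.G.Lg w0.im * (1 + ℓ) := by positivity
    nlinarith
  obtain ⟨θ, P, F, hθ, -, hP, hFd, hFb, hFo, hFv, hF1⟩ := zeroFU (L := L) hI hφ0 hT0 hrot1 (fun t u h1 h2 h3 h4 => hQ _ t u h1 h2 h3 h4) hC22 hw0 hδ0 hr1 hr2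
    (fun w hw => (Real.exp_le_exp.2 (neg_le_neg hC2m)).trans (hz w hw))
    (fun z hz' => (Real.exp_le_exp.2 (by linarith)).trans (hlow z hz'))
  rw [← hk] at hFb hFo
  rw [← hℓ] at hP
  -- the size of the constant
  obtain ⟨K, hK⟩ : ∃ K : ℝ, K = Real.exp (Real.log 36 + (Q1 + L.m * |k|) + P) := ⟨_, rfl⟩
  have hLga : Y23.G.Lg w0.im ≤ C4 * a := by rw [hC4]; exact lg_le hc10 hm ha1 hE hw0im
  have hPeq : P = L.m / 2 * (ψ * |w0.im|) + L.m / 4 * (Real.pi / 2 - ψ) + 2 * (C2 * Y23.G.Lg w0.im * (1 + ℓ)) + T := by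
    rw [hP]; ring
  have hP0 : 0 ≤ P := by
    rw [hPeq]
    have h1 : 0 ≤ C2 * Y23.G.Lg w0.im * (1 + ℓ) := by positivity
    have h2 : 0 ≤ L.m / 4 * (Real.pi / 2 - ψ) := mul_nonneg (by positivity) hφ0
    have h3 : 0 ≤ L.m / 2 * (ψ * |w0.im|) := by positivity
    linarith
  have hK1 : 1 ≤ K := by
    rw [hK]
    refine Real.one_le_exp ?_
    have : 0 ≤ L.m * |k| := by positivity
    linarith
  have hKle : K ≤ Real.exp ((L.m / 2 * (ψ0 * c1) + g0 / 8) * Y) := by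
    rw [hK]
    refine Real.exp_le_exp.2 (size_KU (l36 := Real.log 36) (Q1 := Q1) (m := L.m) (k := |k|) (kq := kq) (C2 := C2) (C4 := C4) (T := T) (AΛ := A0 * Λ)
      (γ := |w0.im|) (lg := Y23.G.Lg w0.im) (ℓ := ℓ) (e := e) (E := E) (M := M) (κ := κ)
      hm0 hpi hψ0.le hφ0 hψ heE (abs_nonneg _) hw0im (by linarith) (by linarith) (by linarith) hLga hℓ0 hℓY ha1 hκ0 hY0 hκM hQ1 (by linarith) hkabs hTΛ ?_ hMa hPeq)
    constructor <;> rw [hM] <;> linarith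
  rw [← hK] at hFb hFo
  have hU : B * (1 + a + |k|) ≤ g0 / 16 * Y := by
    have h1 : B * (1 + a + |k|) ≤ B * (2 + kq) * a := by
      have : 1 + a + |k| ≤ (2 + kq) * a := by linarith
      calc B * (1 + a + |k|) ≤ B * ((2 + kq) * a) := mul_le_mul_of_nonneg_left this hB
        _ = _ := by ring
    have h2 : B * (2 + kq) * a ≤ M * a := by
      refine mul_le_mul_of_nonneg_right ?_ ha0.le
      rw [hM]
      linarith
    linarith
  obtain ⟨τ, hτ⟩ : ∃ τ : ℝ, τ = Real.exp (-(g0 / 4 * Y)) := ⟨_, rfl⟩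
  have hτ1 : τ ≤ 1 := by
    rw [hτ]
    exact Real.exp_le_one_iff.2 (by
      have : 0 < g0 / 4 * Y := by positivity
      linarith)
  obtain ⟨A1, hA1⟩ : ∃ A1 : ℝ, A1 = Real.exp (A0 * l') * Real.exp (A0 + A0 * Real.log 2) := ⟨_, rfl⟩
  have hA10 : 0 < A1 := by rw [hA1]; positivity
  have hA1E : A1 ≤ Real.exp (g0 / 16 * Y) := by
    rw [hA1, ← Real.exp_add]
    apply Real.exp_le_exp.2
    refine le_trans ?_ hMa
    have h1 : A0 * l' ≤ A0 * Λ * a := by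
      rw [mul_assoc]
      exact mul_le_mul_of_nonneg_left hl'Λ hA0
    have h2 : A0 + A0 * Real.log 2 ≤ 2 * A0 * a := by
      have h21 : Real.log 2 ≤ 1 := by
        have := Real.log_two_lt_d9
        linarith
      have h22 : A0 * Real.log 2 ≤ A0 * 1 := mul_le_mul_of_nonneg_left h21 hA0
      have h23 : 2 * A0 * 1 ≤ 2 * A0 * a := mul_le_mul_of_nonneg_left ha1 (by positivity)
      linarith
    have h3 : (A0 * Λ + 2 * A0) * a ≤ M * a := by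
      refine mul_le_mul_of_nonneg_right ?_ ha0.le
      rw [hM]
      linarith
    nlinarith
  have hnodes : ∀ j : ℤ, ν < (j.natAbs : ℕ∞) → ‖F (Y23.G.F.nd a j)‖ ≤ τ ∧ 2 * |w0.im| ≤ |(Y23.G.F.nd a j).im| := by
    intro j hj
    obtain ⟨n1, n2⟩ := node_bdU (K := K) (a := a) (e := e) hm0 hψ00 hc10 hg0 hC ha1 hEge1 hY0 heE he0 hν hj hA10 hA1E (zero_le_one.trans hK1) hKle hτ
    rw [← hψ] at n2
    have h3 := hrot _ hφ'0 hφ'1 (Y23.G.F.nd a j)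
    exact nodesU hA10 hψ0.le hcos'0 hl' hA1 hθ hK1 hc10 hEge1 hw0im hFo h3 n1 n2
  have hsin : Real.sin ψ ≤ ψ := Real.sin_le hψ0.le
  have htail : K * Real.exp (B * (1 + a + |k|) - ck L.m k * Real.exp (2 * (a - h) / L.m)) ≤ τ := by
    refine tail_leU (q := q) (e := e) hm0 hg0 hgd hψ00 hc10 hE heE he0 hY0 hh0.le hKle ?_ ?_ hhD hU hτ
    · rw [hck, hψ]
      exact hD e he0 he1
    · rw [hck, ← hψ]
      exact mul_le_mul_of_nonneg_left (mul_le_mul_of_nonneg_left hsin hq0.le) (by positivity)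
  obtain ⟨g, hg', hgN, hgQ⟩ := htst k a w0.im K τ ν F hk1 ha1 (by linarith) hK1 hFd hFb htail hτ1 hnodes hFv ⟨w0, hw0, by rw [hF1]; exact one_ne_zero⟩
  have hp := hpos g hg'
  -- the last inequalities
  have hlast : Real.exp (-(g0 / 8 * Y)) < c0 / 2 := by
    have h1 : |Real.log (c0 / 2)| + 1 ≤ g0 / 8 * Y := by
      have h2 : g0 / 8 * Y1 ≤ g0 / 8 * Y := mul_le_mul_of_nonneg_left hYY1 (by positivity)
      have h3 : g0 / 8 * Y1 = |Real.log (c0 / 2)| + 1 := by rw [hY1]; field_simp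
      linarith
    rw [← Real.lt_log_iff_exp_lt (by positivity)]
    have := neg_abs_le (Real.log (c0 / 2))
    linarith
  have hlast2 : Real.exp (-(Y / 2)) < c0 / 2 := by
    refine lt_of_le_of_lt (Real.exp_le_exp.2 ?_) hlast
    have : g0 * Y ≤ 1 * Y := mul_le_mul_of_nonneg_right hg1 hY0.le
    linarith
  have hγ1 : 1 + |w0.im| ≤ Real.exp (g0 / 16 * Y) := by
    refine (gam1U (M := M) hc10 hm ha1 hE hEge1 hw0im ?_).trans (Real.exp_le_exp.2 hMa)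
    rw [hM]
    linarith
  exact final_ineqU (a := a) (E := E) hg0 hg1 hψc hY0 (Real.exp_le_exp.2 hU) (by linarith) hKle hγ1 hτ hlast2 hlast hgN hgQ hp

end Pool.Agent.Q286.EW
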