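import Pool.Agent.Q286.EW.Stm

set_option autoImplicit false

/-!
# Project EWC: preparations for the theorem
-/

open Filter Topology Metric
open scoped ComplexConjugate

namespace Pool.Agent.Q286.EW

/-- growth of `E` -/
lemma grow {m : ℝ} (hm : 1 ≤ m) (M g : ℝ) (hg : 0 < g) : ∃ A : ℝ, 1 ≤ A ∧ ∀ a, A ≤ a → M * a ^ 2 ≤ g * Real.exp (2 * a / m) := by
  refine ⟨max 1 (|M| * m ^ 3 / g), le_max_left _ _, fun a ha => ?_⟩
  have ha1 : 1 ≤ a := (le_max_left _ _).trans ha
  have ha2 : |M| * m ^ 3 / g ≤ a := (le_max_right _ _).trans ha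
  have hm0 : 0 < m := by linarith
  have h1 : a ^ 3 / m ^ 3 ≤ Real.exp (2 * a / m) := by
    have h2 := Real.pow_div_factorial_le_exp (2 * a / m) (by positivity) 3
    have h3 : (2 * a / m) ^ 3 / (Nat.factorial 3 : ℕ) = 4 / 3 * (a ^ 3 / m ^ 3) := by
      have : Nat.factorial 3 = 6 := rfl
      rw [this]
      push_cast
      ring
    rw [h3] at h2
    have h4 : 0 ≤ a ^ 3 / m ^ 3 := by positivity
    linarith
  rw [div_le_iff₀ hg] at ha2
  calc M * a ^ 2 ≤ |M| * a ^ 2 := by
        have := le_abs_self M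
        nlinarith [sq_nonneg a]
    _ = |M| * m ^ 3 * (a ^ 2 / m ^ 3) := by field_simp
    _ ≤ a * g * (a ^ 2 / m ^ 3) := mul_le_mul_of_nonneg_right ha2 (by positivity)
    _ = g * (a ^ 3 / m ^ 3) := by ring
    _ ≤ _ := mul_le_mul_of_nonneg_left h1 hg.le

lemma Ek_ratio (m k A : ℝ) : ∃ Q : ℝ, 0 ≤ Q ∧ ∀ t u : ℝ, 0 ≤ t → t ≤ 2 → 0 ≤ u → u ≤ 2 → Ek m k A t ≤ Q + Ek m k A u := by
  have hc : ContinuousOn (Ek m k A) (Set.Icc 0 2) := by
    unfold Ek
    refine ContinuousOn.add (ContinuousOn.add continuousOn_const (continuousOn_const.mul ?_)) (continuousOn_const.mul ?_)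
    · refine ContinuousOn.log (by fun_prop) fun t ht => ?_
      have := ht.1
      linarith
    · have h1 : (fun t : ℝ => t * (Real.log t - k)) = fun t : ℝ => t * Real.log t - t * k := by
        funext t; ring
      rw [h1]
      exact (Real.continuous_mul_log.sub (by fun_prop)).continuousOn
  obtain ⟨B, hB⟩ := isCompact_Icc.exists_bound_of_continuousOn hc
  have hB0 : 0 ≤ B := (norm_nonneg _).trans (hB 0 ⟨le_rfl, by norm_num⟩)
  refine ⟨2 * B, by positivity, fun t u ht ht2 hu hu2 => ?_⟩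
  have h1 := hB t ⟨ht, ht2⟩
  have h2 := hB u ⟨hu, hu2⟩
  rw [Real.norm_eq_abs] at h1 h2
  linarith [(abs_le.1 h1).2, (abs_le.1 h2).1]

lemma refl_dist (w w0 : ℂ) : ‖-conj w - w0‖ = ‖w - -conj w0‖ := by
  rw [← RCLike.norm_conj]
  have : conj (-conj w - w0) = -(w - -conj w0) := by
    simp only [map_sub, map_neg, Complex.conj_conj]
    ring
  rw [this, norm_neg]

/-- the interpolating function with its bounds -/
lemma exF (hI : S_Int) {m k A Q : ℝ} (hQ : ∀ t u : ℝ, 0 ≤ t → t ≤ 2 → 0 ≤ u → u ≤ 2 → Ek m k A t ≤ Q + Ek m k A u)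
    {Y : ℂ → ℂ} (hY : Differentiable ℂ Y) (hb : ∀ w, ‖Y w‖ ≤ Real.exp (Ek m k A |w.re|) / (1 + w.im ^ 2))
    (hs : ∀ w, Y w = 0 → Y (-conj w) = 0) {w0 : ℂ} (h0 : Y w0 = 0) (hδ0 : 0 < w0.re) (hδ1 : w0.re ≤ 1) {r η μ : ℝ}
    (hr1 : w0.re / 4 ≤ r) (hr2 : r ≤ w0.re / 2) (hη : 0 < η) (hη1 : η ≤ w0.re / 4)
    (hz : ∀ w, Y w = 0 → η ≤ |‖w - w0‖ - r|) (hμ : 0 < μ) (hl : ∀ z, ‖z - w0‖ = r ∨ ‖z - -conj w0‖ = r → μ ≤ ‖Y z‖) :
    ∃ F : ℂ → ℂ, Differentiable ℂ F ∧ (∀ w, ‖F w‖ ≤ 36 * Real.exp Q / (η * μ) * Real.exp (Ek m k A |w.re|) / (1 + w.im ^ 2)) ∧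
      (∀ w, 1 ≤ |w.im - w0.im| → ‖F w‖ ≤ 4 / (η * μ) * ‖Y w‖) ∧
      (∀ w, Y w = 0 → (F w = 0 ∧ F (-conj w) = 0) ∨ (‖F w‖ = 1 ∧ F (-conj w) = -F w ∧ ‖w - w0.im * Complex.I‖ ≤ 2)) ∧ F w0 = 1 := by
  have hr0 : 0 < r := by linarith
  have hd : ‖w0 - -conj w0‖ = 2 * w0.re := by
    have : w0 - -conj w0 = ((2 * w0.re : ℝ) : ℂ) := by
      rw [sub_neg_eq_add, Complex.add_conj]
    rw [this, Complex.norm_real, Real.norm_of_nonneg (by linarith)]
  have hz2 : ∀ w, Y w = 0 → η ≤ |‖w - -conj w0‖ - r| := fun w hw => by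
    have := hz _ (hs w hw)
    rwa [refl_dist] at this
  obtain ⟨F, hFd, hFv, hFb⟩ := hI Y w0 (-conj w0) r η μ hY hr0 hη (by linarith) hμ (by rw [hd]; linarith)
    (fun w hw => ⟨hz w hw, hz2 w hw⟩) hl
  have hQ0 : 0 ≤ Q := by
    have := hQ 0 0 le_rfl (by norm_num) le_rfl (by norm_num)
    linarith
  have hημ : 0 < η * μ := mul_pos hη hμ
  set b : ℝ := r + η / 2 with hbdef
  have hb0 : 0 < b := by positivity
  have hb1 : b ≤ 5 / 8 * w0.re := by rw [hbdef]; linarith
  -- outside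
  have hout : ∀ w, b ≤ ‖w - w0‖ → b ≤ ‖w - -conj w0‖ → ‖F w‖ ≤ 4 / (η * μ) * ‖Y w‖ := by
    intro w h1 h2
    refine (hFb w h1 h2).trans (mul_le_mul_of_nonneg_right ?_ (norm_nonneg _))
    exact div_le_div_of_nonneg_right (by linarith) hημ.le
  -- inside
  have hin : ∀ c : ℂ, (c = w0 ∨ c = -conj w0) → ∀ w, ‖w - c‖ ≤ b →
      ‖F w‖ ≤ 36 * Real.exp Q / (η * μ) * Real.exp (Ek m k A |w.re|) / (1 + w.im ^ 2) := by
    intro c hc w hw
    have hcre : |c.re| ≤ 1 := by
      rcases hc with rfl | rfl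
      · rw [abs_of_pos hδ0]; exact hδ1
      · rw [Complex.neg_re, Complex.conj_re, abs_neg, abs_of_pos hδ0]; exact hδ1
    have hwc : ∀ z : ℂ, ‖z - c‖ ≤ b → |z.re| ≤ 2 := by
      intro z hz'
      have h1 := (Complex.abs_re_le_norm (z - c)).trans hz'
      rw [Complex.sub_re] at h1
      have h2 := abs_sub_abs_le_abs_sub z.re c.re
      linarith
    refine Complex.norm_le_of_forall_mem_frontier_norm_le (U := ball c b) isBounded_ball hFd.diffContOnCl (fun u hu => ?_) (z := w) ?_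
    · rw [frontier_ball _ hb0.ne', mem_sphere, dist_eq_norm] at hu
      have h1 : b ≤ ‖u - w0‖ ∧ b ≤ ‖u - -conj w0‖ := by
        rcases hc with rfl | rfl
        · refine ⟨hu.ge, ?_⟩
          have h2 : ‖c - -conj c‖ ≤ ‖u - c‖ + ‖u - -conj c‖ := by
            rw [← norm_neg (u - c)]
            have : c - -conj c = -(u - c) + (u - -conj c) := by ring
            rw [this]
            exact norm_add_le _ _
          rw [hd, hu] at h2
          linarith
        · refine ⟨?_, hu.ge⟩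
          have h2 : ‖w0 - -conj w0‖ ≤ ‖u - w0‖ + ‖u - -conj w0‖ := by
            rw [← norm_neg (u - w0)]
            have : w0 - -conj w0 = -(u - w0) + (u - -conj w0) := by ring
            rw [this]
            exact norm_add_le _ _
          rw [hd, hu] at h2
          linarith
      refine (hout u h1.1 h1.2).trans ?_
      have hure := hwc u hu.le
      have hwre := hwc w hw
      have h3 : Real.exp (Ek m k A |u.re|) ≤ Real.exp Q * Real.exp (Ek m k A |w.re|) := by
        rw [← Real.exp_add]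
        exact Real.exp_le_exp.2 (hQ _ _ (abs_nonneg _) hure (abs_nonneg _) hwre)
      have h4 : 1 + w.im ^ 2 ≤ 9 * (1 + u.im ^ 2) := by
        have h5 : ‖w - u‖ ≤ 2 := by
          have : w - u = (w - c) - (u - c) := by ring
          rw [this]
          refine (norm_sub_le _ _).trans ?_
          linarith
        have h6 := (Complex.abs_im_le_norm (w - u)).trans h5
        rw [Complex.sub_im] at h6
        have h7 : (w.im - u.im) ^ 2 ≤ 4 := by
          rw [← sq_abs]
          have := abs_nonneg (w.im - u.im)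
          nlinarith
        nlinarith [sq_nonneg (w.im - 2 * u.im)]
      calc 4 / (η * μ) * ‖Y u‖ ≤ 4 / (η * μ) * (Real.exp (Ek m k A |u.re|) / (1 + u.im ^ 2)) := by
            exact mul_le_mul_of_nonneg_left (hb u) (by positivity)
        _ ≤ 4 / (η * μ) * (Real.exp Q * Real.exp (Ek m k A |w.re|) / (1 + u.im ^ 2)) := by gcongr
        _ ≤ 4 / (η * μ) * (Real.exp Q * Real.exp (Ek m k A |w.re|) * (9 / (1 + w.im ^ 2))) := by
            rw [div_eq_mul_inv (Real.exp Q * Real.exp (Ek m k A |w.re|))]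
            gcongr
            rw [inv_eq_one_div, div_le_div_iff₀ (by positivity) (by positivity)]
            linarith
        _ = _ := by ring
    · rw [closure_ball _ hb0.ne', mem_closedBall, dist_eq_norm]
      exact hw
  refine ⟨F, hFd, fun w => ?_, fun w hw => ?_, fun w hw => ?_, (hFv w0 h0).1 (by rw [sub_self, norm_zero]; exact hr0)⟩
  · by_cases h1 : ‖w - w0‖ ≤ b
    · exact hin w0 (Or.inl rfl) w h1
    · by_cases h2 : ‖w - -conj w0‖ ≤ b
      · exact hin _ (Or.inr rfl) w h2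
      · rw [not_le] at h1 h2
        refine (hout w h1.le h2.le).trans ?_
        have he : 1 ≤ Real.exp Q := Real.one_le_exp hQ0
        have hE := Real.exp_pos (Ek m k A |w.re|)
        calc 4 / (η * μ) * ‖Y w‖ ≤ 4 / (η * μ) * (Real.exp (Ek m k A |w.re|) / (1 + w.im ^ 2)) :=
              mul_le_mul_of_nonneg_left (hb w) (by positivity)
          _ = 4 * 1 / (η * μ) * Real.exp (Ek m k A |w.re|) / (1 + w.im ^ 2) := by ring
          _ ≤ 36 * Real.exp Q / (η * μ) * Real.exp (Ek m k A |w.re|) / (1 + w.im ^ 2) := by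
              gcongr
              norm_num
  · have h1 : |w.im - w0.im| ≤ ‖w - w0‖ := by
      have := Complex.abs_im_le_norm (w - w0)
      rwa [Complex.sub_im] at this
    have h2 : |w.im - w0.im| ≤ ‖w - -conj w0‖ := by
      have := Complex.abs_im_le_norm (w - -conj w0)
      rw [Complex.sub_im, Complex.neg_im, Complex.conj_im, neg_neg] at this
      exact this
    exact hout w (by linarith) (by linarith)
  · have hv := hFv w hw
    have hv2 := hFv _ (hs w hw)
    have e1 : ‖-conj w - w0‖ = ‖w - -conj w0‖ := refl_dist w w0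
    have e2 : ‖-conj w - -conj w0‖ = ‖w - w0‖ := by
      rw [← RCLike.norm_conj (w - w0), map_sub, ← norm_neg (conj w - conj w0)]
      congr 1
      ring
    have ha := hz w hw
    have hb' := hz2 w hw
    have hnorm : ∀ c : ℂ, c.im = w0.im → |c.re| ≤ 1 → ‖w - c‖ < r → ‖w - w0.im * Complex.I‖ ≤ 2 := by
      intro c hc hc2 h
      have h1 : ‖c - w0.im * Complex.I‖ ≤ 1 := by
        have : c - w0.im * Complex.I = (c.re : ℂ) := by
          apply Complex.ext
          · simp
          · simp [hc]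
        rw [this, Complex.norm_real]
        exact hc2
      have : w - w0.im * Complex.I = (w - c) + (c - w0.im * Complex.I) := by ring
      rw [this]
      refine (norm_add_le _ _).trans ?_
      linarith
    rcases lt_trichotomy ‖w - w0‖ r with h1 | h1 | h1
    · right
      have hA := hv.1 h1
      have hB := hv2.2.1 (by rw [e2]; exact h1)
      refine ⟨by rw [hA, norm_one], by rw [hA, hB], ?_⟩
      exact hnorm w0 rfl (by rw [abs_of_pos hδ0]; exact hδ1) h1
    · exfalso
      rw [h1, sub_self, abs_zero] at ha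
      linarith
    · rcases lt_trichotomy ‖w - -conj w0‖ r with h2 | h2 | h2
      · right
        have hA := hv.2.1 h2
        have hB := hv2.1 (by rw [e1]; exact h2)
        refine ⟨by rw [hA, norm_neg, norm_one], by rw [hA, hB, neg_neg], ?_⟩
        exact hnorm (-conj w0) (by simp) (by rw [Complex.neg_re, Complex.conj_re, abs_neg, abs_of_pos hδ0]; exact hδ1) h2
      · exfalso
        rw [h2, sub_self, abs_zero] at hb'
        linarith
      · left
        exact ⟨hv.2.2 h1 h2, hv2.2.2 (by rw [e1]; exact h2) (by rw [e2]; exact h1)⟩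

end Pool.Agent.Q286.EW
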