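import Pool.Agent.Q286.EW.Br

set_option autoImplicit false

/-!
# Project EWC: all conclusions for a form with free conductor and weights
-/

open Filter Topology MeasureTheory Complex
open Pool.Agent.Q240 Pool.Agent.Q240.CD
open Pool.Agent.Q286.TR Pool.Agent.Q286.XG Pool.Agent.Q286.PG

namespace Pool.Agent.Q286.EW

/-- **All conclusions**, for a form `V Q x a f` with conductor `Q` and the weights changed by `x`; `Q0` is the conductor of the L-function, `Z` its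
zeros, `Re s = r` the critical line, `q = 2 π m Q0^(-1/m)`, `h = 2 π Q0^(-1/m)`, `E a = exp (2 a / m)`. -/
structure OutE (V : ℝ → (ℕ → ℂ) → ℝ → (ℝ → ℂ) → ℝ) (Q0 : ℝ) (Z : ℂ → Prop) (r : ℝ) (c : ℂ) (E : ℝ → ℝ) (q h : ℝ) : Prop where
  eff : ∀ b b' : ℝ, b < q → b' < h → ∃ C κ : ℝ, 0 < C ∧ 0 < κ ∧
    (∀ k : ℕ, ∃ K A : ℝ, 0 < K ∧ ∀ (a : ℝ) (ν : ℕ∞), A ≤ a → LgX (C * a * E a) ν → ∀ (Q : ℝ) (x : ℕ → ℂ), 0 < Q →
      (∀ n, k < n → x n = 0) → (∀ f, Deg c a ν f → 0 ≤ V Q x a f) →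
        Real.log (Q0 / Q) ≤ Real.exp (-(b * E a)) ∧
        (∀ n, 2 ≤ n → n ≤ k → ‖x n‖ ≤ K * max 0 (Real.log (Q / Q0)) + Real.exp (-(b * E a))) ∧
        ∀ Y : ℝ, Y ≤ E a → Real.log (Q / Q0) ≤ Real.exp (-Y) → ∀ s, Z s → |s.im| ≤ b' * E a →
          |s.re - r| ≤ 2 * Real.exp (-(κ * Y / a))) ∧
    ∀ P : Finset ℕ, (∀ p ∈ P, 2 ≤ p) → ∀ (d : ℕ) (ρ : ℝ), ρ < 1 → ∃ K A : ℝ, 0 < K ∧
      ∀ (a : ℝ) (ν : ℕ∞), A ≤ a → LgX (C * a * E a) ν → ∀ (Q : ℝ) (x : ℕ → ℂ) (α β : ℕ → Fin d → ℂ), 0 < Q →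
      (∀ p ∈ P, ∀ j, ‖α p j‖ ≤ ρ ∧ ‖β p j‖ ≤ ρ) → (∀ n, 2 ≤ n → (∀ p ∈ P, ∀ k, n ≠ p ^ k) → x n = 0) →
      (∀ p ∈ P, ∀ k, 1 ≤ k → x (p ^ k) = Real.log p * (∑ j, β p j ^ k - ∑ j, α p j ^ k)) →
      (∀ f, Deg c a ν f → 0 ≤ V Q x a f) →
        Real.log (Q0 / Q) ≤ Real.exp (-(b * E a)) ∧
        (∀ p ∈ P, ∀ k, 1 ≤ k → ‖x (p ^ k)‖ ≤ K * max 0 (Real.log (Q / Q0)) + Real.exp (-(b * E a))) ∧
        ∀ Y : ℝ, Y ≤ E a → Real.log (Q / Q0) ≤ Real.exp (-Y) → ∀ s, Z s → |s.im| ≤ b' * E a →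
          |s.re - r| ≤ 2 * Real.exp (-(κ * Y / a))

lemma sum_le_card {T S : Finset ℕ} {x : ℕ → ℂ} {B : ℝ} (hB : 0 ≤ B) (hS : ∀ n ∈ T, x n ≠ 0 → n ∈ S)
    (hb : ∀ n ∈ T, n ∈ S → ‖x n‖ ≤ B) : ∑ n ∈ T, ‖x n‖ ≤ S.card * B := by
  classical
  calc ∑ n ∈ T, ‖x n‖ = ∑ n ∈ T.filter (fun n => x n ≠ 0), ‖x n‖ := by
        rw [Finset.sum_filter]
        refine Finset.sum_congr rfl fun n _ => ?_
        by_cases h : x n = 0
        · simp [h]
        · rw [if_pos h]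
    _ ≤ ∑ n ∈ T.filter (fun n => x n ≠ 0), B := Finset.sum_le_sum fun n hn => by
        rw [Finset.mem_filter] at hn
        exact hb n hn.1 (hS n hn.1 hn.2)
    _ = (T.filter (fun n => x n ≠ 0)).card * B := by rw [Finset.sum_const, nsmul_eq_mul]
    _ ≤ S.card * B := by
        refine mul_le_mul_of_nonneg_right ?_ hB
        exact_mod_cast Finset.card_le_card fun n hn => by
          rw [Finset.mem_filter] at hn
          exact hS n hn.1 hn.2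

lemma pow_le_floor {p k : ℕ} {a : ℝ} (ha : 0 ≤ a) (hp : 2 ≤ p) (h : p ^ k ≤ ⌊Real.exp (2 * a)⌋₊) : (k : ℝ) ≤ 3 * a := by
  have h1 : ((p ^ k : ℕ) : ℝ) ≤ Real.exp (2 * a) := (Nat.le_floor_iff (Real.exp_pos _).le).1 h
  have h2 : (2 : ℝ) ^ k ≤ Real.exp (2 * a) := by
    refine le_trans ?_ h1
    push_cast
    exact pow_le_pow_left₀ two_pos.le (by exact_mod_cast hp) k
  have h3 := Real.log_le_log (by positivity) h2
  rw [Real.log_pow, Real.log_exp] at h3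
  have h4 := Real.log_two_gt_d9
  by_contra h5
  rw [not_le] at h5
  have h6 : (0 : ℝ) ≤ k := Nat.cast_nonneg k
  nlinarith

section

variable {L : LFunction}

theorem outE (hE : S_EffU) (J : JP) (PW : S_Pow) {V : ℝ → (ℕ → ℂ) → ℝ → (ℝ → ℂ) → ℝ} {Q0 : ℝ} {Z : ℂ → Prop} {R : Prop} {r : ℝ} {c : ℂ}
    (hLQ : L.Q = Q0) (hR : R ↔ GRH L) (hZ : ∀ s, Z s → ∃ s', L.Λ s' = 0 ∧ s'.im = s.im ∧ s'.re - 1 / 2 = s.re - r)
    (hV : ∀ (Q : ℝ) (x : ℕ → ℂ) (a : ℝ) (f : ℝ → ℂ), 0 < Q → 0 < a → Y23.G.Hd a f →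
      V Q x a f = Vx L (Real.log (Q0 / Q)) x a f) :
    OutE V Q0 Z r c (EE L) (qq L) (hh L) := by
  have hP := PG.outP (L := L) J PW (c := c) hLQ hR hV
  have hQ0 : 0 < Q0 := by rw [← hLQ]; exact lt_of_lt_of_le one_pos L.one_le_Q
  have hq0 : 0 < qq L := by
    rw [← qq_eq]
    have := Y23.G.cc_pos (L := toL L)
    linarith
  have hp' : ∀ {Q : ℝ} {x : ℕ → ℂ} {a : ℝ} {ν : ℕ∞}, 0 < Q → 0 < a → (∀ f, Deg c a ν f → 0 ≤ V Q x a f) →
      ∀ f, Deg c a ν f → 0 ≤ Vx L (Real.log (Q0 / Q)) x a f := by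
    intro Q l a ν hQ ha h f hf
    rw [← hV Q l a f hQ ha (deg_hn ha hf).hd]
    exact h f hf
  have hneg : ∀ {Q : ℝ}, 0 < Q → -Real.log (Q0 / Q) = Real.log (Q / Q0) := by
    intro Q hQ
    rw [← Real.log_inv, inv_div]
  have hE1 : ∀ {a : ℝ}, 0 < EE L a := fun {a} => Real.exp_pos _
  refine ⟨fun b b' hb hb' => ?_⟩
  obtain ⟨b0, hb0⟩ : ∃ b0 : ℝ, b0 = min 1 (qq L / 2) := ⟨_, rfl⟩
  have hb00 : 0 < b0 := by rw [hb0]; exact lt_min one_pos (by linarith)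
  have hb01 : b0 ≤ 1 := by rw [hb0]; exact min_le_left _ _
  have hb0q : b0 < qq L := by rw [hb0]; exact lt_of_le_of_lt (min_le_right _ _) (by linarith)
  obtain ⟨C1, hC1, hr1, hr2⟩ := hP.rig (max b b0) (max_lt hb hb0q)
  obtain ⟨C2, κ, hC2, hκ, hS⟩ := effS (L := L) hE J.par c hb'
  -- bounds with `b` from bounds with `max b b0`
  have hexp : ∀ {a : ℝ}, Real.exp (-(max b b0 * EE L a)) ≤ Real.exp (-(b * EE L a)) := by
    intro a
    have := hE1 (a := a)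
    exact Real.exp_le_exp.2 (neg_le_neg (mul_le_mul_of_nonneg_right (le_max_left _ _) this.le))
  have hexp0 : ∀ {a Y : ℝ}, Y ≤ EE L a → Real.exp (-(max b b0 * EE L a)) ≤ Real.exp (-(b0 * Y)) := by
    intro a Y hY
    have := hE1 (a := a)
    refine Real.exp_le_exp.2 (neg_le_neg ?_)
    calc b0 * Y ≤ b0 * EE L a := mul_le_mul_of_nonneg_left hY hb00.le
      _ ≤ max b b0 * EE L a := mul_le_mul_of_nonneg_right (le_max_right _ _) this.le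
  have hmono1 : ∀ {a : ℝ} {ν : ℕ∞}, 0 < a → LgX (max C1 C2 * a * EE L a) ν → LgX (C1 * a * EE L a) ν := by
    intro a ν ha h
    refine lgX_mono ?_ h
    have h3 := le_max_left C1 C2
    have h4 := hE1 (a := a)
    gcongr
  have hmono2 : ∀ {a : ℝ} {ν : ℕ∞}, 0 < a → LgX (max C1 C2 * a * EE L a) ν → LgX (C2 * a * EE L a) ν := by
    intro a ν ha h
    refine lgX_mono ?_ h
    have h3 := le_max_right C1 C2
    have h4 := hE1 (a := a)
    gcongr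
  -- the zeros
  have hz : ∀ S : ℝ, 0 ≤ S → ∃ A : ℝ, ∀ (a : ℝ) (ν : ℕ∞), A ≤ a → 0 < a → LgX (max C1 C2 * a * EE L a) ν → ∀ (Q : ℝ) (x : ℕ → ℂ), 0 < Q →
      (∀ B : ℝ, 0 ≤ B → (∀ Y : ℝ, 0 ≤ Y → Y ≤ EE L a → Real.log (Q / Q0) ≤ Real.exp (-Y) →
        ∑ n ∈ Finset.Icc 2 ⌊Real.exp (2 * a)⌋₊, ‖x n‖ ≤ S * a * Real.exp (-(b0 * Y)))) →
      (∀ f, Deg c a ν f → 0 ≤ V Q x a f) → ∀ Y : ℝ, Y ≤ EE L a → Real.log (Q / Q0) ≤ Real.exp (-Y) →
        ∀ s, Z s → |s.im| ≤ b' * EE L a → |s.re - r| ≤ 2 * Real.exp (-(κ * b0 * Y / a)) := by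
    intro S hS0
    obtain ⟨A, hA⟩ := hS b0 S hb00 hb01 hS0
    refine ⟨A, fun a ν ha ha0 hν Q x hQ hx hp Y hY hlog s hs him => ?_⟩
    obtain ⟨s', hs1, hs2, hs3⟩ := hZ s hs
    rw [← hs3]
    rcases lt_or_ge Y 0 with hY0 | hY0
    · refine (strip hs1).trans ?_
      have : 0 ≤ -(κ * b0 * Y / a) := by
        rw [← neg_div, ← mul_neg]
        have : 0 < -Y := by linarith
        positivity
      have := Real.one_le_exp this
      linarith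
    · refine hA a Y ν ha hY (hmono2 ha0 hν) (Real.log (Q0 / Q)) x (hx 0 le_rfl Y hY0 hY hlog) ?_ (hp' hQ ha0 hp) s' hs1 (by rw [hs2]; exact him)
      have h1 := hneg hQ
      have h2 : Real.exp (-Y) ≤ Real.exp (-(b0 * Y)) := Real.exp_le_exp.2 (by nlinarith)
      linarith
  -- the bound of one weight
  have hone : ∀ {K a Y Q : ℝ}, 0 < K → 0 ≤ Y → Y ≤ EE L a → Real.log (Q / Q0) ≤ Real.exp (-Y) →
      K * max 0 (Real.log (Q / Q0)) + Real.exp (-(max b b0 * EE L a)) ≤ (K + 1) * Real.exp (-(b0 * Y)) := by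
    intro K a Y Q hK hY0 hY hlog
    have h2 : Real.exp (-Y) ≤ Real.exp (-(b0 * Y)) := Real.exp_le_exp.2 (by nlinarith)
    have h3 : max 0 (Real.log (Q / Q0)) ≤ Real.exp (-(b0 * Y)) := max_le (Real.exp_pos _).le (hlog.trans h2)
    have h4 := mul_le_mul_of_nonneg_left h3 hK.le
    have h5 := hexp0 hY
    linarith
  refine ⟨max C1 C2, κ * b0, lt_max_of_lt_left hC1, by positivity, fun k => ?_, fun P hP d ρ hρ => ?_⟩
  · obtain ⟨K, A, hK, h1⟩ := hr1 k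
    obtain ⟨A', h2⟩ := hz (k * (K + 1)) (by positivity)
    refine ⟨K, max (max A A') 1, hK, fun a ν ha hν Q x hQ hx hp => ?_⟩
    have ha1 : 1 ≤ a := (le_max_right _ _).trans ha
    have ha0 : 0 < a := by linarith
    obtain ⟨h4, h5⟩ := h1 a ν ((le_max_left _ _).trans ((le_max_left _ _).trans ha)) (hmono1 ha0 hν) Q x hQ hx hp
    refine ⟨h4.trans hexp, fun n hn hnk => (h5 n hn hnk).trans (by linarith [hexp (a := a)]), ?_⟩
    refine h2 a ν ((le_max_right _ _).trans ((le_max_left _ _).trans ha)) ha0 hν Q x hQ (fun _ _ Y hY0 hY hlog => ?_) hp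
    have h6 : ∑ n ∈ Finset.Icc 2 ⌊Real.exp (2 * a)⌋₊, ‖x n‖ ≤ ((Finset.Icc 1 k).card : ℝ) * ((K + 1) * Real.exp (-(b0 * Y))) := by
      refine sum_le_card (by positivity) (fun n hn hx0 => ?_) fun n hn hnS => ?_
      · rw [Finset.mem_Icc] at hn ⊢
        refine ⟨by omega, ?_⟩
        by_contra h7
        exact hx0 (hx n (by omega))
      · exact (h5 n (Finset.mem_Icc.1 hn).1 (Finset.mem_Icc.1 hnS).2).trans (hone hK hY0 hY hlog)
    rw [Nat.card_Icc, Nat.add_sub_cancel] at h6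
    refine h6.trans ?_
    have h7 : 0 ≤ (k : ℝ) * ((K + 1) * Real.exp (-(b0 * Y))) := by positivity
    nlinarith
  · obtain ⟨K, A, hK, h1⟩ := hr2 P hP d ρ hρ
    obtain ⟨A', h2⟩ := hz (3 * P.card * (K + 1)) (by positivity)
    refine ⟨K, max (max A A') 1, hK, fun a ν ha hν Q x α β hQ hαβ hx0 hx hp => ?_⟩
    have ha1 : 1 ≤ a := (le_max_right _ _).trans ha
    have ha0 : 0 < a := by linarith
    obtain ⟨h4, h5⟩ := h1 a ν ((le_max_left _ _).trans ((le_max_left _ _).trans ha)) (hmono1 ha0 hν) Q x α β hQ hαβ hx0 hx hp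
    refine ⟨h4.trans hexp, fun p hp' k hk => (h5 p hp' k hk).trans (by linarith [hexp (a := a)]), ?_⟩
    refine h2 a ν ((le_max_right _ _).trans ((le_max_left _ _).trans ha)) ha0 hν Q x hQ (fun _ _ Y hY0 hY hlog => ?_) hp
    classical
    set S : Finset ℕ := (P ×ˢ Finset.Icc 1 ⌊3 * a⌋₊).image fun z => z.1 ^ z.2 with hSdef
    have h6 : ∑ n ∈ Finset.Icc 2 ⌊Real.exp (2 * a)⌋₊, ‖x n‖ ≤ (S.card : ℝ) * ((K + 1) * Real.exp (-(b0 * Y))) := by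
      refine sum_le_card (by positivity) (fun n hn hxn => ?_) fun n hn hnS => ?_
      · rw [Finset.mem_Icc] at hn
        by_cases hn2 : ∀ p ∈ P, ∀ k, n ≠ p ^ k
        · exact absurd (hx0 n hn.1 hn2) hxn
        · push Not at hn2
          obtain ⟨p, hpP, k, rfl⟩ := hn2
          rw [hSdef, Finset.mem_image]
          refine ⟨(p, k), ?_, rfl⟩
          rw [Finset.mem_product, Finset.mem_Icc]
          refine ⟨hpP, ?_, Nat.le_floor (pow_le_floor ha0.le (hP p hpP) hn.2)⟩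
          rcases Nat.eq_zero_or_pos k with h7 | h7
          · rw [h7, pow_zero] at hn
            omega
          · exact h7
      · rw [hSdef, Finset.mem_image] at hnS
        obtain ⟨⟨p, k⟩, hpk, rfl⟩ := hnS
        rw [Finset.mem_product, Finset.mem_Icc] at hpk
        exact (h5 p hpk.1 k hpk.2.1).trans (hone hK hY0 hY hlog)
    have h7 : (S.card : ℝ) ≤ 3 * P.card * a := by
      have h8 : S.card ≤ P.card * ⌊3 * a⌋₊ := by
        refine Finset.card_image_le.trans ?_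
        rw [Finset.card_product, Nat.card_Icc, Nat.add_sub_cancel]
      have h9 : ((⌊3 * a⌋₊ : ℕ) : ℝ) ≤ 3 * a := Nat.floor_le (by positivity)
      calc (S.card : ℝ) ≤ ((P.card * ⌊3 * a⌋₊ : ℕ) : ℝ) := by exact_mod_cast h8
        _ = (P.card : ℝ) * ((⌊3 * a⌋₊ : ℕ) : ℝ) := by push_cast; ring
        _ ≤ (P.card : ℝ) * (3 * a) := mul_le_mul_of_nonneg_left h9 (Nat.cast_nonneg _)
        _ = _ := by ring
    calc ∑ n ∈ Finset.Icc 2 ⌊Real.exp (2 * a)⌋₊, ‖x n‖ ≤ (S.card : ℝ) * ((K + 1) * Real.exp (-(b0 * Y))) := h6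
      _ ≤ 3 * P.card * a * ((K + 1) * Real.exp (-(b0 * Y))) := mul_le_mul_of_nonneg_right h7 (by positivity)
      _ = _ := by ring

end

end Pool.Agent.Q286.EW
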