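import Pool.Agent.Q286.EW.Out

set_option autoImplicit false

/-!
# Project EWC: Euler factors with a constant
-/

open Filter Topology MeasureTheory Complex
open Pool.Agent.Q240 Pool.Agent.Q240.CD
open Pool.Agent.Q286.TR Pool.Agent.Q286.XG Pool.Agent.Q286.PG

namespace Pool.Agent.Q286.EW

/-- the Euler factors, with a constant -/
theorem OutE.eul {V : ℝ → (ℕ → ℂ) → ℝ → (ℝ → ℂ) → ℝ} {Q0 : ℝ} {Z : ℂ → Prop} {r : ℝ} {c : ℂ} {E : ℝ → ℝ} {q h : ℝ}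
    (H : OutE V Q0 Z r c E q h) (hE : Tendsto E atTop atTop) (hE0 : ∀ a, 0 < E a) {b b' : ℝ} (hb : b < q) (hb' : b' < h) :
    ∃ C κ : ℝ, 0 < C ∧ 0 < κ ∧
    (∀ k : ℕ, ∃ K A : ℝ, 0 < K ∧ ∀ (a : ℝ) (ν : ℕ∞), A ≤ a → LgX (C * a * E a) ν → ∀ (Q : ℝ) (x : ℕ → ℂ), 0 < Q →
      (∀ n, k < n → x n = 0) → (∀ f, Deg c a ν f → 0 ≤ V Q x a f) →
        Real.log (Q0 / Q) ≤ Real.exp (-(b * E a)) ∧
        (∀ n, 2 ≤ n → n ≤ k → ‖x n‖ ≤ K * max 0 (Real.log (Q / Q0)) + Real.exp (-(b * E a))) ∧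
        ∀ Y : ℝ, Y ≤ E a → Real.log (Q / Q0) ≤ Real.exp (-Y) → ∀ s, Z s → |s.im| ≤ b' * E a →
          |s.re - r| ≤ 2 * Real.exp (-(κ * Y / a))) ∧
    ∀ P : Finset ℕ, (∀ p ∈ P, 2 ≤ p) → ∀ (d : ℕ) (ρ : ℝ), ρ < 1 → ∀ T : ℝ, 0 ≤ T → ∃ K A : ℝ, 0 < K ∧
      ∀ (a : ℝ) (ν : ℕ∞), A ≤ a → LgX (C * a * E a) ν → ∀ (Q : ℝ) (x : ℕ → ℂ) (α β : ℕ → Fin d → ℂ), 0 < Q →
      (∀ p ∈ P, ∀ j, ‖α p j‖ ≤ ρ ∧ ‖β p j‖ ≤ ρ) → (∀ n, 2 ≤ n → (∀ p ∈ P, ∀ k, n ≠ p ^ k) → x n = 0) →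
      (∀ p ∈ P, ∀ k, 1 ≤ k → x (p ^ k) = Real.log p * (∑ j, β p j ^ k - ∑ j, α p j ^ k)) →
      (∀ f, Deg c a ν f → 0 ≤ V Q x a f) →
        Real.log (Q0 / Q) ≤ Real.exp (-(b * E a)) ∧
        (∀ p ∈ P, ∀ k, 1 ≤ k → T * ‖x (p ^ k)‖ ≤ K * max 0 (Real.log (Q / Q0)) + Real.exp (-(b * E a))) ∧
        ∀ Y : ℝ, Y ≤ E a → Real.log (Q / Q0) ≤ Real.exp (-Y) → ∀ s, Z s → |s.im| ≤ b' * E a →
          |s.re - r| ≤ 2 * Real.exp (-(κ * Y / a)) := by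
  obtain ⟨b1, hb1⟩ : ∃ b1 : ℝ, b1 = (b + q) / 2 := ⟨_, rfl⟩
  have hbb1 : b < b1 := by rw [hb1]; linarith
  obtain ⟨C, κ, hC, hκ, h0, h1⟩ := H.eff b1 b' (by rw [hb1]; linarith) hb'
  have hmon : ∀ a : ℝ, Real.exp (-(b1 * E a)) ≤ Real.exp (-(b * E a)) := fun a =>
    Real.exp_le_exp.2 (by have := hE0 a; nlinarith)
  refine ⟨C, κ, hC, hκ, fun k => ?_, fun P hP d ρ hρ T hT => ?_⟩
  · obtain ⟨K, A, hK, h2⟩ := h0 k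
    refine ⟨K, A, hK, fun a ν ha hν Q x hQ hx hp => ?_⟩
    obtain ⟨h3, h4, h5⟩ := h2 a ν ha hν Q x hQ hx hp
    exact ⟨h3.trans (hmon a), fun n hn hnk => (h4 n hn hnk).trans (by linarith [hmon a]), h5⟩
  · obtain ⟨K, A, hK, h2⟩ := h1 P hP d ρ hρ
    obtain ⟨A2, hA2⟩ := eventually_atTop.1 (absorb (q := T + 1) (by linarith) hbb1 hE)
    refine ⟨(T + 1) * K, max A A2, by positivity, fun a ν ha hν Q x α β hQ hαβ hx0 hx hp => ?_⟩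
    obtain ⟨h3, h4, h6⟩ := h2 a ν ((le_max_left _ _).trans ha) hν Q x α β hQ hαβ hx0 hx hp
    have h5 := hA2 a ((le_max_right _ _).trans ha)
    refine ⟨h3.trans (hmon a), fun p hp k hk => ?_, h6⟩
    have h6 := h4 p hp k hk
    calc T * ‖x (p ^ k)‖ ≤ (T + 1) * ‖x (p ^ k)‖ := by gcongr; linarith
      _ ≤ (T + 1) * (K * max 0 (Real.log (Q / Q0)) + Real.exp (-(b1 * E a))) := by gcongr
      _ = (T + 1) * K * max 0 (Real.log (Q / Q0)) + (T + 1) * Real.exp (-(b1 * E a)) := by ring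
      _ ≤ _ := by linarith

end Pool.Agent.Q286.EW
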