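import Pool.Agent.Y23.G.Ts5
import Pool.Agent.Y23.F.Pr

set_option autoImplicit false
set_option linter.unusedVariables false

/-!
# Project EWC (effective Weil criterion): statements of the lemma jobs

THEOREM. Let `L` be an L-function of degree `m` and conductor `N`, `E = exp (2 a / m)`. If Weil's form is at least `- exp (- ε E) ∫ |f|²` on `[-a, a]` then all the zeros with `|Im| ≤ c E`
(`c < 2 π N^(-1/m)`) are at distance at most `exp (- κ E / a)` from the critical line.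
Every statement is a `def S_xxx : Prop`; prove `theorem xxx : S_xxx` in a file of your own (other statements may be used as hypotheses `h1 : S_yyy`).
For an `L : Y23.G.LFun` (degree `L.m`, conductor `L.N`, completed function `L.X`, zero data `Y23.G.zd`); `Y23.G.kp = 1 + log (2 π) - log N / m`, `exp (kp - 1) = 2 π N^(-1/m)`.
-/

open Filter Topology Finset MeasureTheory

namespace Pool.Agent.Q286.EW

/-- the exponent: `Y23.G.Ex` with parameters `m`, `k` (`k` for `Y23.G.kp`) -/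
noncomputable def Ek (m k A σ : ℝ) : ℝ := A + A * Real.log (2 + σ) + m / 2 * (σ * (Real.log σ - k))

/-- the decay constant: `Y23.G.cc` with parameters `m`, `k` -/
noncomputable def ck (m k : ℝ) : ℝ := m / 2 * Real.exp (k - 1)

/-- **CUT** (job EW-CUT): `Y23.G.cut` (`Y23/G/Ts4.lean`, and `dbl`, `opt`, `inv_tr` of `Y23/G/Ts3.lean`) with parameters `m`, `k` in place of `L.m`, `kp`, with constants which do not depend on `H`, `K`, and with the bound of `f`.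
Proof. Copy these proofs (`Ex`, `cc`, `L.m` become `Ek m k`, `ck m k`, `m`; in `opt` `σ = exp (k - 1) exp (2 |x| / m)`, `exp (k - 1) ≤ 2 π ≤ 7`); the constants there are already of this form: `C = K * C0 * π` with `C0` from `dbl`. The bound:
`‖φ x‖ ≤ K exp (4 A (1 + |x|) - ck exp (2 |x| / m)) ≤ C K`. -/
def S_Cut : Prop := ∀ (m k A R : ℝ), 1 ≤ m → k ≤ 1 + Real.log (2 * Real.pi) → 0 ≤ A → 0 ≤ R → ∃ B C : ℝ, 0 ≤ B ∧ 0 < C ∧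
  ∀ (K : ℝ) (H : ℂ → ℂ), 0 < K → Differentiable ℂ H → (∀ w, ‖H w‖ ≤ K * Real.exp (Ek m k A |w.re|) / (1 + w.im ^ 2)) →
    ∀ b : ℝ, 0 ≤ b → ∃ f : ℝ → ℂ, Y23.Fa b f ∧ (∀ x, ‖f x‖ ≤ C * K) ∧
      ∀ w : ℂ, |w.re| ≤ R → ‖Y23.TT f w - H w‖ ≤ K * (C * Real.exp (B * (1 + b) - ck m k * Real.exp (2 * b / m)))

/-- **GAM** (job EW-ROT, first part): rotated bound of the Gamma function.
Proof. `∫_0^∞ t^(z-1) exp (- u t) dt = u^(-z) Γ(z)` with `u = exp (± i φ)` (`Complex.integral_cpow_mul_exp_neg_mul_Ioi`), absolute values; the sign such that `|u^(-z)| = exp (φ |Im z|)`. -/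
def S_Gam : Prop := ∀ (z : ℂ) (φ : ℝ), 0 < z.re → 0 ≤ φ → φ < Real.pi / 2 →
  ‖Complex.Gamma z‖ ≤ Real.exp (-(φ * |z.im|)) * (Real.Gamma z.re * Real.cos φ ^ (-z.re))

/-- **ROT** (job EW-ROT): the completed L-function with the rotation: `Y23.G.X_all` (`Y23/G/Ts2.lean`) with the factor `exp (m φ / 2 |Im w|)`, `k = kp + log cos φ`.
Proof. Copy `Gamma_dec`, `gam_fac`, `X_right` (`Y23/G/Ts1.lean`) and `X_all` (`Ts2.lean`) with `S_Gam` in place of `W820.TW.norm_Gamma_le`. (`|Im ((s + a_j) / 2)| ≥ |Im s| / 2 - C`; `cos φ ^ (- (σ / 2 + C))`, `m` factors: this is the change of `k`.) In the strip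
`|Re w| ≤ 2` use Phragmén and Lindelöf (as in `X_all`) for `L.X (1/2 + w) exp (± i m φ / 2 w) (w - 10)²`, both signs. -/
def S_Rot : Prop := ∀ [L : Y23.G.LFun] (φ : ℝ), 0 ≤ φ → φ < Real.pi / 2 → ∃ A : ℝ, 0 ≤ A ∧ ∀ w : ℂ,
  ‖L.X (1 / 2 + w)‖ * Real.exp (L.m * φ / 2 * |w.im|) ≤ Real.exp (Ek L.m (Y23.G.kp + Real.log (Real.cos φ)) A |w.re|) / (1 + w.im ^ 2)

/-- **MIN** (job EW-MIN): minimum modulus.
Proof. Let `w_j` be the zeros in the closed ball of radius `2 R` about `z0`, with multiplicity, `n' ≤ n` in number; `f = g ∏ (w - w_j)`, `g` entire, without zeros in this ball (divide successively, or `Y23.G.factor_zero` style). On `‖w - z0‖ = 4 R`: `‖g w‖ ≤ M ‖f z0‖ (2 R)^(-n')`, so this holds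
in the ball (maximum principle); `‖g z0‖ ≥ ‖f z0‖ (2 R)^(-n')`. `h = log (g / g z0)` in the open ball of radius `2 R` (a nonvanishing function on a ball has a logarithm), `h z0 = 0`, `Re h ≤ log M`; Borel and Carathéodory (`Complex.borelCaratheodory_zero`): `‖h z‖ ≤ 2 log M` for `‖z - z0‖ ≤ R`
(for `M = 1` take `M + δ`, `δ → 0`, or note that `g` is constant). So `‖g z‖ ≥ ‖g z0‖ M⁻²`, and `∏ ‖z - w_j‖ ≥ η^n'`, `η ≤ 2 R`. -/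
def S_Min : Prop := ∀ (f : ℂ → ℂ) (z0 z : ℂ) (R M η : ℝ) (n : ℕ), Differentiable ℂ f → 0 < R → 1 ≤ M → 0 < η → η ≤ R → f z0 ≠ 0 →
  (∀ w, ‖w - z0‖ ≤ 4 * R → ‖f w‖ ≤ M * ‖f z0‖) →
  (∀ S : Finset ℂ, (∀ s ∈ S, f s = 0 ∧ ‖s - z0‖ ≤ 2 * R) → ∑ s ∈ S, analyticOrderNatAt f s ≤ n) →
  ‖z - z0‖ ≤ R → (∀ w, f w = 0 → η ≤ ‖z - w‖) → ‖f z0‖ * (M ^ 2)⁻¹ * (η / (2 * R)) ^ n ≤ ‖f z‖

/-- **CTR** (job EW-CTR): lower bound on a line to the right.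
Proof. `L.raw.eq'` (or `L.raw.eq`): for large real part `X s = (s (s - 1))^r N^(s/2) ∏ Γ_ℝ (s + a_j) LSeries b s`, and `|LSeries b s| ≥ 1/2` (`b 1 = 1`, absolute convergence, dominated convergence; cf. `Y23.G.X_ne`, or as `LSeries b (σ) → b 1`). Gamma function, `x > 0` fixed: `|Γ(x + i y)| ≥ c exp (- (π/2 + ε) |y|)`:
`Γ(z) Γ(1 - z) = π / sin (π z)`, `|sin (π z)| ≤ exp (π |y|)`, and `|Γ(1 - z)| = |Γ(n + 1 - z)| / |(1 - z) ... (n - z)|` with `n > x`, `|Γ(n + 1 - z)| ≤ C exp (- φ |y|)`, `φ = π/2 - ε` (`S_Gam`), and the factors `|j - z| ≥ |y|` (for `|y| ≥ 1`; for `|y| ≤ 1` by compactness, or take `x` not an integer). -/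
def S_Ctr : Prop := ∀ [L : Y23.G.LFun], ∃ σ : ℝ, 2 ≤ σ ∧ ∀ ε : ℝ, 0 < ε → ∃ c : ℝ, 0 < c ∧ ∀ t : ℝ,
  c * Real.exp (-((L.m * Real.pi / 4 + ε) * |t|)) ≤ ‖L.X (1 / 2 + σ + t * Complex.I)‖

/-- **LOW** (job EW-LOW): lower bound of the completed L-function near the critical line outside of the zeros. Uses `S_Min`, `S_Ctr`, `S_Rot`.
Proof. `S_Min` for `f w = L.X (1/2 + w)`, `z0 = σ + i Im z` (`σ` from `S_Ctr`), `R = σ + 2`, `n = ⌊C Lg (Im z)⌋` (`Y23.G.X_cnt`, for the windows `|Im s - t - j| ≤ 1`, `|j| ≤ 2 R + 1`), `M = exp (ε' |Im z| + C)`: upper bound `C exp (- (m π / 4 - ε'/2) |Im w|)` in the ball of radius `4 R` from `S_Rot` with `φ` close to `π / 2`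
(`|Re w| ≤ 5 R`: `Ek` is bounded there), lower bound at `z0` from `S_Ctr`; `ε'` small compared with `ε`. -/
def S_Low : Prop := ∀ [L : Y23.G.LFun] (ε : ℝ), 0 < ε → ∃ C : ℝ, 0 < C ∧ ∀ (z : ℂ) (η : ℝ), |z.re| ≤ 2 → 0 < η → η ≤ 1 →
  (∀ w : ℂ, L.X (1 / 2 + w) = 0 → η ≤ ‖z - w‖) →
    Real.exp (-((L.m * Real.pi / 4 + ε) * |z.im|) - C * Y23.G.Lg z.im * (1 + Real.log (1 / η))) ≤ ‖L.X (1 / 2 + z)‖

/-- **CIR** (job EW-CIR): circles which avoid the zeros.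
Proof. Let `δ = Re ρ - 1/2 ≤ 1`. The zeros `s` with `‖s - ρ‖ ≤ 1` have `|Im s - Im ρ| ≤ 1`, so by `D.cnt` (and `mpos`) they are at most `n ≤ C0 Lg (Im ρ)` in number. The `n` intervals of radius `δ / (8 (n + 1))` about the numbers `‖s - ρ‖` do not cover `[δ/4, δ/2]` (`δ / 4 > n δ / (4 (n + 1))`; pigeonhole
on the `n + 1` points `δ/4 + (2 i + 1) δ / (8 (n + 1))`). If `‖s - ρ‖ > 1` then `‖s - ρ‖ - r ≥ 1/2`. -/
def S_Cir : Prop := ∀ [D : Y23.G.ZD], ∃ C : ℝ, 1 ≤ C ∧ ∀ ρ : ℂ, ρ ∈ D.Zs → 1 / 2 < ρ.re → ∃ r : ℝ, (ρ.re - 1 / 2) / 4 ≤ r ∧ r ≤ (ρ.re - 1 / 2) / 2 ∧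
  ∀ s ∈ D.Zs, (ρ.re - 1 / 2) / (C * Y23.G.Lg ρ.im) ≤ |‖s - ρ‖ - r|

/-- **INT** (job EW-INT): an entire function which is `1` at the zeros of `X` in a disc, `-1` at the zeros in another disc and `0` at the other zeros.
Proof. (1) Let `D` be the monic polynomial of the zeros of `X` in the two open discs of radius `r` (with multiplicities; finite in number), `X = D G`, `G` entire, not zero in the closed discs of radius `r` (no zeros on the circles, as `η > 0`).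
For a polynomial `D = ∑ d_k w^k` put `Λ(z, w) = ∑_k d_k ∑_{i + j = k - 1} z^i w^j`, so `(z - w) Λ(z, w) = D z - D w`. Let `P(w) = (2 π i)⁻¹ (∮_{C1} - ∮_{C2}) Λ(z, w) / (G z D z) dz` (circles of radius `r` about `w1`, `w2`): a polynomial in `w`. `F = G P` is entire.
(2) For `w` not on the circles `P w = (2 π i)⁻¹ (∮_{C1} - ∮_{C2}) (1 / (G z (z - w)) - D w / (X z (z - w))) dz`, and by Cauchy's formula (`1 / G` is holomorphic in the discs) the first part is `1 / G w`, `- 1 / G w` or `0` for `w` in the first disc, the second disc or outside. So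
`F w = ε(w) - X w κ(w)`, `κ w = (2 π i)⁻¹ (∮_{C1} - ∮_{C2}) dz / (X z (z - w))`, which gives the values at the zeros, and for `w` at distance at least `η / 2` from both circles `‖κ w‖ ≤ 2 (2 π)⁻¹ (2 π r) μ⁻¹ (2 / η)`.
(Alternatively: prove that `F` is entire directly from `F w = ε(w) - X w κ(w)`: near a circle the radius can be changed a little (Cauchy for the annulus without zeros).) -/
def S_Int : Prop := ∀ (X : ℂ → ℂ) (w1 w2 : ℂ) (r η μ : ℝ), Differentiable ℂ X → 0 < r → 0 < η → η ≤ r → 0 < μ → 2 * r + 2 * η ≤ ‖w1 - w2‖ →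
  (∀ w, X w = 0 → η ≤ |‖w - w1‖ - r| ∧ η ≤ |‖w - w2‖ - r|) → (∀ w, ‖w - w1‖ = r ∨ ‖w - w2‖ = r → μ ≤ ‖X w‖) →
    ∃ F : ℂ → ℂ, Differentiable ℂ F ∧ (∀ w, X w = 0 → (‖w - w1‖ < r → F w = 1) ∧ (‖w - w2‖ < r → F w = -1) ∧ (r < ‖w - w1‖ → r < ‖w - w2‖ → F w = 0)) ∧
      ∀ w, r + η / 2 ≤ ‖w - w1‖ → r + η / 2 ≤ ‖w - w2‖ → ‖F w‖ ≤ 8 * r / (η * μ) * ‖X w‖

/-- **KER** (job EW-KER): a smooth kernel with small support.
Proof. `κ` real, even, nonnegative, smooth with support in `[-h', h']`, `h' = min h (1/8)` (for instance `ContDiffBump` at `0`; even: it depends on `‖x‖`). `TT κ u = ∫ κ x exp (u x) dx`; `|u x| ≤ 1/4` for `‖u‖ ≤ 2`, so `|TT κ u - J| ≤ 0.3 J`, `J = ∫ κ > 0`, and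
`Re (TT κ u conj (TT κ (- conj u))) ≥ J² (1 - 0.6 - 0.09) > 0`. The decay in the strip: three integrations by parts (or `f ↦ u³ TT κ u = - TT κ''' u`), and the bound for `|Im u| ≤ 1`. (Cf. the bound of `Y23.TT χ` in `Pool/Agent/Q176/PG/TrX.lean`.) -/
def S_Ker : Prop := ∀ h : ℝ, 0 < h → ∃ (κ : ℝ → ℂ) (C c0 : ℝ), 0 < C ∧ 0 < c0 ∧ Y23.Fa h κ ∧ (∀ x, ‖κ x‖ ≤ C) ∧
  (∀ u : ℂ, |u.re| ≤ 1 → ‖Y23.TT κ u‖ ≤ C / (1 + |u.im|) ^ 3) ∧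
  ∀ u : ℂ, ‖u‖ ≤ 2 → c0 ≤ (Y23.TT κ u * (starRingEnd ℂ) (Y23.TT κ (-(starRingEnd ℂ) u))).re

/-- **TST** (job EW-TST): the test function. Uses `S_Cut`, `S_Ker`.
Proof. `S_Cut` with `R = 1`, `b = a - h`: `f ∈ Fa (a - h)` with `‖TT f w - F w‖ ≤ τ` for `|Re w| ≤ 1` (`B` large enough), `‖f‖ ≤ C K`. `κ` from `S_Ker` for `h`, `κ' x = κ x exp (- i γ x)`, `TT κ' w = TT κ (w - i γ)`; `G = f * κ'` (`Y23.G.conv_TT`): `TT G = TT f * TT κ'`, `Fa a G`, `Hd a G`; `2 π N2 G = ∫ ‖TT f (v I)‖² ‖TT κ' (v I)‖² ≤ C 2 π N2 f`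
(or `‖G x‖ ≤ C K`, support in `[-a, a]`). At the nodes `v I = nd a j`, `ν < |j|`: `‖TT f‖ ≤ 2 τ`, `‖TT κ (i (v - γ))‖ ≤ 8 C / (1 + |v|)^3` as `|v - γ| ≥ |v| / 2`; `Y23.G.F.proj` (`Y23/F/Pr.lean`): `g ∈ Hn a ν`, `‖TT G w - TT g w‖ ≤ C a² τ exp (a |Re w|) / (1 + |Im w|)`, `N2 g ≤ 2 N2 G + C a⁴ τ²`.
At a zero `w = ρ - 1/2`: `TT g w = F w TT κ (w - i γ) + e_w`, `‖e_w‖ ≤ C a² exp a τ (1 / (1 + |Im w|) + 1 / (1 + |Im w - γ|))` and also `w* = - conj w`. `QQ g = ∑ mu Re (TT g w conj (TT g w*))`; the main part is `- ∑ mu Re (TT κ u conj (TT κ (- conj u)))` over the zeros with `F w ≠ 0` (`u = w - i γ`, `‖u‖ ≤ 2`, `w* - i γ = - conj u`,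
`F w conj (F w*) = - ‖F w‖² = -1`), at most `- c0`; the other terms are at most `C exp (B a) (1 + |γ|) τ` (`Y23.G.zsum_le`, `Lg γ ≤ 3 + |γ|`, `τ ≤ 1`, `‖TT κ u‖ ≤ C / (1 + |Im u|)^3`). -/
def S_Tst : Prop := ∀ [L : Y23.G.LFun] (k A h : ℝ), k ≤ 1 + Real.log (2 * Real.pi) → 0 ≤ A → 0 < h → ∃ B C c0 : ℝ, 0 ≤ B ∧ 0 < C ∧ 0 < c0 ∧
  ∀ (a γ K τ : ℝ) (ν : ℕ∞) (F : ℂ → ℂ), 1 ≤ a → h ≤ a → 1 ≤ K → Differentiable ℂ F →
    (∀ w, ‖F w‖ ≤ K * Real.exp (Ek L.m k A |w.re|) / (1 + w.im ^ 2)) →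
    K * Real.exp (B * (1 + a) - ck L.m k * Real.exp (2 * (a - h) / L.m)) ≤ τ → τ ≤ 1 →
    (∀ j : ℤ, ν < (j.natAbs : ℕ∞) → ‖F (Y23.G.F.nd a j)‖ ≤ τ ∧ 2 * |γ| ≤ |(Y23.G.F.nd a j).im|) →
    (∀ w : ℂ, L.X (1 / 2 + w) = 0 → (F w = 0 ∧ F (-(starRingEnd ℂ) w) = 0) ∨
      (‖F w‖ = 1 ∧ F (-(starRingEnd ℂ) w) = -F w ∧ ‖w - γ * Complex.I‖ ≤ 2)) →
    (∃ w : ℂ, L.X (1 / 2 + w) = 0 ∧ F w ≠ 0) →
      ∃ g : ℝ → ℂ, Y23.G.F.Hn a ν g ∧ Y23.N2 g ≤ C * Real.exp (B * a) * K ^ 2 ∧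
        Y23.G.QQ (D := Y23.G.zd) g ≤ -c0 + C * Real.exp (B * a) * (1 + |γ|) * τ

/-- **EFF** (helper286): the theorem. Uses `S_Rot`, `S_Low`, `S_Cir`, `S_Int`, `S_Tst`. -/
def S_Eff : Prop := ∀ [L : Y23.G.LFun] (c ε : ℝ), c < Real.exp (Y23.G.kp (L := L) - 1) → 0 < ε → ∃ C κ A : ℝ, 0 < C ∧ 0 < κ ∧
  ∀ (a : ℝ) (ν : ℕ∞), A ≤ a → ((⌈C * a * Real.exp (2 * a / L.m)⌉₊ : ℕ) : ℕ∞) ≤ ν →
    (∀ f : ℝ → ℂ, Y23.G.F.Hn a ν f → -(Real.exp (-(ε * Real.exp (2 * a / L.m))) * Y23.N2 f) ≤ Y23.G.QQ (D := Y23.G.zd) f) →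
      ∀ w : ℂ, L.X (1 / 2 + w) = 0 → |w.im| ≤ c * Real.exp (2 * a / L.m) → |w.re| ≤ Real.exp (-(κ * Real.exp (2 * a / L.m) / a))

end Pool.Agent.Q286.EW
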