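import Pool.Agent.Q286.EW.ExF

set_option autoImplicit false

/-!
# Project EWC: the theorem
-/

open Filter Topology Metric
open scoped ComplexConjugate

namespace Pool.Agent.Q286.EW

/-- decay -/
lemma dec (C g c0 : ℝ) (hC : 0 ≤ C) (hg : 0 < g) (h0 : 0 < c0) : ∃ M : ℝ, ∀ E : ℝ, M ≤ E → 1 ≤ E → C * E * Real.exp (-(g * E)) < c0 := by
  refine ⟨2 * C / (g ^ 2 * c0) + 1, fun E hM hE => ?_⟩
  have h1 : 2 * C / (g ^ 2 * c0) < E := by linarith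
  rw [div_lt_iff₀ (by positivity)] at h1
  have h2 := Real.quadratic_le_exp_of_nonneg (x := g * E) (by positivity)
  have h3 : (g * E) ^ 2 / 2 ≤ Real.exp (g * E) := by
    have : 0 ≤ g * E := by positivity
    linarith
  rw [Real.exp_neg, ← div_eq_mul_inv, div_lt_iff₀ (Real.exp_pos _)]
  have hE0 : 0 < E := by linarith
  have h4 : C * E < c0 * ((g * E) ^ 2 / 2) := by nlinarith
  exact h4.trans_le (mul_le_mul_of_nonneg_left h3 h0.le)

/-- the rotated function -/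
noncomputable def Yf [L : Y23.G.LFun] (θ : ℝ) (w : ℂ) : ℂ := L.X (1 / 2 + w) * Complex.exp (-(θ * Complex.I * w))

lemma norm_Yf [L : Y23.G.LFun] (θ : ℝ) (w : ℂ) : ‖Yf (L := L) θ w‖ = ‖L.X (1 / 2 + w)‖ * Real.exp (θ * w.im) := by
  unfold Yf
  rw [norm_mul, Complex.norm_exp]
  congr 2
  simp

lemma Yf_zero [L : Y23.G.LFun] {θ : ℝ} {w : ℂ} : Yf (L := L) θ w = 0 ↔ L.X (1 / 2 + w) = 0 := by
  unfold Yf
  rw [mul_eq_zero]
  exact ⟨fun h => h.resolve_right (Complex.exp_ne_zero _), Or.inl⟩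

lemma X_refl [L : Y23.G.LFun] {w : ℂ} (h : L.X (1 / 2 + w) = 0) : L.X (1 / 2 + -conj w) = 0 := by
  have := Y23.G.X_zero h
  have e : (1 : ℂ) - conj (1 / 2 + w) = 1 / 2 + -conj w := by
    rw [map_add, map_div₀, map_one, map_ofNat]
    ring
  rwa [e] at this

lemma Yf_diff [L : Y23.G.LFun] (θ : ℝ) : Differentiable ℂ (Yf (L := L) θ) := by
  have h1 : Differentiable ℂ (fun w : ℂ => L.X (1 / 2 + w)) := Y23.G.Xd.comp (by fun_prop)
  exact h1.mul (by fun_prop)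

lemma mul_im_le {θ t : ℝ} (y : ℝ) (h : |θ| ≤ t) : θ * y ≤ t * |y| := by
  calc θ * y ≤ |θ * y| := le_abs_self _
    _ = |θ| * |y| := abs_mul _ _
    _ ≤ t * |y| := mul_le_mul_of_nonneg_right h (abs_nonneg _)

/-- the function of a zero to the right of the line -/
lemma zeroF [L : Y23.G.LFun] (hI : S_Int) {φ A0 Q ε2 C2 C3 : ℝ} (hφ0 : 0 ≤ φ)
    (hrot : ∀ w : ℂ, ‖L.X (1 / 2 + w)‖ * Real.exp (L.m * φ / 2 * |w.im|) ≤
      Real.exp (Ek L.m (Y23.G.kp + Real.log (Real.cos φ)) A0 |w.re|) / (1 + w.im ^ 2))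
    (hQ : ∀ t u : ℝ, 0 ≤ t → t ≤ 2 → 0 ≤ u → u ≤ 2 → Ek L.m (Y23.G.kp + Real.log (Real.cos φ)) A0 t ≤
      Q + Ek L.m (Y23.G.kp + Real.log (Real.cos φ)) A0 u) (hε2 : 0 < ε2) (hC2 : 0 < C2)
    (hlow : ∀ (z : ℂ) (η : ℝ), |z.re| ≤ 2 → 0 < η → η ≤ 1 → (∀ w : ℂ, L.X (1 / 2 + w) = 0 → η ≤ ‖z - w‖) →
      Real.exp (-((L.m * Real.pi / 4 + ε2) * |z.im|) - C2 * Y23.G.Lg z.im * (1 + Real.log (1 / η))) ≤ ‖L.X (1 / 2 + z)‖)
    (hC3 : 1 ≤ C3)
    (hcir : ∀ ρ : ℂ, ρ ∈ (Y23.G.zd (L := L)).Zs → 1 / 2 < ρ.re → ∃ r : ℝ, (ρ.re - 1 / 2) / 4 ≤ r ∧ r ≤ (ρ.re - 1 / 2) / 2 ∧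
      ∀ s ∈ (Y23.G.zd (L := L)).Zs, (ρ.re - 1 / 2) / (C3 * Y23.G.Lg ρ.im) ≤ |‖s - ρ‖ - r|)
    {w0 : ℂ} (hw0 : L.X (1 / 2 + w0) = 0) (hδ0 : 0 < w0.re) :
    ∃ (θ ℓ P : ℝ) (F : ℂ → ℂ), |θ| ≤ L.m * φ / 2 ∧ 0 ≤ ℓ ∧ ℓ = Real.log (4 * C3 * Y23.G.Lg w0.im) - Real.log w0.re ∧
      P = (L.m * Real.pi / 4 + ε2) * (|w0.im| + 1 / 2) - L.m * φ / 2 * (|w0.im| - 1 / 2) + 2 * C2 * Y23.G.Lg w0.im * (1 + ℓ) ∧
      Differentiable ℂ F ∧
      (∀ w, ‖F w‖ ≤ Real.exp (Real.log 36 + Q + ℓ + P) * Real.exp (Ek L.m (Y23.G.kp + Real.log (Real.cos φ)) A0 |w.re|) / (1 + w.im ^ 2)) ∧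
      (∀ w, 1 ≤ |w.im - w0.im| → ‖F w‖ ≤ Real.exp (Real.log 36 + Q + ℓ + P) * ‖Yf (L := L) θ w‖) ∧
      (∀ w, L.X (1 / 2 + w) = 0 → (F w = 0 ∧ F (-conj w) = 0) ∨ (‖F w‖ = 1 ∧ F (-conj w) = -F w ∧ ‖w - w0.im * Complex.I‖ ≤ 2)) ∧
      F w0 = 1 := by
  have hm : (1 : ℝ) ≤ L.m := Y23.G.m_one
  have hm0 : (0 : ℝ) < L.m := by linarith
  have hpi := Real.pi_gt_three
  have hρ : (1 / 2 + w0) ∈ (Y23.G.zd (L := L)).Zs := hw0
  have hρre : (1 / 2 + w0).re = 1 / 2 + w0.re := by simp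
  have hρim : (1 / 2 + w0).im = w0.im := by simp
  have hδ1 : w0.re ≤ 1 := by
    have := (abs_le.1 ((Y23.G.zd (L := L)).strip _ hρ)).2
    rw [hρre] at this
    linarith
  obtain ⟨r, hr1, hr2, hr3⟩ := hcir (1 / 2 + w0) hρ (by rw [hρre]; linarith)
  rw [hρre, add_sub_cancel_left] at hr1 hr2
  rw [hρre, hρim, add_sub_cancel_left] at hr3
  have hLg1 := Y23.G.one_le_Lg w0.im
  have hden : 4 ≤ 4 * C3 * Y23.G.Lg w0.im := by nlinarith
  obtain ⟨η, hη⟩ : ∃ η : ℝ, η = w0.re / (4 * C3 * Y23.G.Lg w0.im) := ⟨_, rfl⟩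
  have hη0 : 0 < η := by rw [hη]; positivity
  have hηδ : η ≤ w0.re / 4 := by rw [hη]; exact div_le_div_of_nonneg_left hδ0.le (by norm_num) hden
  have hη1 : η ≤ 1 := by linarith
  have hηC : η ≤ w0.re / (C3 * Y23.G.Lg w0.im) := by
    rw [hη]
    exact div_le_div_of_nonneg_left hδ0.le (by positivity) (by nlinarith)
  have hz : ∀ z : ℂ, L.X (1 / 2 + z) = 0 → η ≤ |‖z - w0‖ - r| := by
    intro z hz
    have h1 := hr3 (1 / 2 + z) hz
    have h2 : (1 / 2 + z) - (1 / 2 + w0) = z - w0 := by ring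
    rw [h2] at h1
    exact hηC.trans h1
  have hr0 : 0 < r := by linarith
  obtain ⟨ℓ, hℓ⟩ : ∃ ℓ : ℝ, ℓ = Real.log (1 / η) := ⟨_, rfl⟩
  have hℓ0 : 0 ≤ ℓ := by rw [hℓ]; exact Real.log_nonneg (by rw [le_div_iff₀ hη0]; linarith)
  have hℓeq : ℓ = Real.log (4 * C3 * Y23.G.Lg w0.im) - Real.log w0.re := by
    rw [hℓ, hη, one_div_div, Real.log_div (by positivity) hδ0.ne']
  obtain ⟨γ, hγ⟩ : ∃ γ : ℝ, γ = w0.im := ⟨_, rfl⟩
  -- the rotation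
  obtain ⟨θ, hθ, hθγ⟩ : ∃ θ : ℝ, |θ| ≤ L.m * φ / 2 ∧ ∀ y : ℝ, |y - γ| ≤ 1 / 2 → L.m * φ / 2 * (|γ| - 1 / 2) ≤ θ * y := by
    have ht : 0 ≤ (L.m : ℝ) * φ / 2 := by positivity
    rcases le_total 0 γ with h | h
    · refine ⟨L.m * φ / 2, by rw [abs_of_nonneg ht], fun y hy => mul_le_mul_of_nonneg_left ?_ ht⟩
      rw [abs_of_nonneg h]
      linarith [(abs_le.1 hy).1]
    · refine ⟨-(L.m * φ / 2), by rw [abs_neg, abs_of_nonneg ht], fun y hy => ?_⟩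
      rw [abs_of_nonpos h]
      have h2 := (abs_le.1 hy).2
      nlinarith
  rw [← hγ] at hLg1 hℓeq
  obtain ⟨P, hP⟩ : ∃ P : ℝ, P = (L.m * Real.pi / 4 + ε2) * (|γ| + 1 / 2) - L.m * φ / 2 * (|γ| - 1 / 2) + 2 * C2 * Y23.G.Lg γ * (1 + ℓ) := ⟨_, rfl⟩
  obtain ⟨μ, hμ⟩ : ∃ μ : ℝ, μ = Real.exp (-P) := ⟨_, rfl⟩
  have hμ0 : 0 < μ := by rw [hμ]; exact Real.exp_pos _
  have hl : ∀ z : ℂ, ‖z - w0‖ = r ∨ ‖z - -conj w0‖ = r → μ ≤ ‖Yf (L := L) θ z‖ := by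
    intro z hzz
    have hdist : ∀ x : ℂ, L.X (1 / 2 + x) = 0 → η ≤ ‖z - x‖ := by
      intro x hx
      rcases hzz with h1 | h1
      · have h2 := hz x hx
        have h3 : |‖x - w0‖ - r| ≤ ‖z - x‖ := by
          rw [← h1]
          have h4 := abs_norm_sub_norm_le (x - w0) (z - w0)
          rw [sub_sub_sub_cancel_right, norm_sub_rev x z] at h4
          exact h4
        exact h2.trans h3
      · have h2 := hz (-conj x) (X_refl hx)
        rw [refl_dist] at h2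
        have h3 : |‖x - -conj w0‖ - r| ≤ ‖z - x‖ := by
          rw [← h1]
          have h4 := abs_norm_sub_norm_le (x - -conj w0) (z - -conj w0)
          rw [sub_sub_sub_cancel_right, norm_sub_rev x z] at h4
          exact h4
        exact h2.trans h3
    have hreim : |z.re| ≤ 2 ∧ |z.im - γ| ≤ 1 / 2 := by
      have hr12 : r ≤ 1 / 2 := by linarith
      rw [hγ]
      rcases hzz with h1 | h1
      · have h2 := Complex.abs_re_le_norm (z - w0)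
        have h3 := Complex.abs_im_le_norm (z - w0)
        rw [h1, Complex.sub_re] at h2
        rw [h1, Complex.sub_im] at h3
        refine ⟨?_, by linarith⟩
        have h4 := abs_sub_abs_le_abs_sub z.re w0.re
        rw [abs_of_pos hδ0] at h4
        linarith
      · have h2 := Complex.abs_re_le_norm (z - -conj w0)
        have h3 := Complex.abs_im_le_norm (z - -conj w0)
        rw [h1, Complex.sub_re, Complex.neg_re, Complex.conj_re] at h2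
        rw [h1, Complex.sub_im, Complex.neg_im, Complex.conj_im, neg_neg] at h3
        refine ⟨?_, by linarith⟩
        have h4 := abs_sub_abs_le_abs_sub z.re (-w0.re)
        rw [abs_neg, abs_of_pos hδ0] at h4
        linarith
    have h1 := hlow z η hreim.1 hη0 hη1 hdist
    rw [← hℓ] at h1
    have h2 := hθγ z.im hreim.2
    have h3 : |z.im| ≤ |γ| + 1 / 2 := by
      have := abs_sub_abs_le_abs_sub z.im γ
      linarith [hreim.2]
    have h4 : Y23.G.Lg z.im ≤ 2 * Y23.G.Lg γ := by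
      have h5 := Y23.G.Lg_add γ (z.im - γ)
      rw [add_sub_cancel] at h5
      linarith [hreim.2]
    rw [norm_Yf, hμ]
    calc Real.exp (-P) ≤ Real.exp (-((L.m * Real.pi / 4 + ε2) * |z.im|) - C2 * Y23.G.Lg z.im * (1 + ℓ) + θ * z.im) := by
          apply Real.exp_le_exp.2
          have h6 : (L.m * Real.pi / 4 + ε2) * |z.im| ≤ (L.m * Real.pi / 4 + ε2) * (|γ| + 1 / 2) :=
            mul_le_mul_of_nonneg_left h3 (by positivity)
          have h7 : C2 * Y23.G.Lg z.im * (1 + ℓ) ≤ 2 * C2 * Y23.G.Lg γ * (1 + ℓ) := by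
            refine mul_le_mul_of_nonneg_right ?_ (by linarith)
            nlinarith
          rw [hP]
          linarith
      _ = Real.exp (-((L.m * Real.pi / 4 + ε2) * |z.im|) - C2 * Y23.G.Lg z.im * (1 + ℓ)) * Real.exp (θ * z.im) :=
          Real.exp_add _ _
      _ ≤ _ := mul_le_mul_of_nonneg_right h1 (Real.exp_pos _).le
  have hYb : ∀ z : ℂ, ‖Yf (L := L) θ z‖ ≤ Real.exp (Ek L.m (Y23.G.kp + Real.log (Real.cos φ)) A0 |z.re|) / (1 + z.im ^ 2) := by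
    intro z
    rw [norm_Yf]
    refine le_trans (mul_le_mul_of_nonneg_left (Real.exp_le_exp.2 (mul_im_le z.im hθ)) (norm_nonneg _)) (hrot z)
  obtain ⟨F, hFd, hFb, hFo, hFv, hF1⟩ := exF hI hQ (Yf_diff θ) hYb (fun z hz' => Yf_zero.2 (X_refl (Yf_zero.1 hz')))
    (Yf_zero.2 hw0) hδ0 hδ1 hr1 hr2 hη0 hηδ (fun z hz' => hz z (Yf_zero.1 hz')) hμ0 hl
  have hQ0 : 0 ≤ Q := by
    have := hQ 0 0 le_rfl (by norm_num) le_rfl (by norm_num)
    linarith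
  have hKexp : 36 * Real.exp Q / (η * μ) = Real.exp (Real.log 36 + Q + ℓ + P) := by
    rw [Real.exp_add, Real.exp_add, Real.exp_add, Real.exp_log (by norm_num), hℓ, Real.exp_log (by positivity), hμ, Real.exp_neg]
    field_simp
  have h4K : 4 / (η * μ) ≤ Real.exp (Real.log 36 + Q + ℓ + P) := by
    rw [← hKexp]
    have : 1 ≤ Real.exp Q := Real.one_le_exp hQ0
    exact div_le_div_of_nonneg_right (by linarith) (by positivity)
  rw [hKexp] at hFb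
  rw [← hγ]
  refine ⟨θ, ℓ, P, F, hθ, hℓ0, hℓeq, hP, hFd, hFb, fun w hw => ?_, fun w hw => ?_, hF1⟩
  · rw [hγ] at hw
    exact (hFo w hw).trans (mul_le_mul_of_nonneg_right h4K (norm_nonneg _))
  · rw [hγ]
    exact hFv w (Yf_zero.2 hw)

end Pool.Agent.Q286.EW
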