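import Pool.Agent.Q286.EW.ZeroF
import Pool.Agent.Q286.EW.Stm2

set_option autoImplicit false

/-!
# Project EWC, any precision: the interpolating function
-/

open Filter Topology Metric
open scoped ComplexConjugate

namespace Pool.Agent.Q286.EW

lemma Ek_ratioU {m A : ℝ} (hm : 0 ≤ m) : ∃ Q : ℝ, 0 ≤ Q ∧ ∀ k t u : ℝ, 0 ≤ t → t ≤ 2 → 0 ≤ u → u ≤ 2 →
    Ek m k A t ≤ Q + m * |k| + Ek m k A u := by
  obtain ⟨Q, hQ0, hQ⟩ := Ek_ratio m 0 A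
  refine ⟨Q, hQ0, fun k t u ht ht2 hu hu2 => ?_⟩
  have h1 := hQ t u ht ht2 hu hu2
  have h2 : ∀ x, Ek m k A x = Ek m 0 A x - m / 2 * (x * k) := fun x => by unfold Ek; ring
  rw [h2, h2]
  have h3 : (u - t) * k ≤ 2 * |k| := by
    calc (u - t) * k ≤ |(u - t) * k| := le_abs_self _
      _ = |u - t| * |k| := abs_mul _ _
      _ ≤ 2 * |k| := mul_le_mul_of_nonneg_right (abs_le.2 ⟨by linarith, by linarith⟩) (abs_nonneg _)
  have h4 : m / 2 * ((u - t) * k) ≤ m / 2 * (2 * |k|) := mul_le_mul_of_nonneg_left h3 (by positivity)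
  linarith

/-- the function of a zero to the right of the line -/
lemma zeroFU [L : Y23.G.LFun] (hI : S_Int) {φ A0 Q T C2 : ℝ} (hφ0 : 0 ≤ φ) (hT0 : 0 ≤ T)
    (hrot : ∀ w : ℂ, ‖L.X (1 / 2 + w)‖ * Real.exp (L.m * φ / 2 * |w.im|) ≤
      Real.exp T * Real.exp (Ek L.m (Y23.G.kp + Real.log (Real.cos φ)) A0 |w.re|) / (1 + w.im ^ 2))
    (hQ : ∀ t u : ℝ, 0 ≤ t → t ≤ 2 → 0 ≤ u → u ≤ 2 → Ek L.m (Y23.G.kp + Real.log (Real.cos φ)) A0 t ≤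
      Q + Ek L.m (Y23.G.kp + Real.log (Real.cos φ)) A0 u) (hC2 : 2 ≤ C2)
    {w0 : ℂ} (hw0 : L.X (1 / 2 + w0) = 0) (hδ0 : 0 < w0.re) {r : ℝ} (hr1 : w0.re / 4 ≤ r) (hr2 : r ≤ w0.re / 2)
    (hz : ∀ w : ℂ, L.X (1 / 2 + w) = 0 → Real.exp (-(C2 * Y23.G.Lg w0.im * (1 + Real.log (1 / w0.re)))) ≤ |‖w - w0‖ - r|)
    (hlow : ∀ z : ℂ, (‖z - w0‖ = r ∨ ‖z - -conj w0‖ = r) →
      Real.exp (-(L.m * Real.pi / 4 * |w0.im|) - C2 * Y23.G.Lg w0.im * (1 + Real.log (1 / w0.re))) ≤ ‖L.X (1 / 2 + z)‖) :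
    ∃ (θ P : ℝ) (F : ℂ → ℂ), |θ| ≤ L.m * φ / 2 ∧ w0.re ≤ 1 ∧
      P = L.m * Real.pi / 4 * |w0.im| - L.m * φ / 2 * (|w0.im| - 1 / 2) + 2 * (C2 * Y23.G.Lg w0.im * (1 + Real.log (1 / w0.re))) + T ∧
      Differentiable ℂ F ∧
      (∀ w, ‖F w‖ ≤ Real.exp (Real.log 36 + Q + P) * Real.exp (Ek L.m (Y23.G.kp + Real.log (Real.cos φ)) A0 |w.re|) / (1 + w.im ^ 2)) ∧
      (∀ w, 1 ≤ |w.im - w0.im| → ‖F w‖ ≤ Real.exp (Real.log 36 + Q + P) * ‖Yf (L := L) θ w‖) ∧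
      (∀ w, L.X (1 / 2 + w) = 0 → (F w = 0 ∧ F (-conj w) = 0) ∨ (‖F w‖ = 1 ∧ F (-conj w) = -F w ∧ ‖w - w0.im * Complex.I‖ ≤ 2)) ∧
      F w0 = 1 := by
  have hm : (1 : ℝ) ≤ L.m := Y23.G.m_one
  have hm0 : (0 : ℝ) < L.m := by linarith
  have hρ : (1 / 2 + w0) ∈ (Y23.G.zd (L := L)).Zs := hw0
  have hρre : (1 / 2 + w0).re = 1 / 2 + w0.re := by simp
  have hδ1 : w0.re ≤ 1 := by
    have := (abs_le.1 ((Y23.G.zd (L := L)).strip _ hρ)).2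
    rw [hρre] at this
    linarith
  have hLg1 := Y23.G.one_le_Lg w0.im
  obtain ⟨ℓ, hℓ⟩ : ∃ ℓ : ℝ, ℓ = Real.log (1 / w0.re) := ⟨_, rfl⟩
  have hℓ0 : 0 ≤ ℓ := by rw [hℓ]; exact Real.log_nonneg (by rw [le_div_iff₀ hδ0]; linarith)
  obtain ⟨Λ0, hΛ⟩ : ∃ Λ0 : ℝ, Λ0 = C2 * Y23.G.Lg w0.im * (1 + Real.log (1 / w0.re)) := ⟨_, rfl⟩
  have hΛ2 : 2 * (1 + ℓ) ≤ Λ0 := by
    rw [hΛ, ← hℓ]
    refine mul_le_mul_of_nonneg_right ?_ (by linarith)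
    nlinarith
  rw [← hΛ] at hz hlow
  obtain ⟨η, hη⟩ : ∃ η : ℝ, η = Real.exp (-Λ0) := ⟨_, rfl⟩
  have hη0 : 0 < η := by rw [hη]; exact Real.exp_pos _
  have hηδ : η ≤ w0.re / 4 := by
    have h1 : η ≤ Real.exp (-(2 * (1 + ℓ))) := by rw [hη]; exact Real.exp_le_exp.2 (by linarith)
    have h2 : Real.exp (-(2 * (1 + ℓ))) ≤ Real.exp (-2) * Real.exp (-ℓ) := by
      rw [← Real.exp_add]
      exact Real.exp_le_exp.2 (by linarith)
    have h3 : Real.exp (-ℓ) = w0.re := by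
      rw [hℓ, ← Real.log_inv, one_div, inv_inv, Real.exp_log hδ0]
    have h4 : Real.exp (-2) ≤ 1 / 4 := by
      rw [Real.exp_neg, ← one_div]
      refine one_div_le_one_div_of_le (by norm_num) ?_
      have h5 := Real.quadratic_le_exp_of_nonneg (x := 2) (by norm_num)
      linarith
    rw [h3] at h2
    nlinarith
  rw [← hη] at hz
  have hr0 : 0 < r := by linarith
  obtain ⟨γ, hγ⟩ : ∃ γ : ℝ, γ = w0.im := ⟨_, rfl⟩
  -- the rotation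
  obtain ⟨θ, hθ, hθγ⟩ : ∃ θ : ℝ, |θ| ≤ L.m * φ / 2 ∧ ∀ y : ℝ, |y - γ| ≤ 1 / 2 → L.m * φ / 2 * (|γ| - 1 / 2) ≤ θ * y := by
    have ht : 0 ≤ (L.m : ℝ) * φ / 2 := by positivity
    rcases le_total 0 γ with h | h
    · refine ⟨L.m * φ / 2, by rw [abs_of_nonneg ht], fun y hy => mul_le_mul_of_nonneg_left ?_ ht⟩
      rw [abs_of_nonneg h]
      linarith [(abs_le.1 hy).1]
    · refine ⟨-(L.m * φ / 2), by rw [abs_neg, abs_of_nonneg ht], fun y hy => ?_⟩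
      rw [abs_of_nonpos h]
      have h2 := (abs_le.1 hy).2
      nlinarith
  rw [← hγ] at hlow
  obtain ⟨P0, hP0⟩ : ∃ P0 : ℝ, P0 = L.m * Real.pi / 4 * |γ| - L.m * φ / 2 * (|γ| - 1 / 2) + Λ0 := ⟨_, rfl⟩
  obtain ⟨μ, hμ⟩ : ∃ μ : ℝ, μ = Real.exp (-T) * Real.exp (-P0) := ⟨_, rfl⟩
  have hμ0 : 0 < μ := by rw [hμ]; positivity
  set Y : ℂ → ℂ := fun w => ((Real.exp (-T) : ℝ) : ℂ) * Yf (L := L) θ w with hY
  have hYn : ∀ w, ‖Y w‖ = Real.exp (-T) * ‖Yf (L := L) θ w‖ := fun w => by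
    rw [hY, norm_mul, Complex.norm_real, Real.norm_of_nonneg (Real.exp_pos _).le]
  have hYz : ∀ w, Y w = 0 ↔ L.X (1 / 2 + w) = 0 := fun w => by
    rw [hY, mul_eq_zero, Yf_zero (L := L)]
    have : ((Real.exp (-T) : ℝ) : ℂ) ≠ 0 := by exact_mod_cast (Real.exp_pos _).ne'
    exact ⟨fun h => h.resolve_left this, Or.inr⟩
  have hl : ∀ z : ℂ, ‖z - w0‖ = r ∨ ‖z - -conj w0‖ = r → μ ≤ ‖Y z‖ := by
    intro z hzz
    have him : |z.im - γ| ≤ 1 / 2 := by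
      have hr12 : r ≤ 1 / 2 := by linarith
      rw [hγ]
      rcases hzz with h1 | h1
      · have h3 := Complex.abs_im_le_norm (z - w0)
        rw [h1, Complex.sub_im] at h3
        linarith
      · have h3 := Complex.abs_im_le_norm (z - -conj w0)
        rw [h1, Complex.sub_im, Complex.neg_im, Complex.conj_im, neg_neg] at h3
        linarith
    have h1 := hlow z hzz
    have h2 := hθγ z.im him
    rw [hYn, norm_Yf, hμ]
    refine mul_le_mul_of_nonneg_left ?_ (Real.exp_pos _).le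
    calc Real.exp (-P0) ≤ Real.exp (-(L.m * Real.pi / 4 * |γ|) - Λ0 + θ * z.im) := by
          apply Real.exp_le_exp.2
          rw [hP0]
          linarith
      _ = Real.exp (-(L.m * Real.pi / 4 * |γ|) - Λ0) * Real.exp (θ * z.im) := Real.exp_add _ _
      _ ≤ _ := mul_le_mul_of_nonneg_right h1 (Real.exp_pos _).le
  have hYb : ∀ z : ℂ, ‖Y z‖ ≤ Real.exp (Ek L.m (Y23.G.kp + Real.log (Real.cos φ)) A0 |z.re|) / (1 + z.im ^ 2) := by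
    intro z
    rw [hYn, norm_Yf]
    have h1 := le_trans (mul_le_mul_of_nonneg_left (Real.exp_le_exp.2 (mul_im_le z.im hθ)) (norm_nonneg (L.X (1 / 2 + z)))) (hrot z)
    calc Real.exp (-T) * (‖L.X (1 / 2 + z)‖ * Real.exp (θ * z.im)) ≤
        Real.exp (-T) * (Real.exp T * Real.exp (Ek L.m (Y23.G.kp + Real.log (Real.cos φ)) A0 |z.re|) / (1 + z.im ^ 2)) :=
          mul_le_mul_of_nonneg_left h1 (Real.exp_pos _).le
      _ = (Real.exp (-T) * Real.exp T) * (Real.exp (Ek L.m (Y23.G.kp + Real.log (Real.cos φ)) A0 |z.re|) / (1 + z.im ^ 2)) := by ring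
      _ = _ := by rw [← Real.exp_add, neg_add_cancel, Real.exp_zero, one_mul]
  have hYd : Differentiable ℂ Y := (Yf_diff (L := L) θ).const_mul _
  obtain ⟨F, hFd, hFb, hFo, hFv, hF1⟩ := exF hI hQ hYd hYb (fun z hz' => (hYz _).2 (X_refl ((hYz _).1 hz')))
    ((hYz _).2 hw0) hδ0 hδ1 hr1 hr2 hη0 hηδ (fun z hz' => hz z ((hYz _).1 hz')) hμ0 hl
  have hQ0 : 0 ≤ Q := by
    have := hQ 0 0 le_rfl (by norm_num) le_rfl (by norm_num)
    linarith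
  obtain ⟨P, hP⟩ : ∃ P : ℝ, P = L.m * Real.pi / 4 * |γ| - L.m * φ / 2 * (|γ| - 1 / 2) + 2 * Λ0 + T := ⟨_, rfl⟩
  have hKexp : 36 * Real.exp Q / (η * μ) = Real.exp (Real.log 36 + Q + P) := by
    have h1 : Real.log 36 + Q + P = Real.log 36 + Q + Λ0 + T + P0 := by rw [hP, hP0]; ring
    rw [h1, Real.exp_add, Real.exp_add, Real.exp_add, Real.exp_add, Real.exp_log (by norm_num), hμ, hη, Real.exp_neg, Real.exp_neg, Real.exp_neg]
    field_simp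
  have h4K : 4 / (η * μ) ≤ Real.exp (Real.log 36 + Q + P) := by
    rw [← hKexp]
    have : 1 ≤ Real.exp Q := Real.one_le_exp hQ0
    exact div_le_div_of_nonneg_right (by linarith) (by positivity)
  rw [hKexp] at hFb
  rw [← hΛ]
  rw [← hγ]
  refine ⟨θ, P, F, hθ, hδ1, hP, hFd, hFb, fun w hw => ?_, fun w hw => ?_, hF1⟩
  · rw [hγ] at hw
    refine (hFo w hw).trans ?_
    rw [hYn]
    have h5 : Real.exp (-T) * ‖Yf (L := L) θ w‖ ≤ ‖Yf (L := L) θ w‖ :=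
      mul_le_of_le_one_left (norm_nonneg _) (Real.exp_le_one_iff.2 (by linarith))
    calc 4 / (η * μ) * (Real.exp (-T) * ‖Yf (L := L) θ w‖) ≤ 4 / (η * μ) * ‖Yf (L := L) θ w‖ :=
          mul_le_mul_of_nonneg_left h5 (by positivity)
      _ ≤ _ := mul_le_mul_of_nonneg_right h4K (norm_nonneg _)
  · rw [hγ]
    exact hFv w ((hYz w).2 hw)

end Pool.Agent.Q286.EW
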